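import Mathlib

set_option autoImplicit false

namespace Pool.Agent.H54PS

open Encodable

theorem encode_natCast (n : ℕ) : encode (n : ℤ) = 2 * n := rfl

theorem encode_negSucc (n : ℕ) : encode (Int.negSucc n) = 2 * n + 1 := rfl

theorem primrec_natCast : Primrec fun n : ℕ => (n : ℤ) := by
  refine ((Primrec.ofNat ℤ).comp (Primrec.nat_mul.comp (Primrec.const 2) Primrec.id)).of_eq ?_
  intro n
  simp only [id]
  rw [← encode_natCast, Denumerable.ofNat_encode]

theorem primrec_toNat : Primrec fun z : ℤ => z.toNat := by
  refine (Primrec.ite (c := fun z : ℤ => encode z % 2 = 0)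
    (Primrec.eq.comp (Primrec.nat_mod.comp Primrec.encode (Primrec.const 2)) (Primrec.const 0))
    (Primrec.nat_div.comp Primrec.encode (Primrec.const 2)) (Primrec.const 0)).of_eq ?_
  intro z
  cases z with
  | ofNat n =>
    simp [encode_natCast]
  | negSucc n =>
    rw [encode_negSucc]
    rw [if_neg (by omega)]
    simp

theorem primrec_negToNat : Primrec fun z : ℤ => (-z).toNat := by
  refine (Primrec.ite (c := fun z : ℤ => encode z % 2 = 0)
    (Primrec.eq.comp (Primrec.nat_mod.comp Primrec.encode (Primrec.const 2)) (Primrec.const 0))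
    (Primrec.const 0)
    (Primrec.succ.comp (Primrec.nat_div.comp Primrec.encode (Primrec.const 2)))).of_eq ?_
  intro z
  cases z with
  | ofNat n =>
    simp [encode_natCast]
  | negSucc n =>
    rw [encode_negSucc]
    rw [if_neg (by omega)]
    have : -Int.negSucc n = ((n + 1 : ℕ) : ℤ) := rfl
    rw [this, Int.toNat_natCast]
    simp only [Nat.succ_eq_add_one]
    omega

end Pool.Agent.H54PS
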