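import Pool.Agent.H54PS.Friedberg

set_option autoImplicit false

namespace Pool.Agent.H54PS

open Encodable
open Pool.Agent.Helper227

/-- Normal form of a predicate that is Sigma-one relative to the jump of `A`. -/
theorem si_norm {α : Type*} [Primcodable α] {A : ℕ → Bool} {p : α → Prop}
    (hp : SI (jump A) p) :
    ∃ q : α × ℕ → Prop, SI A q ∧ ∀ x, p x ↔ ∃ y, ¬ q (x, y) := by
  classical
  obtain ⟨E, hE, mE, eE⟩ := hp
  have h1 : SI A fun x : α × List Bool => E (x.2, x.1) ∧
      ∀ i < x.2.length, (x.2.getD i false = false ∨ jump A i = true) := by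
    refine SI.and (SI.of_s1 (hE.comp (Primrec.snd.pair Primrec.fst))) ?_
    refine SI.all_lt (α := α × List Bool)
      (p := fun x i => (x.2.getD i false = false ∨ jump A i = true))
      (f := fun x => x.2.length) (SI.or (SI.of_prim ?_) ?_) (Primrec.list_length.comp Primrec.snd)
    · exact Primrec.eq.comp ((Primrec.list_getD false).comp (Primrec.snd.comp Primrec.fst)
        Primrec.snd) (Primrec.const false)
    · exact (si_jump A).comp (f := fun x : (α × List Bool) × ℕ => x.2) Primrec.snd
  have h2 : SI A fun σ : List Bool => ∃ i : ℕ, (i < σ.length ∧ σ.getD i false = false) ∧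
      jump A i = true := by
    refine SI.ex (p := fun (σ : List Bool) (i : ℕ) => (i < σ.length ∧ σ.getD i false = false) ∧
      jump A i = true) (SI.and (SI.of_prim (PrimrecPred.and ?_ ?_)) ?_)
    · exact Primrec.nat_lt.comp Primrec.snd (Primrec.list_length.comp Primrec.fst)
    · exact Primrec.eq.comp ((Primrec.list_getD false).comp Primrec.fst Primrec.snd)
        (Primrec.const false)
    · exact (si_jump A).comp (f := fun x : List Bool × ℕ => x.2) Primrec.snd
  have h3 : ∀ x, p x ↔ ∃ σ : List Bool, (E (σ, x) ∧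
      ∀ i < σ.length, (σ.getD i false = false ∨ jump A i = true)) ∧
      ¬ ∃ i : ℕ, (i < σ.length ∧ σ.getD i false = false) ∧ jump A i = true := by
    intro x
    rw [eE]
    constructor
    · rintro ⟨s, hs⟩
      refine ⟨pre (jump A) s, ⟨hs, fun i hi => ?_⟩, ?_⟩
      · rw [length_pre] at hi
        rw [pre_getD _ _ _ _ hi]
        cases jump A i <;> simp
      · rintro ⟨i, ⟨h4, h5⟩, h6⟩
        rw [length_pre] at h4
        rw [pre_getD _ _ _ _ h4, h6] at h5
        cases h5
    · rintro ⟨σ, ⟨h4, h5⟩, h6⟩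
      refine ⟨σ.length, ?_⟩
      have : pre (jump A) σ.length = σ := by
        refine List.ext_getElem (by simp) fun i h7 h8 => ?_
        rw [getElem_pre]
        have h9 := h5 i h8
        have h10 : ¬ (σ.getD i false = false ∧ jump A i = true) := fun h => h6 ⟨i, ⟨h8, h.1⟩, h.2⟩
        have h11 : σ.getD i false = σ[i] := by simp [h8]
        rw [h11] at h9 h10
        cases h12 : σ[i] <;> cases h13 : jump A i <;> simp_all
      rwa [this]
  obtain ⟨q, hq, hqs⟩ := si_stage h1
  refine ⟨fun z => (¬ q (pre A (Nat.unpair z.2).2, (z.1,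
      ((decode (α := List Bool) (Nat.unpair z.2).1).getD []))) (Nat.unpair z.2).2) ∨
      ∃ i : ℕ, (i < ((decode (α := List Bool) (Nat.unpair z.2).1).getD []).length ∧
        ((decode (α := List Bool) (Nat.unpair z.2).1).getD []).getD i false = false) ∧
      jump A i = true, ?_, fun x => ?_⟩
  · have hd : Primrec fun z : α × ℕ => ((decode (α := List Bool) (Nat.unpair z.2).1).getD []) :=
      Primrec.option_getD.comp (Primrec.decode.comp (Primrec.fst.comp
        (Primrec.unpair.comp Primrec.snd))) (Primrec.const [])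
    refine SI.or ?_ ?_
    · have h4 : Primrec fun z : (α × ℕ) × List Bool => decide (¬ q (z.2, (z.1.1,
          ((decode (α := List Bool) (Nat.unpair z.1.2).1).getD []))) (Nat.unpair z.1.2).2) := by
        refine PrimrecPred.decide (PrimrecPred.not ?_)
        exact hq.comp (Primrec.snd.pair ((Primrec.fst.comp Primrec.fst).pair
          (hd.comp Primrec.fst))) (Primrec.snd.comp (Primrec.unpair.comp
            (Primrec.snd.comp Primrec.fst)))
      have h5 := si_dec (A := A) h4 (f := fun z : α × ℕ => (Nat.unpair z.2).2)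
        (Primrec.snd.comp (Primrec.unpair.comp Primrec.snd))
      refine (h5.comp (f := fun z : α × ℕ => (z, true))
        (Primrec.id.pair (Primrec.const true))).of_eq fun z => ?_
      simp
    · exact h2.comp hd
  · rw [h3]
    simp only [not_or, not_not]
    constructor
    · rintro ⟨σ, h4, h5⟩
      obtain ⟨s, hs⟩ := (hqs (x, σ)).1 h4
      refine ⟨Nat.pair (encode σ) s, ?_⟩
      simp only [Nat.unpair_pair, encodek, Option.getD_some]
      exact ⟨hs, h5⟩
    · rintro ⟨y, h4, h5⟩
      exact ⟨_, (hqs (x, _)).2 ⟨_, h4⟩, h5⟩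

/-- A Sigma-four normal form by finiteness of uniformly enumerable sets. -/
theorem exists_W {D : ℕ → Bool} {S : ℕ → Prop} (hS : SI (jump (jump (jump D))) S) :
    ∃ W : ((ℕ × ℕ) × ℕ) × ℕ → Prop, SI D W ∧
      (∀ n m a a' i, a ≤ a' → W (((n, m), a), i) → W (((n, m), a'), i)) ∧
      ∀ n, S n ↔ ∃ m, ∀ a, {i | W (((n, m), a), i)}.Finite := by
  obtain ⟨q1, s1, e1⟩ := si_norm hS
  obtain ⟨q2, s2, e2⟩ := si_norm s1
  obtain ⟨q3, s3, e3⟩ := si_norm s2
  refine ⟨fun x => ∃ a' : ℕ, a' ≤ x.1.2 ∧ ∀ w < x.2 + 1, q3 (((x.1.1), a'), w), ?_, ?_, ?_⟩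
  · refine SI.ex (p := fun (x : ((ℕ × ℕ) × ℕ) × ℕ) (a' : ℕ) => a' ≤ x.1.2 ∧
      ∀ w < x.2 + 1, q3 (((x.1.1), a'), w)) (SI.and (SI.of_prim ?_) ?_)
    · exact Primrec.nat_le.comp Primrec.snd (Primrec.snd.comp (Primrec.fst.comp Primrec.fst))
    · refine SI.all_lt (α := (((ℕ × ℕ) × ℕ) × ℕ) × ℕ)
        (p := fun x w => q3 (((x.1.1.1), x.2), w)) (f := fun x => x.1.2 + 1) ?_
        (Primrec.succ.comp (Primrec.snd.comp Primrec.fst))
      exact s3.comp (f := fun z : ((((ℕ × ℕ) × ℕ) × ℕ) × ℕ) × ℕ => (((z.1.1.1.1), z.1.2), z.2))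
        (((Primrec.fst.comp (Primrec.fst.comp (Primrec.fst.comp Primrec.fst))).pair
          (Primrec.snd.comp Primrec.fst)).pair Primrec.snd)
  · rintro n m a a' i h ⟨b, hb, h2⟩
    exact ⟨b, le_trans hb h, h2⟩
  · intro n
    rw [e1]
    refine exists_congr fun m => ?_
    rw [e2]
    simp only [not_exists, not_not]
    constructor
    · intro h a
      by_contra hinf
      have hinf : {i : ℕ | ∃ a' ≤ a, ∀ w < i + 1, q3 (((n, m), a'), w)}.Infinite := hinf
      -- pigeonhole
      have h2 : ∀ a' : ℕ, ∃ w, ¬ q3 (((n, m), a'), w) := fun a' => (e3 _).1 (h a')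
      choose w hw using h2
      have h3 : {i : ℕ | ∃ a' ≤ a, ∀ w < i + 1, q3 (((n, m), a'), w)} ⊆
          ⋃ a' ∈ Finset.range (a + 1), {i | i < w a'} := by
        rintro i ⟨a', ha', h4⟩
        simp only [Set.mem_iUnion, Finset.mem_range]
        refine ⟨a', by omega, ?_⟩
        by_contra h5
        have h6 : w a' ≤ i := not_lt.1 h5
        exact hw a' (h4 _ (by omega))
      refine hinf (Set.Finite.subset ?_ h3)
      exact Set.Finite.biUnion (Finset.finite_toSet _) fun a' _ => Set.finite_lt_nat _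
    · intro h a
      rw [e3]
      by_contra h2
      have h2 : ∀ y, q3 (((n, m), a), y) := by
        intro y
        by_contra h3
        exact h2 ⟨y, h3⟩
      have h3 := h a
      have h4 : {i : ℕ | ∃ a' ≤ a, ∀ w < i + 1, q3 (((n, m), a'), w)} = Set.univ := by
        ext i
        simp only [Set.mem_ofPred_eq, Set.mem_univ, iff_true]
        exact ⟨a, le_rfl, fun w _ => h2 w⟩
      change {i : ℕ | ∃ a' ≤ a, ∀ w < i + 1, q3 (((n, m), a'), w)}.Finite at h3
      rw [h4] at h3
      exact Set.infinite_univ h3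

/-- The set coded into the space. -/
def Sof (J : ℕ → Bool) (n : ℕ) : Prop := J (n / 2) = decide (n % 2 = 0)

theorem si_Sof (J : ℕ → Bool) : SI J (Sof J) := by
  refine (SI.query (B := J)).comp (f := fun n : ℕ => (n / 2, decide (n % 2 = 0))) ?_
  exact (Primrec.nat_div.comp Primrec.id (Primrec.const 2)).pair
    (Primrec.eq.comp (Primrec.nat_mod.comp Primrec.id (Primrec.const 2)) (Primrec.const 0)).decide

theorem tLe_of_Sof {J B : ℕ → Bool} (h : SI B (Sof J)) : TLe J B := by
  rw [tLe_iff_SI]
  refine (h.comp (f := fun x : ℕ × Bool => 2 * x.1 + (if x.2 = true then 0 else 1)) ?_).of_eq ?_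
  · exact Primrec.nat_add.comp (Primrec.nat_mul.comp (Primrec.const 2) Primrec.fst)
      (Primrec.ite (Primrec.eq.comp Primrec.snd (Primrec.const true)) (Primrec.const 0)
        (Primrec.const 1))
  · rintro ⟨n, b⟩
    cases b
    · simp only [Sof]
      have h1 : (2 * n + (if false = true then 0 else 1)) / 2 = n := by
        simp only [Bool.false_eq_true, if_false]; omega
      have h2 : (2 * n + (if false = true then 0 else 1)) % 2 = 1 := by
        simp only [Bool.false_eq_true, if_false]; omega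
      rw [h1, h2]
      simp
    · simp only [Sof]
      simp

end Pool.Agent.H54PS
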