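import Pool.Agent.H54PS.Dim
import Pool.Agent.H54PS.Normal
import Pool.Agent.H54PS.IntPrim

set_option autoImplicit false

namespace Pool.Agent.H54PS

open Set Filter Topology Metric Encodable
open Pool.Agent.Helper227

/-- The distances of the sequence `x` are uniformly `D`-computable reals: some total function `f`
that is recursive in `D` sends `(i, j, n)` to (numerator and denominator minus one of) a rational
number within `2 ^ (-n)` of `dist (x i) (x j)`. -/
def DistComputable (D : ℕ → Bool) {X : Type} [MetricSpace X] (x : ℕ → X) : Prop :=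
  ∃ f : ℕ × ℕ × ℕ → ℤ × ℕ, RecursiveIn {chi D} (fun a => Part.some (f a)) ∧
    ∀ i j n, |dist (x i) (x j) - ((f (i, j, n)).1 : ℝ) / ((f (i, j, n)).2 + 1)| ≤ (1 / 2) ^ n

/-- `X` is `D`-presented: there are a complete metric `d` on `X` which induces the given topology
and a sequence `x` with dense range such that the distances `d (x i) (x j)` are uniformly
`D`-computable. -/
def Presented (D : ℕ → Bool) (X : Type) [t : TopologicalSpace X] : Prop :=
  ∃ d : MetricSpace X, d.toPseudoMetricSpace.toUniformSpace.toTopologicalSpace = t ∧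
    @CompleteSpace X d.toPseudoMetricSpace.toUniformSpace ∧
    ∃ x : ℕ → X, DenseRange x ∧ @DistComputable D X d x

/-- The distance computed from codes. -/
def dcod (c c' : (ℕ × ℕ) × (ℕ × ℕ)) : ℤ × ℕ :=
  (((if c.1.1 = c'.1.1 then (if c.1.2 = c'.1.2 then
      (c.2.1 * (c'.2.2 + 1) - c'.2.1 * (c.2.2 + 1)) + (c'.2.1 * (c.2.2 + 1) - c.2.1 * (c'.2.2 + 1))
      else c.2.1 * (c'.2.2 + 1) + c'.2.1 * (c.2.2 + 1))
    else 2 * ((c.2.2 + 1) * (c'.2.2 + 1)) : ℕ) : ℤ), (c.2.2 + 1) * (c'.2.2 + 1) - 1)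

theorem primrec_dcod : Primrec fun x : ((ℕ × ℕ) × (ℕ × ℕ)) × ((ℕ × ℕ) × (ℕ × ℕ)) =>
    dcod x.1 x.2 := by
  have c11 : Primrec fun x : ((ℕ × ℕ) × (ℕ × ℕ)) × ((ℕ × ℕ) × (ℕ × ℕ)) => x.1.1.1 :=
    Primrec.fst.comp (Primrec.fst.comp Primrec.fst)
  have c12 : Primrec fun x : ((ℕ × ℕ) × (ℕ × ℕ)) × ((ℕ × ℕ) × (ℕ × ℕ)) => x.1.1.2 :=
    Primrec.snd.comp (Primrec.fst.comp Primrec.fst)
  have c21 : Primrec fun x : ((ℕ × ℕ) × (ℕ × ℕ)) × ((ℕ × ℕ) × (ℕ × ℕ)) => x.1.2.1 :=
    Primrec.fst.comp (Primrec.snd.comp Primrec.fst)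
  have c22 : Primrec fun x : ((ℕ × ℕ) × (ℕ × ℕ)) × ((ℕ × ℕ) × (ℕ × ℕ)) => x.1.2.2 + 1 :=
    Primrec.succ.comp (Primrec.snd.comp (Primrec.snd.comp Primrec.fst))
  have d11 : Primrec fun x : ((ℕ × ℕ) × (ℕ × ℕ)) × ((ℕ × ℕ) × (ℕ × ℕ)) => x.2.1.1 :=
    Primrec.fst.comp (Primrec.fst.comp Primrec.snd)
  have d12 : Primrec fun x : ((ℕ × ℕ) × (ℕ × ℕ)) × ((ℕ × ℕ) × (ℕ × ℕ)) => x.2.1.2 :=
    Primrec.snd.comp (Primrec.fst.comp Primrec.snd)
  have d21 : Primrec fun x : ((ℕ × ℕ) × (ℕ × ℕ)) × ((ℕ × ℕ) × (ℕ × ℕ)) => x.2.2.1 :=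
    Primrec.fst.comp (Primrec.snd.comp Primrec.snd)
  have d22 : Primrec fun x : ((ℕ × ℕ) × (ℕ × ℕ)) × ((ℕ × ℕ) × (ℕ × ℕ)) => x.2.2.2 + 1 :=
    Primrec.succ.comp (Primrec.snd.comp (Primrec.snd.comp Primrec.snd))
  have e1 := Primrec.nat_mul.comp c21 d22
  have e2 := Primrec.nat_mul.comp d21 c22
  have e3 := Primrec.nat_mul.comp c22 d22
  refine Primrec.pair (primrec_natCast.comp (Primrec.ite (Primrec.eq.comp c11 d11)
    (Primrec.ite (Primrec.eq.comp c12 d12) ?_ ?_) ?_)) ?_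
  · exact Primrec.nat_add.comp (Primrec.nat_sub.comp e1 e2) (Primrec.nat_sub.comp e2 e1)
  · exact Primrec.nat_add.comp e1 e2
  · exact Primrec.nat_mul.comp (Primrec.const 2) e3
  · exact Primrec.nat_sub.comp e3 (Primrec.const 1)

variable {M : ℕ → ℕ} {W : ℕ → ℕ → ℕ → Prop}

/-- The point `x` has the code `c`. -/
def Hog.HasCode (x : Hog M W) (c : (ℕ × ℕ) × (ℕ × ℕ)) : Prop :=
  x.p = c.1.1 ∧ x.al = c.1.2 ∧ x.t = (c.2.1 : ℝ) / (c.2.2 + 1)

theorem dist_dcod {x y : Hog M W} {c c' : (ℕ × ℕ) × (ℕ × ℕ)} (hx : x.HasCode c)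
    (hy : y.HasCode c') : dist x y = ((dcod c c').1 : ℝ) / ((dcod c c').2 + 1) := by
  obtain ⟨⟨p, α⟩, ⟨n, d⟩⟩ := c
  obtain ⟨⟨p', α'⟩, ⟨n', d'⟩⟩ := c'
  obtain ⟨x1, x2, x3⟩ := hx
  obtain ⟨y1, y2, y3⟩ := hy
  simp only at x1 x2 x3 y1 y2 y3
  have hd : (0 : ℝ) < d + 1 := by positivity
  have hd' : (0 : ℝ) < d' + 1 := by positivity
  have hden : (((d + 1) * (d' + 1) - 1 : ℕ) : ℝ) + 1 = (d + 1) * (d' + 1) := by
    have : 1 ≤ (d + 1) * (d' + 1) := Nat.one_le_iff_ne_zero.2 (by positivity)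
    push_cast [Nat.cast_sub this]
    ring
  rw [Hog.dist_def, x1, x2, x3, y1, y2, y3]
  simp only [dcod]
  rw [hden, eq_div_iff (by positivity)]
  split_ifs with h1 h2
  · have h3 : ∀ a b : ℕ, (((a - b + (b - a) : ℕ) : ℤ) : ℝ) = |(a : ℝ) - b| := by
      intro a b
      rcases le_total a b with h | h
      · rw [Nat.sub_eq_zero_of_le h, zero_add]
        have h4 : (a : ℝ) ≤ b := by exact_mod_cast h
        rw [abs_of_nonpos (by linarith)]
        push_cast [Nat.cast_sub h]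
        ring
      · rw [Nat.sub_eq_zero_of_le h, add_zero]
        have h4 : (b : ℝ) ≤ a := by exact_mod_cast h
        rw [abs_of_nonneg (by linarith)]
        push_cast [Nat.cast_sub h]
        ring
    rw [h3]
    have h5 : ((n : ℝ) / (d + 1) - (n' : ℝ) / (d' + 1)) * ((d + 1) * (d' + 1)) =
        ((n * (d' + 1) : ℕ) : ℝ) - ((n' * (d + 1) : ℕ) : ℝ) := by
      push_cast
      field_simp
    rw [← h5, abs_mul, abs_of_pos (mul_pos hd hd')]
  · push_cast
    field_simp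
  · push_cast
    ring

/-- The code of a point of the dense sequence, given the answer `b` to the stage query. -/
def cod4 (M : ℕ → ℕ) (b : Bool) (p α u v : ℕ) : (ℕ × ℕ) × (ℕ × ℕ) :=
  if α ≤ M p then (if min u (v + 1) = 0 then ((p, 0), (0, 0)) else ((p, α), (min u (v + 1), v)))
  else if b = true then ((p, α), (1, 2 ^ (Nat.unpair (α - (M p + 1))).1 - 1))
  else ((p, 0), (0, 0))

/-- The code of the `e`-th point of the dense sequence, given the answer `b` to the stage query. -/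
def cod (M : ℕ → ℕ) (b : Bool) (e : ℕ) : (ℕ × ℕ) × (ℕ × ℕ) :=
  cod4 M b (Nat.unpair e).1 (Nat.unpair (Nat.unpair e).2).1
    (Nat.unpair (Nat.unpair (Nat.unpair e).2).2).1 (Nat.unpair (Nat.unpair (Nat.unpair e).2).2).2

theorem exists_pt {b : Bool} {p α u v : ℕ} (hb : M p < α → b = true →
    W p (Nat.unpair (α - (M p + 1))).1 (Nat.unpair (α - (M p + 1))).2) :
    ∃ x : Hog M W, x.HasCode (cod4 M b p α u v) := by
  unfold cod4 Hog.HasCode
  split_ifs with h1 h2 h3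
  · exact ⟨Hog.ctr M W _, rfl, rfl, by simp⟩
  · have hv : (0 : ℝ) < (v : ℝ) + 1 := by positivity
    refine ⟨⟨p, α, ((min u (v + 1) : ℕ) : ℝ) / ((v : ℝ) + 1),
        Or.inl ⟨h1, by positivity, ?_, fun h => ?_⟩⟩, rfl, rfl, rfl⟩
    · rw [div_le_one hv]
      exact_mod_cast min_le_right _ _
    · exfalso
      rw [div_eq_zero_iff] at h
      rcases h with h | h
      · exact h2 (by exact_mod_cast h)
      · exact hv.ne' h
  · have h4 := hb (_root_.not_le.1 h1) h3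
    refine ⟨⟨p, α, (1 / 2) ^ (Nat.unpair (α - (M p + 1))).1,
        Or.inr ⟨_, _, ?_, h4, rfl⟩⟩, rfl, rfl, ?_⟩
    · rw [Nat.pair_unpair]
      omega
    · simp only
      have h5 : 1 ≤ 2 ^ (Nat.unpair (α - (M p + 1))).1 := Nat.one_le_two_pow
      push_cast [Nat.cast_sub h5]
      rw [sub_add_cancel, one_div_pow]
  · exact ⟨Hog.ctr M W _, rfl, rfl, by simp⟩

theorem primrec_pow2 : Primrec fun n : ℕ => 2 ^ n := by
  have h : Primrec fun n : ℕ => (Nat.rec (motive := fun _ => ℕ) 1 (fun _ b => 2 * b) n : ℕ) :=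
    Primrec.nat_rec' (α := ℕ) (f := fun n => n) (g := fun _ => 1) (h := fun _ x => 2 * x.2)
      Primrec.id (Primrec.const 1)
      (Primrec.nat_mul.comp (Primrec.const 2) (Primrec.snd.comp Primrec.snd))
  refine h.of_eq fun n => ?_
  induction n with
  | zero => rfl
  | succ n ih =>
    simp only
    rw [ih]
    ring

theorem primrec_cod (hM : Primrec M) : Primrec fun x : Bool × ℕ => cod M x.1 x.2 := by
  have e1 : Primrec fun x : Bool × ℕ => (Nat.unpair x.2).1 :=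
    Primrec.fst.comp (Primrec.unpair.comp Primrec.snd)
  have e2' : Primrec fun x : Bool × ℕ => (Nat.unpair (Nat.unpair x.2).2) :=
    Primrec.unpair.comp (Primrec.snd.comp (Primrec.unpair.comp Primrec.snd))
  have e2 := Primrec.fst.comp e2'
  have e3' : Primrec fun x : Bool × ℕ => (Nat.unpair (Nat.unpair (Nat.unpair x.2).2).2) :=
    Primrec.unpair.comp (Primrec.snd.comp e2')
  have e3 := Primrec.fst.comp e3'
  have e4 := Primrec.snd.comp e3'
  have e5 := hM.comp e1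
  have e6 := Primrec.nat_min.comp e3 (Primrec.succ.comp e4)
  unfold cod cod4
  refine Primrec.ite (Primrec.nat_le.comp e2 e5) (Primrec.ite (Primrec.eq.comp e6
    (Primrec.const 0)) ((e1.pair (Primrec.const 0)).pair (Primrec.const (0, 0)))
    ((e1.pair e2).pair (e6.pair e4))) (Primrec.ite (Primrec.eq.comp Primrec.fst
      (Primrec.const true)) ((e1.pair e2).pair ((Primrec.const 1).pair ?_))
      ((e1.pair (Primrec.const 0)).pair (Primrec.const (0, 0))))
  exact Primrec.nat_sub.comp (primrec_pow2.comp (Primrec.fst.comp (Primrec.unpair.comp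
    (Primrec.nat_sub.comp e2 (Primrec.succ.comp e5))))) (Primrec.const 1)

attribute [local irreducible] cod dcod

theorem primrec_F (hM : Primrec M) : Primrec fun x : (Bool × ℕ) × (Bool × ℕ) =>
    dcod (cod M x.1.1 x.1.2) (cod M x.2.1 x.2.2) := by
  have h1 : Primrec fun x : (Bool × ℕ) × (Bool × ℕ) => cod M x.1.1 x.1.2 :=
    Primrec.comp (f := fun x : Bool × ℕ => cod M x.1 x.2)
      (g := fun x : (Bool × ℕ) × (Bool × ℕ) => x.1) (primrec_cod hM) Primrec.fst
  have h2 : Primrec fun x : (Bool × ℕ) × (Bool × ℕ) => cod M x.2.1 x.2.2 :=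
    Primrec.comp (f := fun x : Bool × ℕ => cod M x.1 x.2)
      (g := fun x : (Bool × ℕ) × (Bool × ℕ) => x.2) (primrec_cod hM) Primrec.snd
  exact Primrec.comp (f := fun x : ((ℕ × ℕ) × (ℕ × ℕ)) × ((ℕ × ℕ) × (ℕ × ℕ)) => dcod x.1 x.2)
    (g := fun x : (Bool × ℕ) × (Bool × ℕ) => (cod M x.1.1 x.1.2, cod M x.2.1 x.2.2))
    primrec_dcod (h1.pair h2)

theorem presented_aux {D : ℕ → Bool} {F : (Bool × ℕ) × (Bool × ℕ) → ℤ × ℕ} (hF : Primrec F)
    {b : ℕ → Bool} (hb : SI D fun x : ℕ × Bool => b x.1 = x.2) :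
    RecursiveIn {chi D} (fun z : ℕ × ℕ × ℕ => Part.some (F ((b z.1, z.1), (b z.2.1, z.2.1)))) := by
  refine SI.iff_recIn.2 ?_
  have h1 : SI D fun z : (ℕ × ℕ × ℕ) × (ℤ × ℕ) => ∃ b1 : Bool, b z.1.1 = b1 ∧
      ∃ b2 : Bool, b z.1.2.1 = b2 ∧ z.2 = F ((b1, z.1.1), (b2, z.1.2.1)) := by
    refine SI.ex (p := fun (z : (ℕ × ℕ × ℕ) × (ℤ × ℕ)) (b1 : Bool) => b z.1.1 = b1 ∧
      ∃ b2 : Bool, b z.1.2.1 = b2 ∧ z.2 = F ((b1, z.1.1), (b2, z.1.2.1)))
      (SI.and ?_ (SI.ex (p := fun (z : ((ℕ × ℕ × ℕ) × (ℤ × ℕ)) × Bool) (b2 : Bool) =>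
      b z.1.1.2.1 = b2 ∧ z.1.2 = F ((z.2, z.1.1.1), (b2, z.1.1.2.1)))
      (SI.and ?_ (SI.of_prim ?_))))
    · exact hb.comp (f := fun z : ((ℕ × ℕ × ℕ) × (ℤ × ℕ)) × Bool => (z.1.1.1, z.2))
        ((Primrec.fst.comp (Primrec.fst.comp Primrec.fst)).pair Primrec.snd)
    · exact hb.comp (f := fun z : (((ℕ × ℕ × ℕ) × (ℤ × ℕ)) × Bool) × Bool =>
        (z.1.1.1.2.1, z.2)) ((Primrec.fst.comp (Primrec.snd.comp (Primrec.fst.comp
          (Primrec.fst.comp Primrec.fst)))).pair Primrec.snd)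
    · refine Primrec.eq.comp (Primrec.snd.comp (Primrec.fst.comp Primrec.fst)) ?_
      refine hF.comp (Primrec.pair (Primrec.pair ?_ ?_) (Primrec.pair ?_ ?_))
      · exact Primrec.snd.comp Primrec.fst
      · exact Primrec.fst.comp (Primrec.fst.comp (Primrec.fst.comp Primrec.fst))
      · exact Primrec.snd
      · exact Primrec.fst.comp (Primrec.snd.comp (Primrec.fst.comp (Primrec.fst.comp Primrec.fst)))
  refine h1.of_eq fun z => ?_
  simp only [exists_eq_left']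
  exact Part.mem_some_iff.symm

/-- The stage queries. -/
theorem exists_query {D : ℕ → Bool} (hM : Primrec M)
    (hW : SI D fun x : (ℕ × ℕ) × ℕ => W x.1.1 x.1.2 x.2) :
    ∃ b : ℕ → Bool, (SI D fun x : ℕ × Bool => b x.1 = x.2) ∧
      (∀ e, b e = true → W (Nat.unpair e).1
        (Nat.unpair ((Nat.unpair (Nat.unpair e).2).1 - (M (Nat.unpair e).1 + 1))).1
        (Nat.unpair ((Nat.unpair (Nat.unpair e).2).1 - (M (Nat.unpair e).1 + 1))).2) ∧
      ∀ p a i, W p a i → ∃ s,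
        b (Nat.pair p (Nat.pair (M p + 1 + Nat.pair a i) (Nat.pair 0 s))) = true := by
  classical
  obtain ⟨q, hq, hqW⟩ := si_stage hW
  let arg : ℕ → (ℕ × ℕ) × ℕ := fun e => (((Nat.unpair e).1,
    (Nat.unpair ((Nat.unpair (Nat.unpair e).2).1 - (M (Nat.unpair e).1 + 1))).1),
    (Nat.unpair ((Nat.unpair (Nat.unpair e).2).1 - (M (Nat.unpair e).1 + 1))).2)
  let stg : ℕ → ℕ := fun e => (Nat.unpair (Nat.unpair (Nat.unpair e).2).2).2
  have hstg : Primrec stg := Primrec.snd.comp (Primrec.unpair.comp (Primrec.snd.comp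
    (Primrec.unpair.comp (Primrec.snd.comp Primrec.unpair))))
  have harg : Primrec arg := by
    have e1 : Primrec fun e : ℕ => (Nat.unpair e).1 := Primrec.fst.comp Primrec.unpair
    have e2 : Primrec fun e : ℕ => (Nat.unpair (Nat.unpair e).2).1 :=
      Primrec.fst.comp (Primrec.unpair.comp (Primrec.snd.comp Primrec.unpair))
    have e3 := Primrec.unpair.comp (Primrec.nat_sub.comp e2 (Primrec.succ.comp (hM.comp e1)))
    exact (e1.pair (Primrec.fst.comp e3)).pair (Primrec.snd.comp e3)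
  let q' : ℕ × List Bool → Bool := fun x => decide (q (x.2, arg x.1) (stg x.1))
  have hq' : Primrec q' := PrimrecPred.decide (hq.comp
    (Primrec.snd.pair (harg.comp Primrec.fst)) (hstg.comp Primrec.fst))
  refine ⟨fun e => q' (e, pre D (stg e)), si_dec hq' hstg, ?_, ?_⟩
  · intro e h3
    have h5 : decide (q (pre D (stg e), arg e) (stg e)) = true := h3
    exact (hqW (arg e)).2 ⟨stg e, of_decide_eq_true h5⟩
  · intro p a i h
    obtain ⟨s, hs⟩ := (hqW ((p, a), i)).1 h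
    refine ⟨s, ?_⟩
    have h4 : M p + 1 + Nat.pair a i - (M p + 1) = Nat.pair a i := by omega
    simp only [q', arg, stg, Nat.unpair_pair, h4, decide_eq_true_eq]
    exact hs

theorem cod_full {b : Bool} {p α u v : ℕ} (h1 : α ≤ M p) (h2 : u ≤ v + 1) (h3 : u ≠ 0) :
    cod M b (Nat.pair p (Nat.pair α (Nat.pair u v))) = ((p, α), (u, v)) := by
  unfold cod cod4
  simp only [Nat.unpair_pair, if_pos h1, min_eq_left h2, if_neg h3]

theorem cod_ctr {b : Bool} {p α v : ℕ} (h1 : α ≤ M p) :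
    cod M b (Nat.pair p (Nat.pair α (Nat.pair 0 v))) = ((p, 0), (0, 0)) := by
  unfold cod cod4
  simp only [Nat.unpair_pair, if_pos h1, Nat.zero_min, if_true]

theorem cod_extra {p a i s : ℕ} :
    (cod M true (Nat.pair p (Nat.pair (M p + 1 + Nat.pair a i) (Nat.pair 0 s)))).1 =
      (p, M p + 1 + Nat.pair a i) := by
  unfold cod cod4
  have h1 : ¬ (M p + 1 + Nat.pair a i ≤ M p) := by omega
  simp only [Nat.unpair_pair, if_neg h1, if_true]

/-- The space has a `D`-computable presentation. -/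
theorem Hog.presented {D : ℕ → Bool} (hM : Primrec M)
    (hW : SI D fun x : (ℕ × ℕ) × ℕ => W x.1.1 x.1.2 x.2) : Presented D (Hog M W) := by
  classical
  refine ⟨inferInstance, rfl, inferInstance, ?_⟩
  obtain ⟨b, hb, hb1, hb2⟩ := exists_query hM hW
  -- the points
  have hpt : ∀ e, ∃ x : Hog M W, x.HasCode (cod M (b e) e) := by
    intro e
    unfold cod
    exact exists_pt fun _ h3 => hb1 e h3
  choose x hx using hpt
  refine ⟨x, ?_, ?_⟩
  · -- density
    rw [Metric.denseRange_iff]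
    intro y ε hε
    rcases y.ok with h | ⟨a, i, h1, h2, h3⟩
    · -- a point of a full arm
      obtain ⟨v, hv⟩ := exists_nat_gt (1 / ε)
      have hv0 : (0 : ℝ) < v + 1 := by positivity
      have hv1 : 1 / ((v : ℝ) + 1) < ε := by
        rw [div_lt_iff₀ hv0]
        rw [div_lt_iff₀ hε] at hv
        nlinarith
      obtain ⟨u, hu⟩ : ∃ u : ℕ, u = ⌊y.t * (v + 1)⌋₊ := ⟨_, rfl⟩
      have hu1 : (u : ℝ) ≤ y.t * (v + 1) := by
        rw [hu]; exact Nat.floor_le (mul_nonneg y.nonneg hv0.le)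
      have hu2 : y.t * (v + 1) < u + 1 := by rw [hu]; exact Nat.lt_floor_add_one _
      have hu3 : u ≤ v + 1 := by
        have h4 : (u : ℝ) ≤ v + 1 := hu1.trans (mul_le_of_le_one_left hv0.le y.le_one)
        exact_mod_cast h4
      clear hu
      by_cases h0 : u = 0
      · subst h0
        refine ⟨Nat.pair y.p (Nat.pair y.al (Nat.pair 0 v)), ?_⟩
        have hc := hx (Nat.pair y.p (Nat.pair y.al (Nat.pair 0 v)))
        rw [cod_ctr h.1] at hc
        obtain ⟨c1, c2, c3⟩ := hc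
        simp only [CharP.cast_eq_zero, zero_div] at c1 c2 c3
        rw [Hog.eq_ctr c3, c1, Hog.dist_ctr]
        simp only [CharP.cast_eq_zero, zero_add] at hu2
        rw [← lt_div_iff₀ hv0] at hu2
        exact hu2.trans hv1
      · refine ⟨Nat.pair y.p (Nat.pair y.al (Nat.pair u v)), ?_⟩
        have hc := hx (Nat.pair y.p (Nat.pair y.al (Nat.pair u v)))
        rw [cod_full h.1 hu3 h0] at hc
        obtain ⟨c1, c2, c3⟩ := hc
        simp only at c1 c2 c3
        rw [Hog.dist_def, c1, c2, c3, if_pos rfl, if_pos rfl, abs_lt]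
        have h5 : (u : ℝ) / (v + 1) ≤ y.t := by rwa [div_le_iff₀ hv0]
        have h6 : y.t < (u : ℝ) / (v + 1) + 1 / (v + 1) := by
          rw [← add_div, lt_div_iff₀ hv0]; exact hu2
        constructor <;> linarith
    · -- an isolated point
      obtain ⟨s, hs⟩ := hb2 y.p a i h2
      refine ⟨Nat.pair y.p (Nat.pair (M y.p + 1 + Nat.pair a i) (Nat.pair 0 s)), ?_⟩
      obtain ⟨c1, c2, c3⟩ := hx (Nat.pair y.p (Nat.pair (M y.p + 1 + Nat.pair a i) (Nat.pair 0 s)))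
      rw [hs, cod_extra] at c1 c2
      simp only at c1 c2
      have h5 : x (Nat.pair y.p (Nat.pair (M y.p + 1 + Nat.pair a i) (Nat.pair 0 s))) = y :=
        Hog.extra c1 (c2.trans h1.symm) (by rw [c1, c2]; omega)
      rw [h5, dist_self]
      exact hε
  · refine ⟨fun z => dcod (cod M (b z.1) z.1) (cod M (b z.2.1) z.2.1), ?_, fun i j n => ?_⟩
    · exact presented_aux (F := fun x : (Bool × ℕ) × (Bool × ℕ) =>
        dcod (cod M x.1.1 x.1.2) (cod M x.2.1 x.2.2)) (primrec_F hM) hb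
    · rw [← dist_dcod (hx i) (hx j), sub_self, abs_zero]
      positivity

end Pool.Agent.H54PS
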