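import Pool.Agent.H54PS.Sem
import Pool.Agent.H54PS.Pres

set_option autoImplicit false

namespace Pool.Agent.H54PS

open Set Filter Topology Metric Encodable
open Pool.Agent.Helper227

section general
variable {α β : Type*} [Primcodable α] [Primcodable β] {B : ℕ → Bool}

theorem si_ex_mem {p : α → β → Prop} {f : α → List β} (hp : SI B fun x : α × β => p x.1 x.2)
    (hf : Primrec f) : SI B fun a => ∃ b ∈ f a, p a b := by
  have h : SI B fun a => ∃ b : β, ∃ t : ℕ, (f a)[t]? = some b ∧ p a b := by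
    refine SI.ex (p := fun (a : α) (b : β) => ∃ t : ℕ, (f a)[t]? = some b ∧ p a b)
      (SI.ex (p := fun (x : α × β) (t : ℕ) => (f x.1)[t]? = some x.2 ∧ p x.1 x.2)
      (SI.and (SI.of_prim ?_) ?_))
    · exact Primrec.eq.comp (Primrec.list_getElem?.comp (hf.comp (Primrec.fst.comp Primrec.fst))
        Primrec.snd) (Primrec.option_some.comp (Primrec.snd.comp Primrec.fst))
    · exact hp.comp (f := fun z : (α × β) × ℕ => z.1) Primrec.fst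
  refine h.of_eq fun a => ?_
  constructor
  · rintro ⟨b, t, h1, h2⟩
    exact ⟨b, List.mem_of_getElem? h1, h2⟩
  · rintro ⟨b, h1, h2⟩
    obtain ⟨t, ht⟩ := List.mem_iff_getElem?.1 h1
    exact ⟨b, t, ht, h2⟩

theorem rtg_iff {r : ℕ → ℕ → Prop} {a b : ℕ} : Relation.ReflTransGen r a b ↔
    ∃ L : List ℕ, L.getD 0 b = a ∧ ∀ i < L.length, r (L.getD i b) (L.getD (i + 1) b) := by
  constructor
  · intro h
    induction h using Relation.ReflTransGen.head_induction_on with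
    | refl => exact ⟨[], rfl, by simp⟩
    | head h1 _ ih =>
      obtain ⟨L, h2, h3⟩ := ih
      refine ⟨_ :: L, rfl, fun i hi => ?_⟩
      cases i with
      | zero =>
        simp only [List.getD_cons_zero, List.getD_cons_succ]
        rw [h2]
        exact h1
      | succ i =>
        simp only [List.getD_cons_succ]
        exact h3 i (by simpa using hi)
  · rintro ⟨L, h1, h2⟩
    induction L generalizing a with
    | nil =>
      simp only [List.getD_nil] at h1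
      rw [h1]
    | cons x L ih =>
      simp only [List.getD_cons_zero] at h1
      subst h1
      have h3 := h2 0 (by simp)
      simp only [List.getD_cons_zero, List.getD_cons_succ] at h3
      refine Relation.ReflTransGen.head h3 (ih rfl fun i hi => ?_)
      have h4 := h2 (i + 1) (by simpa using hi)
      simpa only [List.getD_cons_succ] using h4

theorem si_rtg {r : α → ℕ → ℕ → Prop} (h : SI B fun x : α × (ℕ × ℕ) => r x.1 x.2.1 x.2.2) :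
    SI B fun x : α × (ℕ × ℕ) => Relation.ReflTransGen (r x.1) x.2.1 x.2.2 := by
  have hg : Primrec fun z : (List ℕ × ℕ) × ℕ => z.1.1.getD z.2 z.1.2 := by
    refine (Primrec.option_getD.comp (Primrec.list_getElem?.comp (Primrec.fst.comp Primrec.fst)
      Primrec.snd) (Primrec.snd.comp Primrec.fst)).of_eq fun z => ?_
    exact (List.getD_eq_getElem?_getD ..).symm
  have h1 : SI B fun x : α × (ℕ × ℕ) => ∃ L : List ℕ, L.getD 0 x.2.2 = x.2.1 ∧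
      ∀ i < L.length, r x.1 (L.getD i x.2.2) (L.getD (i + 1) x.2.2) := by
    refine SI.ex (p := fun (x : α × (ℕ × ℕ)) (L : List ℕ) => L.getD 0 x.2.2 = x.2.1 ∧
      ∀ i < L.length, r x.1 (L.getD i x.2.2) (L.getD (i + 1) x.2.2)) (SI.and (SI.of_prim ?_) ?_)
    · refine Primrec.eq.comp (Primrec.comp (f := fun z : (List ℕ × ℕ) × ℕ => z.1.1.getD z.2 z.1.2)
        (g := fun z : (α × (ℕ × ℕ)) × List ℕ => ((z.2, z.1.2.2), 0)) hg ?_) ?_
      · exact (Primrec.snd.pair (Primrec.snd.comp (Primrec.snd.comp Primrec.fst))).pair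
          (Primrec.const 0)
      · exact Primrec.fst.comp (Primrec.snd.comp Primrec.fst)
    · refine SI.all_lt (α := (α × (ℕ × ℕ)) × List ℕ)
        (p := fun x i => r x.1.1 (x.2.getD i x.1.2.2) (x.2.getD (i + 1) x.1.2.2))
        (f := fun x => x.2.length) ?_ (Primrec.list_length.comp Primrec.snd)
      refine h.comp (f := fun z : ((α × (ℕ × ℕ)) × List ℕ) × ℕ =>
        (z.1.1.1, (z.1.2.getD z.2 z.1.1.2.2, z.1.2.getD (z.2 + 1) z.1.1.2.2))) ?_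
      refine (Primrec.fst.comp (Primrec.fst.comp Primrec.fst)).pair (Primrec.pair ?_ ?_)
      · exact Primrec.comp (f := fun z : (List ℕ × ℕ) × ℕ => z.1.1.getD z.2 z.1.2)
          (g := fun z : ((α × (ℕ × ℕ)) × List ℕ) × ℕ => ((z.1.2, z.1.1.2.2), z.2)) hg
          (((Primrec.snd.comp Primrec.fst).pair (Primrec.snd.comp (Primrec.snd.comp
            (Primrec.fst.comp Primrec.fst)))).pair Primrec.snd)
      · exact Primrec.comp (f := fun z : (List ℕ × ℕ) × ℕ => z.1.1.getD z.2 z.1.2)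
          (g := fun z : ((α × (ℕ × ℕ)) × List ℕ) × ℕ => ((z.1.2, z.1.1.2.2), z.2 + 1)) hg
          (((Primrec.snd.comp Primrec.fst).pair (Primrec.snd.comp (Primrec.snd.comp
            (Primrec.fst.comp Primrec.fst)))).pair (Primrec.succ.comp Primrec.snd))
  exact h1.of_eq fun x => rtg_iff.symm

end general

theorem lt_iff_nat (z : ℤ) (d n k : ℕ) :
    z.toNat * (2 ^ n * 2 ^ k) + (d + 1) * 2 ^ k < (d + 1) * 2 ^ n + (-z).toNat * (2 ^ n * 2 ^ k) ↔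
    (z : ℝ) / (d + 1) + (1 / 2) ^ n < (1 / 2) ^ k := by
  have hz : (z : ℝ) = (z.toNat : ℝ) - ((-z).toNat : ℝ) := by
    have := Int.toNat_sub_toNat_neg z
    exact_mod_cast this.symm
  have hP : (0 : ℝ) < 2 ^ n := by positivity
  have hQ : (0 : ℝ) < 2 ^ k := by positivity
  have hD : (0 : ℝ) < (d : ℝ) + 1 := by positivity
  have h1 : ((z : ℝ) / (d + 1) + (1 / 2) ^ n) * (((d : ℝ) + 1) * (2 ^ n * 2 ^ k)) =
      z * (2 ^ n * 2 ^ k) + (d + 1) * 2 ^ k := by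
    rw [one_div_pow]
    field_simp
  have h2 : ((1 / 2 : ℝ) ^ k) * (((d : ℝ) + 1) * (2 ^ n * 2 ^ k)) = (d + 1) * 2 ^ n := by
    rw [one_div_pow]
    field_simp
  rw [← mul_lt_mul_iff_left₀ (show 0 < (((d : ℝ) + 1) * (2 ^ n * 2 ^ k)) by positivity), h1, h2, hz]
  rw [← Nat.cast_lt (α := ℝ)]
  push_cast
  constructor <;> intro h <;> linarith

theorem gt_iff_nat (z : ℤ) (d n k : ℕ) :
    (d + 1) * 2 ^ n + (d + 1) * 2 ^ k + (-z).toNat * (2 ^ n * 2 ^ k) < z.toNat * (2 ^ n * 2 ^ k) ↔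
    (1 / 2) ^ k + (1 / 2) ^ n < (z : ℝ) / (d + 1) := by
  have hz : (z : ℝ) = (z.toNat : ℝ) - ((-z).toNat : ℝ) := by
    have := Int.toNat_sub_toNat_neg z
    exact_mod_cast this.symm
  have hP : (0 : ℝ) < 2 ^ n := by positivity
  have hQ : (0 : ℝ) < 2 ^ k := by positivity
  have hD : (0 : ℝ) < (d : ℝ) + 1 := by positivity
  have h1 : ((z : ℝ) / (d + 1)) * (((d : ℝ) + 1) * (2 ^ n * 2 ^ k)) =
      z * (2 ^ n * 2 ^ k) := by
    field_simp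
  have h2 : ((1 / 2 : ℝ) ^ k + (1 / 2) ^ n) * (((d : ℝ) + 1) * (2 ^ n * 2 ^ k)) =
      (d + 1) * 2 ^ n + (d + 1) * 2 ^ k := by
    rw [one_div_pow, one_div_pow]
    field_simp
  rw [← mul_lt_mul_iff_left₀ (show 0 < (((d : ℝ) + 1) * (2 ^ n * 2 ^ k)) by positivity), h1, h2, hz]
  rw [← Nat.cast_lt (α := ℝ)]
  push_cast
  constructor <;> intro h <;> linarith

section
variable {O : ℕ → Bool} {Y : Type} [MetricSpace Y] {y : ℕ → Y}

theorem si_approx {f : ℕ × ℕ × ℕ → ℤ × ℕ}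
    (hf : RecursiveIn {chi O} (fun a => Part.some (f a)))
    {R : (ℤ × ℕ) × (ℕ × ℕ) → Prop} (hR : PrimrecPred R) :
    SI O fun x : (ℕ × ℕ) × ℕ => ∃ n : ℕ, R (f (x.1.1, x.1.2, n), (n, x.2)) := by
  have h0 : SI O fun x : (ℕ × ℕ × ℕ) × (ℤ × ℕ) => x.2 = f x.1 :=
    (SI.iff_recIn.1 hf).of_eq fun x => Part.mem_some_iff
  have h1 : SI O fun x : (ℕ × ℕ) × ℕ => ∃ n : ℕ, ∃ c : ℤ × ℕ, c = f (x.1.1, x.1.2, n) ∧
      R (c, (n, x.2)) := by
    refine SI.ex (p := fun (x : (ℕ × ℕ) × ℕ) (n : ℕ) => ∃ c : ℤ × ℕ, c = f (x.1.1, x.1.2, n) ∧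
      R (c, (n, x.2))) (SI.ex (p := fun (x : ((ℕ × ℕ) × ℕ) × ℕ) (c : ℤ × ℕ) =>
      c = f (x.1.1.1, x.1.1.2, x.2) ∧ R (c, (x.2, x.1.2))) (SI.and ?_ (SI.of_prim ?_)))
    · exact h0.comp (f := fun z : (((ℕ × ℕ) × ℕ) × ℕ) × (ℤ × ℕ) =>
        ((z.1.1.1.1, z.1.1.1.2, z.1.2), z.2))
        (Primrec.pair (Primrec.pair (Primrec.fst.comp (Primrec.fst.comp (Primrec.fst.comp
          Primrec.fst))) (Primrec.pair (Primrec.snd.comp (Primrec.fst.comp (Primrec.fst.comp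
          Primrec.fst))) (Primrec.snd.comp Primrec.fst))) Primrec.snd)
    · exact hR.comp (f := fun z : (((ℕ × ℕ) × ℕ) × ℕ) × (ℤ × ℕ) => (z.2, (z.1.2, z.1.1.2)))
        (Primrec.snd.pair ((Primrec.snd.comp Primrec.fst).pair (Primrec.snd.comp
          (Primrec.fst.comp Primrec.fst))))
  exact h1.of_eq fun x => by simp only [exists_eq_left]

theorem si_lt (h : DistComputable O y) :
    SI O fun x : (ℕ × ℕ) × ℕ => dist (y x.1.1) (y x.1.2) < (1 / 2) ^ x.2 := by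
  obtain ⟨f, hf, hd⟩ := h
  have hR : PrimrecPred fun c : (ℤ × ℕ) × (ℕ × ℕ) =>
      c.1.1.toNat * (2 ^ c.2.1 * 2 ^ c.2.2) + (c.1.2 + 1) * 2 ^ c.2.2 <
        (c.1.2 + 1) * 2 ^ c.2.1 + (-c.1.1).toNat * (2 ^ c.2.1 * 2 ^ c.2.2) := by
    have a1 : Primrec fun c : (ℤ × ℕ) × (ℕ × ℕ) => c.1.1.toNat :=
      primrec_toNat.comp (Primrec.fst.comp Primrec.fst)
    have a2 : Primrec fun c : (ℤ × ℕ) × (ℕ × ℕ) => (-c.1.1).toNat :=
      primrec_negToNat.comp (Primrec.fst.comp Primrec.fst)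
    have a3 : Primrec fun c : (ℤ × ℕ) × (ℕ × ℕ) => 2 ^ c.2.1 :=
      primrec_pow2.comp (Primrec.fst.comp Primrec.snd)
    have a4 : Primrec fun c : (ℤ × ℕ) × (ℕ × ℕ) => 2 ^ c.2.2 :=
      primrec_pow2.comp (Primrec.snd.comp Primrec.snd)
    have a5 : Primrec fun c : (ℤ × ℕ) × (ℕ × ℕ) => c.1.2 + 1 :=
      Primrec.succ.comp (Primrec.snd.comp Primrec.fst)
    have a6 := Primrec.nat_mul.comp a3 a4
    exact Primrec.nat_lt.comp (Primrec.nat_add.comp (Primrec.nat_mul.comp a1 a6)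
      (Primrec.nat_mul.comp a5 a4)) (Primrec.nat_add.comp (Primrec.nat_mul.comp a5 a3)
      (Primrec.nat_mul.comp a2 a6))
  refine (si_approx hf hR).of_eq fun x => ?_
  simp only [lt_iff_nat]
  constructor
  · rintro ⟨n, hn⟩
    have h1 := hd x.1.1 x.1.2 n
    rw [abs_le] at h1
    linarith [h1.2]
  · intro h
    obtain ⟨n, hn⟩ := exists_pow_lt_of_lt_one (show 0 < ((1 / 2 : ℝ) ^ x.2 -
      dist (y x.1.1) (y x.1.2)) / 2 by linarith) (show (1 / 2 : ℝ) < 1 by norm_num)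
    refine ⟨n, ?_⟩
    have h1 := hd x.1.1 x.1.2 n
    rw [abs_le] at h1
    linarith [h1.1]

theorem si_gt (h : DistComputable O y) :
    SI O fun x : (ℕ × ℕ) × ℕ => (1 / 2 : ℝ) ^ x.2 < dist (y x.1.1) (y x.1.2) := by
  obtain ⟨f, hf, hd⟩ := h
  have hR : PrimrecPred fun c : (ℤ × ℕ) × (ℕ × ℕ) =>
      (c.1.2 + 1) * 2 ^ c.2.1 + (c.1.2 + 1) * 2 ^ c.2.2 +
        (-c.1.1).toNat * (2 ^ c.2.1 * 2 ^ c.2.2) < c.1.1.toNat * (2 ^ c.2.1 * 2 ^ c.2.2) := by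
    have a1 : Primrec fun c : (ℤ × ℕ) × (ℕ × ℕ) => c.1.1.toNat :=
      primrec_toNat.comp (Primrec.fst.comp Primrec.fst)
    have a2 : Primrec fun c : (ℤ × ℕ) × (ℕ × ℕ) => (-c.1.1).toNat :=
      primrec_negToNat.comp (Primrec.fst.comp Primrec.fst)
    have a3 : Primrec fun c : (ℤ × ℕ) × (ℕ × ℕ) => 2 ^ c.2.1 :=
      primrec_pow2.comp (Primrec.fst.comp Primrec.snd)
    have a4 : Primrec fun c : (ℤ × ℕ) × (ℕ × ℕ) => 2 ^ c.2.2 :=
      primrec_pow2.comp (Primrec.snd.comp Primrec.snd)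
    have a5 : Primrec fun c : (ℤ × ℕ) × (ℕ × ℕ) => c.1.2 + 1 :=
      Primrec.succ.comp (Primrec.snd.comp Primrec.fst)
    have a6 := Primrec.nat_mul.comp a3 a4
    exact Primrec.nat_lt.comp (Primrec.nat_add.comp (Primrec.nat_add.comp
      (Primrec.nat_mul.comp a5 a3) (Primrec.nat_mul.comp a5 a4)) (Primrec.nat_mul.comp a2 a6))
      (Primrec.nat_mul.comp a1 a6)
  refine (si_approx hf hR).of_eq fun x => ?_
  simp only [gt_iff_nat]
  constructor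
  · rintro ⟨n, hn⟩
    have h1 := hd x.1.1 x.1.2 n
    rw [abs_le] at h1
    linarith [h1.1]
  · intro h
    obtain ⟨n, hn⟩ := exists_pow_lt_of_lt_one (show 0 < (dist (y x.1.1) (y x.1.2) -
      (1 / 2 : ℝ) ^ x.2) / 2 by linarith) (show (1 / 2 : ℝ) < 1 by norm_num)
    refine ⟨n, ?_⟩
    have h1 := hd x.1.1 x.1.2 n
    rw [abs_le] at h1
    linarith [h1.2]

/-- membership of a dense point in the coded set -/
theorem si_in (h : DistComputable O y) : SI O fun x : (List ℕ × ℕ) × ℕ =>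
    ∃ i ∈ x.1.1, dist (y i) (y x.2) < (1 / 2) ^ x.1.2 := by
  refine si_ex_mem (p := fun (x : (List ℕ × ℕ) × ℕ) (i : ℕ) =>
    dist (y i) (y x.2) < (1 / 2) ^ x.1.2) (f := fun x => x.1.1) ?_
    (Primrec.fst.comp Primrec.fst)
  exact (si_lt h).comp (f := fun z : ((List ℕ × ℕ) × ℕ) × ℕ => ((z.2, z.1.2), z.1.1.2))
    ((Primrec.snd.pair (Primrec.snd.comp Primrec.fst)).pair (Primrec.snd.comp
      (Primrec.fst.comp Primrec.fst)))

theorem si_notGap (h : DistComputable O y) :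
    SI O fun x : List ℕ × ℕ => ¬ Gap y x.1 x.2 := by
  have h1 : SI O fun x : List ℕ × ℕ => ∃ j : ℕ,
      (∀ i ∈ x.1, (1 / 2 : ℝ) ^ (x.2 + 1) < dist (y i) (y j)) ∧
      ∃ i ∈ x.1, dist (y i) (y j) < (1 / 2) ^ x.2 := by
    refine SI.ex (p := fun (x : List ℕ × ℕ) (j : ℕ) =>
      (∀ i ∈ x.1, (1 / 2 : ℝ) ^ (x.2 + 1) < dist (y i) (y j)) ∧
      ∃ i ∈ x.1, dist (y i) (y j) < (1 / 2) ^ x.2) (SI.and ?_ (si_in h))
    refine SI.all_mem (α := (List ℕ × ℕ) × ℕ)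
      (p := fun x i => (1 / 2 : ℝ) ^ (x.1.2 + 1) < dist (y i) (y x.2))
      (f := fun x => x.1.1) ?_ (Primrec.fst.comp Primrec.fst)
    exact (si_gt h).comp (f := fun z : ((List ℕ × ℕ) × ℕ) × ℕ => ((z.2, z.1.2), z.1.1.2 + 1))
      ((Primrec.snd.pair (Primrec.snd.comp Primrec.fst)).pair (Primrec.succ.comp
        (Primrec.snd.comp (Primrec.fst.comp Primrec.fst))))
  refine h1.of_eq fun x => ?_
  unfold Gap
  push Not
  rfl

theorem si_Gap (h : DistComputable O y) :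
    SI (jump O) fun x : List ℕ × ℕ => Gap y x.1 x.2 :=
  (si_not_jump (si_notGap h)).of_eq fun x => by simp only [not_not]

theorem si_Cpt (h : DistComputable O y) :
    SI (jump (jump (jump O))) fun x : List ℕ × ℕ => Cpt y x.1 x.2 := by
  have h1 : SI O fun x : ((List ℕ × ℕ) × ℕ) × List ℕ => ∃ j : ℕ,
      (∃ i ∈ x.1.1.1, dist (y i) (y j) < (1 / 2) ^ x.1.1.2) ∧
      ∀ i ∈ x.2, (1 / 2 : ℝ) ^ x.1.2 < dist (y i) (y j) := by
    refine SI.ex (p := fun (x : ((List ℕ × ℕ) × ℕ) × List ℕ) (j : ℕ) =>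
      (∃ i ∈ x.1.1.1, dist (y i) (y j) < (1 / 2) ^ x.1.1.2) ∧
      ∀ i ∈ x.2, (1 / 2 : ℝ) ^ x.1.2 < dist (y i) (y j)) (SI.and ?_ ?_)
    · exact (si_in h).comp (f := fun z : (((List ℕ × ℕ) × ℕ) × List ℕ) × ℕ => (z.1.1.1, z.2))
        ((Primrec.fst.comp (Primrec.fst.comp Primrec.fst)).pair Primrec.snd)
    · refine SI.all_mem (α := (((List ℕ × ℕ) × ℕ) × List ℕ) × ℕ)
        (p := fun x i => (1 / 2 : ℝ) ^ (x.1.1.2) < dist (y i) (y x.2))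
        (f := fun x => x.1.2) ?_ (Primrec.snd.comp Primrec.fst)
      exact (si_gt h).comp (f := fun z : ((((List ℕ × ℕ) × ℕ) × List ℕ) × ℕ) × ℕ =>
        ((z.2, z.1.2), z.1.1.1.2)) ((Primrec.snd.pair (Primrec.snd.comp Primrec.fst)).pair
        (Primrec.snd.comp (Primrec.fst.comp (Primrec.fst.comp Primrec.fst))))
  have h2 := si_not_jump h1
  have h3 : SI (jump O) fun x : (List ℕ × ℕ) × ℕ => ∃ F' : List ℕ, ¬ ∃ j : ℕ,
      (∃ i ∈ x.1.1, dist (y i) (y j) < (1 / 2) ^ x.1.2) ∧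
      ∀ i ∈ F', (1 / 2 : ℝ) ^ x.2 < dist (y i) (y j) :=
    SI.ex (p := fun (x : (List ℕ × ℕ) × ℕ) (F' : List ℕ) => ¬ ∃ j : ℕ,
      (∃ i ∈ x.1.1, dist (y i) (y j) < (1 / 2) ^ x.1.2) ∧
      ∀ i ∈ F', (1 / 2 : ℝ) ^ x.2 < dist (y i) (y j)) h2
  have h4 := si_not_jump h3
  have h5 : SI (jump (jump O)) fun x : List ℕ × ℕ => ∃ l : ℕ, ¬ ∃ F' : List ℕ, ¬ ∃ j : ℕ,
      (∃ i ∈ x.1, dist (y i) (y j) < (1 / 2) ^ x.2) ∧
      ∀ i ∈ F', (1 / 2 : ℝ) ^ l < dist (y i) (y j) :=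
    SI.ex (p := fun (x : List ℕ × ℕ) (l : ℕ) => ¬ ∃ F' : List ℕ, ¬ ∃ j : ℕ,
      (∃ i ∈ x.1, dist (y i) (y j) < (1 / 2) ^ x.2) ∧
      ∀ i ∈ F', (1 / 2 : ℝ) ^ l < dist (y i) (y j)) h4
  refine (si_not_jump h5).of_eq fun x => ?_
  rw [not_exists]
  unfold Cpt
  refine forall_congr' fun l => ?_
  rw [not_not]
  refine exists_congr fun F' => ?_
  rw [not_exists]
  refine forall_congr' fun j => ?_
  constructor
  · intro h6
    by_cases h7 : ∃ i ∈ x.1, dist (y i) (y j) < (1 / 2) ^ x.2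
    · right
      by_contra h8
      refine h6 ⟨h7, fun i hi => ?_⟩
      by_contra h9
      exact h8 ⟨i, hi, h9⟩
    · left
      intro i hi h8
      exact h7 ⟨i, hi, h8⟩
  · rintro (h6 | ⟨i, hi, h6⟩) ⟨⟨i', hi', h7⟩, h8⟩
    · exact h6 i' hi' h7
    · exact h6 (h8 i hi)

theorem si_Far (h : DistComputable O y) :
    SI O fun x : ((List ℕ × ℕ) × (List ℕ × (ℕ × ℕ))) × ℕ =>
      Far y x.1.1.1 x.1.1.2 x.1.2.1 x.1.2.2.1 x.1.2.2.2 x.2 := by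
  refine SI.and ?_ ?_
  · exact (si_in h).comp (f := fun z : ((List ℕ × ℕ) × (List ℕ × (ℕ × ℕ))) × ℕ => (z.1.1, z.2))
      ((Primrec.fst.comp Primrec.fst).pair Primrec.snd)
  · refine SI.all_lt (α := ((List ℕ × ℕ) × (List ℕ × (ℕ × ℕ))) × ℕ)
      (p := fun x j => j = x.1.2.2.2 ∨
        (1 / 2 : ℝ) ^ x.1.2.2.1 < dist (y x.2) (y (x.1.2.1.getD j 0)))
      (f := fun x => x.1.2.1.length) (SI.or (SI.of_prim ?_) ?_)
      (Primrec.list_length.comp (Primrec.fst.comp (Primrec.snd.comp Primrec.fst)))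
    · exact Primrec.eq.comp Primrec.snd (Primrec.snd.comp (Primrec.snd.comp (Primrec.snd.comp
        (Primrec.fst.comp Primrec.fst))))
    · refine (si_gt h).comp (f := fun z : (((List ℕ × ℕ) × (List ℕ × (ℕ × ℕ))) × ℕ) × ℕ =>
        ((z.1.2, z.1.1.2.1.getD z.2 0), z.1.1.2.2.1)) ?_
      refine Primrec.pair (Primrec.pair (Primrec.snd.comp Primrec.fst) ?_) ?_
      · exact (Primrec.list_getD 0).comp (Primrec.fst.comp (Primrec.snd.comp
          (Primrec.fst.comp Primrec.fst))) Primrec.snd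
      · exact Primrec.fst.comp (Primrec.snd.comp (Primrec.snd.comp
          (Primrec.fst.comp Primrec.fst)))

theorem si_Arms (h : DistComputable O y) :
    SI (jump (jump O)) fun x : (List ℕ × ℕ) × ℕ => Arms y x.1.1 x.1.2 x.2 := by
  -- the step relation; parameters `((F, k), (w, (h, i))), l`
  have h1 : SI O fun x : (((List ℕ × ℕ) × (List ℕ × (ℕ × ℕ))) × ℕ) × (ℕ × ℕ) =>
      (Far y x.1.1.1.1 x.1.1.1.2 x.1.1.2.1 x.1.1.2.2.1 x.1.1.2.2.2 x.2.1 ∧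
       Far y x.1.1.1.1 x.1.1.1.2 x.1.1.2.1 x.1.1.2.2.1 x.1.1.2.2.2 x.2.2) ∧
       dist (y x.2.1) (y x.2.2) < (1 / 2) ^ x.1.2 := by
    refine SI.and (SI.and ?_ ?_) ?_
    · exact (si_Far h).comp (f := fun x : (((List ℕ × ℕ) × (List ℕ × (ℕ × ℕ))) × ℕ) × (ℕ × ℕ) =>
        (x.1.1, x.2.1)) ((Primrec.fst.comp Primrec.fst).pair (Primrec.fst.comp Primrec.snd))
    · exact (si_Far h).comp (f := fun x : (((List ℕ × ℕ) × (List ℕ × (ℕ × ℕ))) × ℕ) × (ℕ × ℕ) =>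
        (x.1.1, x.2.2)) ((Primrec.fst.comp Primrec.fst).pair (Primrec.snd.comp Primrec.snd))
    · exact (si_lt h).comp (f := fun x : (((List ℕ × ℕ) × (List ℕ × (ℕ × ℕ))) × ℕ) × (ℕ × ℕ) =>
        (x.2, x.1.2)) (Primrec.snd.pair (Primrec.snd.comp Primrec.fst))
  have h2 := si_rtg (r := fun (x : ((List ℕ × ℕ) × (List ℕ × (ℕ × ℕ))) × ℕ) (a b : ℕ) =>
      (Far y x.1.1.1 x.1.1.2 x.1.2.1 x.1.2.2.1 x.1.2.2.2 a ∧
       Far y x.1.1.1 x.1.1.2 x.1.2.1 x.1.2.2.1 x.1.2.2.2 b) ∧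
       dist (y a) (y b) < (1 / 2) ^ x.2) h1
  -- parameters `(((F, k), (w, h)), z), i` and `l`
  have h3 : SI O fun x : ((((List ℕ × ℕ) × (List ℕ × ℕ)) × ℕ) × ℕ) × ℕ =>
      Far y x.1.1.1.1.1 x.1.1.1.1.2 x.1.1.1.2.1 x.1.1.1.2.2 x.1.2 x.1.1.2 ∧
      Relation.ReflTransGen (fun a b =>
        (Far y x.1.1.1.1.1 x.1.1.1.1.2 x.1.1.1.2.1 x.1.1.1.2.2 x.1.2 a ∧
          Far y x.1.1.1.1.1 x.1.1.1.1.2 x.1.1.1.2.1 x.1.1.1.2.2 x.1.2 b) ∧
        dist (y a) (y b) < (1 / 2) ^ x.2) x.1.1.2 (x.1.1.1.2.1.getD x.1.2 0) := by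
    have p0 : Primrec fun x : ((((List ℕ × ℕ) × (List ℕ × ℕ)) × ℕ) × ℕ) × ℕ => x.1.1.1.1 :=
      Primrec.fst.comp (Primrec.fst.comp (Primrec.fst.comp Primrec.fst))
    have p1 : Primrec fun x : ((((List ℕ × ℕ) × (List ℕ × ℕ)) × ℕ) × ℕ) × ℕ => x.1.1.1.2.1 :=
      Primrec.fst.comp (Primrec.snd.comp (Primrec.fst.comp (Primrec.fst.comp Primrec.fst)))
    have p2 : Primrec fun x : ((((List ℕ × ℕ) × (List ℕ × ℕ)) × ℕ) × ℕ) × ℕ => x.1.1.1.2.2 :=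
      Primrec.snd.comp (Primrec.snd.comp (Primrec.fst.comp (Primrec.fst.comp Primrec.fst)))
    have p3 : Primrec fun x : ((((List ℕ × ℕ) × (List ℕ × ℕ)) × ℕ) × ℕ) × ℕ => x.1.1.2 :=
      Primrec.snd.comp (Primrec.fst.comp Primrec.fst)
    have p4 : Primrec fun x : ((((List ℕ × ℕ) × (List ℕ × ℕ)) × ℕ) × ℕ) × ℕ => x.1.2 :=
      Primrec.snd.comp Primrec.fst
    have p5 : Primrec fun x : ((((List ℕ × ℕ) × (List ℕ × ℕ)) × ℕ) × ℕ) × ℕ => x.2 :=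
      Primrec.snd
    refine SI.and ?_ ?_
    · exact (si_Far h).comp (f := fun x : ((((List ℕ × ℕ) × (List ℕ × ℕ)) × ℕ) × ℕ) × ℕ =>
        ((x.1.1.1.1, (x.1.1.1.2.1, (x.1.1.1.2.2, x.1.2))), x.1.1.2))
        ((p0.pair (p1.pair (p2.pair p4))).pair p3)
    · exact h2.comp (f := fun x : ((((List ℕ × ℕ) × (List ℕ × ℕ)) × ℕ) × ℕ) × ℕ =>
        (((x.1.1.1.1, (x.1.1.1.2.1, (x.1.1.1.2.2, x.1.2))), x.2),
          (x.1.1.2, x.1.1.1.2.1.getD x.1.2 0)))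
        (((p0.pair (p1.pair (p2.pair p4))).pair p5).pair
          (p3.pair ((Primrec.list_getD 0).comp p1 p4)))
  have h4 : SI (jump (jump O)) fun x : (((List ℕ × ℕ) × (List ℕ × ℕ)) × ℕ) × ℕ => ∀ l : ℕ,
      Far y x.1.1.1.1 x.1.1.1.2 x.1.1.2.1 x.1.1.2.2 x.2 x.1.2 ∧
      Relation.ReflTransGen (fun a b =>
        (Far y x.1.1.1.1 x.1.1.1.2 x.1.1.2.1 x.1.1.2.2 x.2 a ∧
          Far y x.1.1.1.1 x.1.1.1.2 x.1.1.2.1 x.1.1.2.2 x.2 b) ∧
        dist (y a) (y b) < (1 / 2) ^ l) x.1.2 (x.1.1.2.1.getD x.2 0) := by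
    have h5 := si_not_jump h3
    have h6 : SI (jump O) fun x : (((List ℕ × ℕ) × (List ℕ × ℕ)) × ℕ) × ℕ => ∃ l : ℕ, ¬ (
        Far y x.1.1.1.1 x.1.1.1.2 x.1.1.2.1 x.1.1.2.2 x.2 x.1.2 ∧
        Relation.ReflTransGen (fun a b =>
          (Far y x.1.1.1.1 x.1.1.1.2 x.1.1.2.1 x.1.1.2.2 x.2 a ∧
            Far y x.1.1.1.1 x.1.1.1.2 x.1.1.2.1 x.1.1.2.2 x.2 b) ∧
          dist (y a) (y b) < (1 / 2) ^ l) x.1.2 (x.1.1.2.1.getD x.2 0)) :=
      SI.ex (p := fun (x : (((List ℕ × ℕ) × (List ℕ × ℕ)) × ℕ) × ℕ) (l : ℕ) => ¬ (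
        Far y x.1.1.1.1 x.1.1.1.2 x.1.1.2.1 x.1.1.2.2 x.2 x.1.2 ∧
        Relation.ReflTransGen (fun a b =>
          (Far y x.1.1.1.1 x.1.1.1.2 x.1.1.2.1 x.1.1.2.2 x.2 a ∧
            Far y x.1.1.1.1 x.1.1.1.2 x.1.1.2.1 x.1.1.2.2 x.2 b) ∧
          dist (y a) (y b) < (1 / 2) ^ l) x.1.2 (x.1.1.2.1.getD x.2 0))) h5
    exact (si_not_jump h6).of_eq fun x => by simp only [not_exists, not_not]
  have h7 : SI (jump (jump O)) fun x : (List ℕ × ℕ) × ℕ => ∃ z : ℕ, ∃ w : List ℕ, ∃ h : ℕ,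
      w.length = x.2 ∧ ∀ i < w.length, ∀ l : ℕ, Far y x.1.1 x.1.2 w h i z ∧
    Relation.ReflTransGen (fun a b => (Far y x.1.1 x.1.2 w h i a ∧ Far y x.1.1 x.1.2 w h i b) ∧
      dist (y a) (y b) < (1 / 2) ^ l) z (w.getD i 0) := by
    refine SI.ex (p := fun (x : (List ℕ × ℕ) × ℕ) (z : ℕ) => ∃ w : List ℕ, ∃ h : ℕ,
      w.length = x.2 ∧ ∀ i < w.length, ∀ l : ℕ, Far y x.1.1 x.1.2 w h i z ∧
      Relation.ReflTransGen (fun a b => (Far y x.1.1 x.1.2 w h i a ∧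
        Far y x.1.1 x.1.2 w h i b) ∧
      dist (y a) (y b) < (1 / 2) ^ l) z (w.getD i 0)) (SI.ex
      (p := fun (x : ((List ℕ × ℕ) × ℕ) × ℕ) (w : List ℕ) => ∃ h : ℕ,
      w.length = x.1.2 ∧ ∀ i < w.length, ∀ l : ℕ, Far y x.1.1.1 x.1.1.2 w h i x.2 ∧
      Relation.ReflTransGen (fun a b => (Far y x.1.1.1 x.1.1.2 w h i a ∧
        Far y x.1.1.1 x.1.1.2 w h i b) ∧
      dist (y a) (y b) < (1 / 2) ^ l) x.2 (w.getD i 0)) (SI.ex
      (p := fun (x : (((List ℕ × ℕ) × ℕ) × ℕ) × List ℕ) (h : ℕ) =>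
      x.2.length = x.1.1.2 ∧ ∀ i < x.2.length, ∀ l : ℕ, Far y x.1.1.1.1 x.1.1.1.2 x.2 h i x.1.2 ∧
      Relation.ReflTransGen (fun a b => (Far y x.1.1.1.1 x.1.1.1.2 x.2 h i a ∧
        Far y x.1.1.1.1 x.1.1.1.2 x.2 h i b) ∧
      dist (y a) (y b) < (1 / 2) ^ l) x.1.2 (x.2.getD i 0)) (SI.and (SI.of_prim ?_) ?_)))
    · exact Primrec.eq.comp (Primrec.list_length.comp (Primrec.snd.comp Primrec.fst))
        (Primrec.snd.comp (Primrec.fst.comp (Primrec.fst.comp Primrec.fst)))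
    · refine SI.all_lt (α := ((((List ℕ × ℕ) × ℕ) × ℕ) × List ℕ) × ℕ)
        (p := fun x i => ∀ l : ℕ, Far y x.1.1.1.1.1 x.1.1.1.1.2 x.1.2 x.2 i x.1.1.2 ∧
      Relation.ReflTransGen (fun a b => (Far y x.1.1.1.1.1 x.1.1.1.1.2 x.1.2 x.2 i a ∧
        Far y x.1.1.1.1.1 x.1.1.1.1.2 x.1.2 x.2 i b) ∧
      dist (y a) (y b) < (1 / 2) ^ l) x.1.1.2 (x.1.2.getD i 0)) (f := fun x => x.1.2.length) ?_
        (Primrec.list_length.comp (Primrec.snd.comp Primrec.fst))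
      refine h4.comp (f := fun x : (((((List ℕ × ℕ) × ℕ) × ℕ) × List ℕ) × ℕ) × ℕ =>
        (((x.1.1.1.1.1, (x.1.1.2, x.1.2)), x.1.1.1.2), x.2)) ?_
      refine Primrec.pair (Primrec.pair (Primrec.pair ?_ (Primrec.pair ?_ ?_)) ?_) Primrec.snd
      · exact Primrec.fst.comp (Primrec.fst.comp (Primrec.fst.comp (Primrec.fst.comp
          Primrec.fst)))
      · exact Primrec.snd.comp (Primrec.fst.comp Primrec.fst)
      · exact Primrec.snd.comp Primrec.fst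
      · exact Primrec.snd.comp (Primrec.fst.comp (Primrec.fst.comp Primrec.fst))
  exact h7

/-- The formula which defines the coded set. -/
def Phi (y : ℕ → Y) (n : ℕ) : Prop :=
  ∃ F : List ℕ, ∃ k : ℕ, ((Gap y F k ∧ Cpt y F k) ∧ Arms y F k (n + 3)) ∧ ¬ Arms y F k (n + 4)

theorem si_Phi (h : DistComputable O y) : SI (jump (jump (jump O))) (Phi y) := by
  have hj : TLe (jump O) (jump (jump (jump O))) := (tLe_jump _).trans (tLe_jump _)
  refine SI.ex (p := fun (n : ℕ) (F : List ℕ) => ∃ k : ℕ,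
    ((Gap y F k ∧ Cpt y F k) ∧ Arms y F k (n + 3)) ∧ ¬ Arms y F k (n + 4)) (SI.ex
    (p := fun (x : ℕ × List ℕ) (k : ℕ) =>
    ((Gap y x.2 k ∧ Cpt y x.2 k) ∧ Arms y x.2 k (x.1 + 3)) ∧ ¬ Arms y x.2 k (x.1 + 4))
    (SI.and (SI.and (SI.and ?_ ?_) ?_) ?_))
  · exact ((si_Gap h).trans hj).comp (f := fun x : (ℕ × List ℕ) × ℕ => (x.1.2, x.2))
      ((Primrec.snd.comp Primrec.fst).pair Primrec.snd)
  · exact (si_Cpt h).comp (f := fun x : (ℕ × List ℕ) × ℕ => (x.1.2, x.2))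
      ((Primrec.snd.comp Primrec.fst).pair Primrec.snd)
  · exact (si_Arms h).decide_jump.1.comp (f := fun x : (ℕ × List ℕ) × ℕ =>
      ((x.1.2, x.2), x.1.1 + 3)) (((Primrec.snd.comp Primrec.fst).pair Primrec.snd).pair
      (Primrec.nat_add.comp (Primrec.fst.comp Primrec.fst) (Primrec.const 3)))
  · exact (si_Arms h).decide_jump.2.comp (f := fun x : (ℕ × List ℕ) × ℕ =>
      ((x.1.2, x.2), x.1.1 + 4)) (((Primrec.snd.comp Primrec.fst).pair Primrec.snd).pair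
      (Primrec.nat_add.comp (Primrec.fst.comp Primrec.fst) (Primrec.const 4)))

end

end Pool.Agent.H54PS
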