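import Pool.Agent.H54PS.Space2

set_option autoImplicit false

namespace Pool.Agent.H54PS

open Set Filter Topology Metric

/-- The covering dimension of `X` is at most `n`: every open cover `U` (indexed by any type) has
an open shrinking `V` (so `V i ⊆ U i`), again a cover, such that every point is in at most
`n + 1` of the sets `V i`. -/
def CovDimLE (X : Type) [TopologicalSpace X] (n : ℕ) : Prop :=
  ∀ (ι : Type) (U : ι → Set X), (∀ i, IsOpen (U i)) → (⋃ i, U i) = univ →
    ∃ V : ι → Set X, (∀ i, IsOpen (V i)) ∧ (∀ i, V i ⊆ U i) ∧ (⋃ i, V i) = univ ∧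
      ∀ x, {i | x ∈ V i}.encard ≤ n + 1

variable {M : ℕ → ℕ} {W : ℕ → ℕ → ℕ → Prop}

namespace Hog

theorem covDimLE_one : CovDimLE (Hog M W) 1 := by
  classical
  intro ι U hU hcov
  have h1 : ∀ p, ∃ δ > 0, ∀ x ∈ star M W p, ∃ i, ball x δ ⊆ U i := fun p =>
    lebesgue_number_lemma_of_metric (isCompact_star p) hU (by rw [hcov]; exact subset_univ _)
  choose δ hδ hL using h1
  have h2 : ∀ x : Hog M W, ∃ i, x ∈ U i ∧ (x.al ≤ M x.p → ball x (δ x.p) ⊆ U i) := by
    intro x
    by_cases hx : x.al ≤ M x.p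
    · obtain ⟨i, hi⟩ := hL x.p x ⟨rfl, hx⟩
      exact ⟨i, hi (mem_ball_self (hδ _)), fun _ => hi⟩
    · have : x ∈ ⋃ i, U i := by rw [hcov]; trivial
      obtain ⟨i, hi⟩ := mem_iUnion.1 this
      exact ⟨i, hi, fun h => absurd h hx⟩
  choose g hg1 hg2 using h2
  have harm : ∀ (p α : ℕ) (hα : α ≤ M p) (s : ℝ), (arm W hα s).p = p ∧
      (arm W hα s).al ≤ M p := by
    intro p α hα s
    unfold arm
    by_cases h3 : 0 < s
    · rw [dif_pos h3]
      exact ⟨rfl, hα⟩
    · rw [dif_neg h3]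
      exact ⟨rfl, Nat.zero_le _⟩
  let V : ι → Set (Hog M W) := fun i => {x | (x.t < δ x.p ∧ g (ctr M W x.p) = i) ∨
    (∃ hα : x.al ≤ M x.p, ∃ k : ℕ, 1 ≤ k ∧ ((k : ℝ) - 1) * δ x.p < x.t ∧
      x.t < ((k : ℝ) + 1) * δ x.p ∧ g (arm W hα (k * δ x.p)) = i) ∨ (M x.p < x.al ∧ g x = i)}
  refine ⟨V, ?_, ?_, ?_, ?_⟩
  · intro i
    rw [isOpen_iff_forall_mem_open]
    rintro x (⟨h3, h4⟩ | ⟨hα, k, h3, h4, h5, h6⟩ | ⟨h3, h4⟩)
    · refine ⟨piece M W x.p ∩ {y | y.t < δ x.p}, ?_, (isClopen_piece _).isOpen.inter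
        (isOpen_lt continuous_radius continuous_const), rfl, h3⟩
      rintro y ⟨h5, h6⟩
      have h5 : y.p = x.p := h5
      left
      rw [h5]
      exact ⟨h6, h4⟩
    · refine ⟨outer M W x.p x.al (((k : ℝ) - 1) * δ x.p) ∩ {y | y.t < ((k : ℝ) + 1) * δ x.p},
        ?_, (isOpen_outer _ _ ?_).inter (isOpen_lt continuous_radius continuous_const),
        ⟨rfl, rfl, h4⟩, h5⟩
      · rintro y ⟨⟨h7, h8, h9⟩, h10⟩
        right; left
        obtain ⟨yp, yal, yt, yok⟩ := y
        simp only at h7 h8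
        subst h7
        subst h8
        exact ⟨hα, k, h3, h9, h10, h6⟩
      · have : (1 : ℝ) ≤ k := by exact_mod_cast h3
        exact mul_nonneg (by linarith) (hδ _).le
    · exact ⟨{x}, by rintro y rfl; exact Or.inr (Or.inr ⟨h3, h4⟩), isOpen_singleton h3, rfl⟩
  · rintro i x (⟨h3, h4⟩ | ⟨hα, k, h3, h4, h5, h6⟩ | ⟨h3, h4⟩)
    · rw [← h4]
      refine hg2 (ctr M W x.p) (Nat.zero_le _) ?_
      rw [mem_ball, dist_ctr]
      exact h3
    · rw [← h6]
      obtain ⟨h7, h8⟩ := harm x.p x.al hα (k * δ x.p)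
      refine hg2 _ (by rw [h7]; exact h8) ?_
      rw [h7, mem_ball]
      have h9 := arm_lip (W := W) hα x.t (k * δ x.p)
      rw [arm_self] at h9
      refine lt_of_le_of_lt h9 ?_
      rw [abs_lt]
      constructor <;> linarith
    · rw [← h4]
      exact hg1 x
  · rw [eq_univ_iff_forall]
    intro x
    rw [mem_iUnion]
    by_cases h3 : x.t < δ x.p
    · exact ⟨_, Or.inl ⟨h3, rfl⟩⟩
    · by_cases hα : x.al ≤ M x.p
      · refine ⟨_, Or.inr (Or.inl ⟨hα, ⌊x.t / δ x.p⌋₊, ?_, ?_, ?_, rfl⟩)⟩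
        · rw [Nat.one_le_floor_iff, one_le_div (hδ _)]
          exact not_lt.1 h3
        · have h4 := Nat.floor_le (div_nonneg x.nonneg (hδ x.p).le)
          rw [le_div_iff₀ (hδ _)] at h4
          have := hδ x.p
          linarith
        · have h4 := Nat.lt_floor_add_one (x.t / δ x.p)
          rwa [div_lt_iff₀ (hδ _)] at h4
      · exact ⟨_, Or.inr (Or.inr ⟨not_le.1 hα, rfl⟩)⟩
  · intro x
    have key : ∃ a b, {i | x ∈ V i} ⊆ {a, b} := by
      by_cases hα : x.al ≤ M x.p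
      · by_cases h3 : x.t < δ x.p
        · refine ⟨g (ctr M W x.p), g (arm W hα ((1 : ℕ) * δ x.p)), ?_⟩
          rintro i (⟨h5, h4⟩ | ⟨_, k, h5, h4, h6, h7⟩ | ⟨h5, h4⟩)
          · exact Or.inl h4.symm
          · right
            have h8 : (k : ℝ) - 1 < 1 := by
              by_contra hc
              have := mul_le_mul_of_nonneg_right (not_lt.1 hc) (hδ x.p).le
              linarith
            have h9 : k < 2 := by
              have : (k : ℝ) < 2 := by linarith
              exact_mod_cast this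
            have h10 : k = 1 := by omega
            subst h10
            exact h7.symm
          · omega
        · refine ⟨g (arm W hα ((⌊x.t / δ x.p⌋₊ : ℕ) * δ x.p)),
            g (arm W hα ((⌊x.t / δ x.p⌋₊ + 1 : ℕ) * δ x.p)), ?_⟩
          rintro i (⟨h5, h4⟩ | ⟨_, k, h5, h4, h6, h7⟩ | ⟨h5, h4⟩)
          · exact absurd h5 h3
          · rw [← lt_div_iff₀ (hδ _)] at h4
            rw [← div_lt_iff₀ (hδ _)] at h6
            have h8 : ⌊x.t / δ x.p⌋₊ < k + 1 := by
              rw [Nat.floor_lt (div_nonneg x.nonneg (hδ x.p).le)]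
              exact_mod_cast h6
            have h9 : k ≤ ⌊x.t / δ x.p⌋₊ + 1 := by
              have h10 := Nat.lt_floor_add_one (x.t / δ x.p)
              have h11 : (k : ℝ) < (⌊x.t / δ x.p⌋₊ : ℝ) + 2 := by linarith
              have h12 : k < ⌊x.t / δ x.p⌋₊ + 2 := by exact_mod_cast h11
              omega
            have h10 : k = ⌊x.t / δ x.p⌋₊ ∨ k = ⌊x.t / δ x.p⌋₊ + 1 := by omega
            rcases h10 with h10 | h10
            · left; rw [h10] at h7; exact h7.symm
            · right; rw [h10] at h7; exact h7.symm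
          · omega
      · refine ⟨g (ctr M W x.p), g x, ?_⟩
        rintro i (⟨h5, h4⟩ | ⟨h5, -⟩ | ⟨h5, h4⟩)
        · exact Or.inl h4.symm
        · exact absurd h5 hα
        · exact Or.inr h4.symm
    obtain ⟨a, b, hab⟩ := key
    refine (Set.encard_le_encard hab).trans ?_
    refine (Set.encard_insert_le _ _).trans ?_
    rw [Set.encard_singleton]
    norm_num

end Hog

end Pool.Agent.H54PS
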