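import Pool.Agent.H54PS.Tools

set_option autoImplicit false

namespace Pool.Agent.H54PS

open Encodable
open Nat.Partrec (Code)
open Pool.Agent.Helper227

/-- Interleaving of two finite strings (of length twice the length of the second). -/
def jn (σ τ : List Bool) : List Bool :=
  (List.range (2 * τ.length)).map fun i =>
    if i % 2 = 0 then σ.getD (i / 2) false else τ.getD (i / 2) false

theorem jn_pre (A G : ℕ → Bool) (k : ℕ) : jn (pre A k) (pre G k) = pre (join A G) (2 * k) := by
  rw [jn, length_pre]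
  unfold pre
  refine List.map_congr_left fun i hi => ?_
  rw [List.mem_range] at hi
  have h1 := pre_getD A k (i / 2) false (by omega)
  have h2 := pre_getD G k (i / 2) false (by omega)
  unfold pre at h1 h2
  rw [h1, h2]
  rfl

theorem primrec_jn : Primrec fun x : List Bool × List Bool => jn x.1 x.2 := by
  unfold jn
  refine Primrec.list_map (f := fun x : List Bool × List Bool => List.range (2 * x.2.length))
    (g := fun x i => if i % 2 = 0 then x.1.getD (i / 2) false else x.2.getD (i / 2) false) ?_ ?_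
  · exact Primrec.list_range.comp (Primrec.nat_mul.comp (Primrec.const 2)
      (Primrec.list_length.comp Primrec.snd))
  · refine Primrec.ite (c := fun x : (List Bool × List Bool) × ℕ => x.2 % 2 = 0) ?_ ?_ ?_
    · exact Primrec.eq.comp (Primrec.nat_mod.comp Primrec.snd (Primrec.const 2)) (Primrec.const 0)
    · exact (Primrec.list_getD false).comp (Primrec.fst.comp Primrec.fst)
        (Primrec.nat_div.comp Primrec.snd (Primrec.const 2))
    · exact (Primrec.list_getD false).comp (Primrec.snd.comp Primrec.fst)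
        (Primrec.nat_div.comp Primrec.snd (Primrec.const 2))

/-- The finite string `τ` forces the `e`-th bit of the jump of `A ⊕ G`. -/
def C (A : ℕ → Bool) (τ : List Bool) (e : ℕ) : Prop :=
  ∃ k ≤ 2 * τ.length, ((Denumerable.ofNat Code e).eval
    (encode ((jn (pre A τ.length) τ).take k, e))).Dom

theorem si_C (A : ℕ → Bool) : SI A fun x : List Bool × ℕ => C A x.1 x.2 := by
  have h : SI A fun x : List Bool × ℕ => ∃ σ : List Bool, pre A x.1.length = σ ∧
      ∃ k : ℕ, k ≤ 2 * x.1.length ∧ ((Denumerable.ofNat Code x.2).eval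
    (encode ((jn σ x.1).take k, x.2))).Dom := by
    refine SI.ex (p := fun (x : List Bool × ℕ) (σ : List Bool) => pre A x.1.length = σ ∧
      ∃ k : ℕ, k ≤ 2 * x.1.length ∧ ((Denumerable.ofNat Code x.2).eval
    (encode ((jn σ x.1).take k, x.2))).Dom) (SI.and ?_ ?_)
    · exact si_pre.comp (f := fun z : (List Bool × ℕ) × List Bool => (z.1.1.length, z.2))
        ((Primrec.list_length.comp (Primrec.fst.comp Primrec.fst)).pair Primrec.snd)
    · refine SI.of_s1 (S1.ex (p := fun (z : (List Bool × ℕ) × List Bool) (k : ℕ) =>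
        k ≤ 2 * z.1.1.length ∧ ((Denumerable.ofNat Code z.1.2).eval
    (encode ((jn z.2 z.1.1).take k, z.1.2))).Dom) (S1.and (S1.of_prim ?_) ?_))
      · exact Primrec.nat_le.comp Primrec.snd (Primrec.nat_mul.comp (Primrec.const 2)
          (Primrec.list_length.comp (Primrec.fst.comp (Primrec.fst.comp Primrec.fst))))
      · refine S1.comp (f := fun x : ((List Bool × ℕ) × List Bool) × ℕ =>
          (Denumerable.ofNat Code x.1.1.2, encode ((jn x.1.2 x.1.1.1).take x.2, x.1.1.2))) s1_eval ?_
        refine ((Primrec.ofNat Code).comp (Primrec.snd.comp (Primrec.fst.comp Primrec.fst))).pair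
          (Primrec.encode.comp (Primrec.pair ?_ (Primrec.snd.comp (Primrec.fst.comp Primrec.fst))))
        exact Primrec.list_take.comp Primrec.snd (primrec_jn.comp
          ((Primrec.snd.comp Primrec.fst).pair (Primrec.fst.comp (Primrec.fst.comp Primrec.fst))))
  refine h.of_eq fun x => ?_
  simp only [C, exists_eq_left']

theorem C_mono {A : ℕ → Bool} {G : ℕ → Bool} {s t e : ℕ} (h : s ≤ t) (hC : C A (pre G s) e) :
    C A (pre G t) e := by
  obtain ⟨k, hk, h2⟩ := hC
  rw [length_pre] at hk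
  rw [length_pre, jn_pre, take_pre _ _ _ hk] at h2
  refine ⟨k, by rw [length_pre]; omega, ?_⟩
  rw [length_pre, jn_pre, take_pre _ _ _ (by omega)]
  exact h2

theorem jump_join {A G : ℕ → Bool} {e : ℕ} :
    jump (join A G) e = true ↔ ∃ s, C A (pre G s) e := by
  rw [jump_eq_true]
  constructor
  · rintro ⟨k, hk⟩
    refine ⟨k, k, by rw [length_pre]; omega, ?_⟩
    rw [length_pre, jn_pre, take_pre _ _ _ (by omega)]
    exact hk
  · rintro ⟨s, k, hk, h2⟩
    rw [length_pre] at hk
    rw [length_pre, jn_pre, take_pre _ _ _ hk] at h2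
    exact ⟨k, h2⟩

/-- Candidate extension with code `m`. -/
def C' (A : ℕ → Bool) (σ : List Bool) (e m : ℕ) : Prop :=
  ∃ τ : List Bool, encode τ = m ∧ σ = τ.take σ.length ∧ C A τ e

theorem si_C' (A : ℕ → Bool) :
    SI A fun x : (List Bool × ℕ) × ℕ => C' A x.1.1 x.1.2 x.2 := by
  refine SI.ex (p := fun (x : (List Bool × ℕ) × ℕ) (τ : List Bool) =>
    encode τ = x.2 ∧ x.1.1 = τ.take x.1.1.length ∧ C A τ x.1.2)
    (SI.and (SI.of_prim ?_) (SI.and (SI.of_prim ?_) ?_))
  · exact Primrec.eq.comp (Primrec.encode.comp Primrec.snd) (Primrec.snd.comp Primrec.fst)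
  · exact Primrec.eq.comp (Primrec.fst.comp (Primrec.fst.comp Primrec.fst))
      (Primrec.list_take.comp (Primrec.list_length.comp
        (Primrec.fst.comp (Primrec.fst.comp Primrec.fst))) Primrec.snd)
  · exact (si_C A).comp (f := fun z : ((List Bool × ℕ) × ℕ) × List Bool => (z.2, z.1.1.2))
      (Primrec.snd.pair (Primrec.snd.comp (Primrec.fst.comp Primrec.fst)))

open Classical in
/-- The least extension forcing the jump (if there is one). -/
noncomputable def T (A : ℕ → Bool) (σ : List Bool) (e : ℕ) : List Bool :=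
  if h : ∃ m, C' A σ e m then ((decode (α := List Bool) (Nat.find h)).getD []) else σ

theorem T_spec1 {A : ℕ → Bool} {σ : List Bool} {e : ℕ} (h : ∃ m, C' A σ e m) :
    σ <+: T A σ e ∧ C A (T A σ e) e := by
  classical
  obtain ⟨τ, h1, h2, h3⟩ := Nat.find_spec h
  have h4 : T A σ e = τ := by
    rw [T, dif_pos h, ← h1, encodek]
    rfl
  rw [h4]
  exact ⟨List.prefix_iff_eq_take.2 h2, h3⟩

theorem T_prefix {A : ℕ → Bool} {σ : List Bool} {e : ℕ} : σ <+: T A σ e := by
  by_cases h : ∃ m, C' A σ e m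
  · exact (T_spec1 h).1
  · rw [T, dif_neg h]

theorem T_graph {A : ℕ → Bool} {σ τ : List Bool} {e : ℕ} :
    T A σ e = τ ↔ (C' A σ e (encode τ) ∧ ∀ m < encode τ, ¬ C' A σ e m) ∨
      (σ = τ ∧ ¬ ∃ m, C' A σ e m) := by
  classical
  by_cases h : ∃ m, C' A σ e m
  · have hs := Nat.find_spec h
    have hm := fun m => Nat.find_min h (m := m)
    constructor
    · intro h1
      left
      obtain ⟨τ', h2, h3, h4⟩ := hs
      have h5 : T A σ e = τ' := by
        rw [T, dif_pos h, ← h2, encodek]
        rfl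
      have h6 : τ' = τ := by rw [← h5, h1]
      subst h6
      rw [h2]
      exact ⟨⟨τ', h2, h3, h4⟩, fun m hmm => hm m hmm⟩
    · rintro (⟨h1, h2⟩ | ⟨_, h2⟩)
      · have h3 : Nat.find h = encode τ := by
          rw [Nat.find_eq_iff]
          exact ⟨h1, h2⟩
        rw [T, dif_pos h, h3, encodek]
        rfl
      · exact absurd h h2
  · rw [T, dif_neg h]
    constructor
    · intro h1
      exact Or.inr ⟨h1, h⟩
    · rintro (⟨h1, _⟩ | ⟨h1, _⟩)
      · exact absurd ⟨_, h1⟩ h
      · exact h1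

theorem si_T (A : ℕ → Bool) :
    SI (jump A) fun x : (List Bool × ℕ) × List Bool => T A x.1.1 x.1.2 = x.2 := by
  have hC := (si_C' A)
  have h1 : SI (jump A) fun x : (List Bool × ℕ) × List Bool =>
      (C' A x.1.1 x.1.2 (encode x.2) ∧ ∀ m < encode x.2, ¬ C' A x.1.1 x.1.2 m) ∨
      (x.1.1 = x.2 ∧ ¬ ∃ m, C' A x.1.1 x.1.2 m) := by
    refine SI.or (SI.and ?_ ?_) (SI.and (SI.of_prim ?_) ?_)
    · exact hC.decide_jump.1.comp (f := fun x : (List Bool × ℕ) × List Bool =>
        (x.1, encode x.2)) (Primrec.fst.pair (Primrec.encode.comp Primrec.snd))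
    · refine SI.all_lt (α := (List Bool × ℕ) × List Bool)
        (p := fun x m => ¬ C' A x.1.1 x.1.2 m) (f := fun x => encode x.2) ?_
        (Primrec.encode.comp Primrec.snd)
      exact hC.decide_jump.2.comp (f := fun z : ((List Bool × ℕ) × List Bool) × ℕ =>
        (z.1.1, z.2)) ((Primrec.fst.comp Primrec.fst).pair Primrec.snd)
    · exact Primrec.eq.comp (Primrec.fst.comp Primrec.fst) Primrec.snd
    · have h2 : SI A fun x : List Bool × ℕ => ∃ m, C' A x.1 x.2 m :=
        SI.ex (p := fun (x : List Bool × ℕ) (m : ℕ) => C' A x.1 x.2 m) hC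
      exact h2.decide_jump.2.comp (f := fun x : (List Bool × ℕ) × List Bool => x.1) Primrec.fst
  exact h1.of_eq fun x => T_graph.symm

open Classical in
/-- The diagonal bit. -/
noncomputable def dg (A : ℕ → Bool) (ρ : List Bool) (e : ℕ) : Bool :=
  decide (¬ (Nat.pair (ρ.length + 1) 1 ∈ WE A e))

theorem si_dg (A : ℕ → Bool) :
    SI (jump A) fun x : (List Bool × ℕ) × Bool => dg A x.1.1 x.1.2 = x.2 := by
  have h0 : SI A fun x : List Bool × ℕ => Nat.pair (x.1.length + 1) 1 ∈ WE A x.2 := by
    refine (si_WE A).comp (f := fun x : List Bool × ℕ => (x.2, Nat.pair (x.1.length + 1) 1)) ?_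
    exact Primrec.snd.pair (Primrec₂.natPair.comp (Primrec.succ.comp
      (Primrec.list_length.comp Primrec.fst)) (Primrec.const 1))
  have h1 : SI (jump A) fun x : (List Bool × ℕ) × Bool =>
      (Nat.pair (x.1.1.length + 1) 1 ∈ WE A x.1.2 ∧ x.2 = false) ∨
      ((¬ Nat.pair (x.1.1.length + 1) 1 ∈ WE A x.1.2) ∧ x.2 = true) := by
    refine SI.or (SI.and ?_ (SI.of_prim ?_)) (SI.and ?_ (SI.of_prim ?_))
    · exact h0.decide_jump.1.comp (f := fun x : (List Bool × ℕ) × Bool => x.1) Primrec.fst
    · exact Primrec.eq.comp Primrec.snd (Primrec.const false)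
    · exact h0.decide_jump.2.comp (f := fun x : (List Bool × ℕ) × Bool => x.1) Primrec.fst
    · exact Primrec.eq.comp Primrec.snd (Primrec.const true)
  refine h1.of_eq fun x => ?_
  obtain ⟨⟨ρ, e⟩, b⟩ := x
  simp only [dg]
  by_cases h : Nat.pair (ρ.length + 1) 1 ∈ WE A e <;> cases b <;> simp [h]

/-- The construction step. -/
noncomputable def stp (A E : ℕ → Bool) (e : ℕ) (σ : List Bool) : List Bool :=
  T A σ e ++ [E e, dg A (T A σ e) e]

theorem si_stp {A E : ℕ → Bool} (h : TLe (jump A) E) :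
    SI E fun x : (ℕ × List Bool) × List Bool => stp A E x.1.1 x.1.2 = x.2 := by
  have h1 : SI E fun x : (ℕ × List Bool) × List Bool => ∃ ρ : List Bool, T A x.1.2 x.1.1 = ρ ∧
      ∃ b : Bool, E x.1.1 = b ∧ ∃ c : Bool, dg A ρ x.1.1 = c ∧ ρ ++ [b, c] = x.2 := by
    refine SI.ex (p := fun (x : (ℕ × List Bool) × List Bool) (ρ : List Bool) =>
      T A x.1.2 x.1.1 = ρ ∧
      ∃ b : Bool, E x.1.1 = b ∧ ∃ c : Bool, dg A ρ x.1.1 = c ∧ ρ ++ [b, c] = x.2)
      (SI.and ?_ (SI.ex (p := fun (x : ((ℕ × List Bool) × List Bool) × List Bool) (b : Bool) =>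
        E x.1.1.1 = b ∧ ∃ c : Bool, dg A x.2 x.1.1.1 = c ∧ x.2 ++ [b, c] = x.1.2) (SI.and ?_
        (SI.ex (p := fun (x : (((ℕ × List Bool) × List Bool) × List Bool) × Bool) (c : Bool) =>
          dg A x.1.2 x.1.1.1.1 = c ∧ x.1.2 ++ [x.2, c] = x.1.1.2) (SI.and ?_ (SI.of_prim ?_))))))
    · exact ((si_T A).trans h).comp (f := fun z : ((ℕ × List Bool) × List Bool) × List Bool =>
        ((z.1.1.2, z.1.1.1), z.2)) (((Primrec.snd.comp (Primrec.fst.comp Primrec.fst)).pair
          (Primrec.fst.comp (Primrec.fst.comp Primrec.fst))).pair Primrec.snd)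
    · exact (SI.query (B := E)).comp
        (f := fun z : (((ℕ × List Bool) × List Bool) × List Bool) × Bool =>
        (z.1.1.1.1, z.2)) ((Primrec.fst.comp (Primrec.fst.comp (Primrec.fst.comp
          Primrec.fst))).pair Primrec.snd)
    · exact ((si_dg A).trans h).comp
        (f := fun z : ((((ℕ × List Bool) × List Bool) × List Bool) × Bool) × Bool =>
        ((z.1.1.2, z.1.1.1.1.1), z.2))
        (((Primrec.snd.comp (Primrec.fst.comp Primrec.fst)).pair (Primrec.fst.comp
          (Primrec.fst.comp (Primrec.fst.comp (Primrec.fst.comp Primrec.fst))))).pair Primrec.snd)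
    · refine Primrec.eq.comp (Primrec.list_append.comp
        (Primrec.snd.comp (Primrec.fst.comp Primrec.fst)) (Primrec.list_cons.comp
          (Primrec.snd.comp Primrec.fst) (Primrec.list_cons.comp Primrec.snd
            (Primrec.const [])))) ?_
      exact Primrec.snd.comp (Primrec.fst.comp (Primrec.fst.comp Primrec.fst))
  refine h1.of_eq fun x => ?_
  simp [stp]

/-- The sequence of finite strings. -/
noncomputable def sq (A E : ℕ → Bool) (n : ℕ) : List Bool :=
  Nat.rec (motive := fun _ => List Bool) [] (fun n b => stp A E n b) n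

theorem sq_succ (A E : ℕ → Bool) (n : ℕ) : sq A E (n + 1) = stp A E n (sq A E n) := rfl

theorem si_sq {A E : ℕ → Bool} (h : TLe (jump A) E) :
    SI E fun x : ℕ × List Bool => sq A E x.1 = x.2 := si_iter (si_stp h)

theorem sq_prefix_succ (A E : ℕ → Bool) (n : ℕ) : sq A E n <+: sq A E (n + 1) := by
  rw [sq_succ, stp]
  exact T_prefix.trans (List.prefix_append _ _)

theorem sq_prefix (A E : ℕ → Bool) {m n : ℕ} (h : m ≤ n) : sq A E m <+: sq A E n := by
  induction h with
  | refl => exact List.prefix_rfl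
  | step _ ih => exact ih.trans (sq_prefix_succ A E _)

theorem length_sq (A E : ℕ → Bool) (n : ℕ) : n ≤ (sq A E n).length := by
  induction n with
  | zero => omega
  | succ n ih =>
    rw [sq_succ, stp, List.length_append]
    have := (T_prefix (A := A) (σ := sq A E n) (e := n)).length_le
    simp only [List.length_cons, List.length_nil]
    omega

/-- The generic set. -/
noncomputable def Gn (A E : ℕ → Bool) (n : ℕ) : Bool := (sq A E (n + 1)).getD n false

theorem getD_of_prefix {σ τ : List Bool} (h : σ <+: τ) {i : ℕ} (hi : i < σ.length) :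
    τ.getD i false = σ.getD i false := by
  obtain ⟨ρ, rfl⟩ := h
  rw [List.getD_append _ _ _ _ hi]

theorem pre_Gn (A E : ℕ → Bool) (n : ℕ) : pre (Gn A E) (sq A E n).length = sq A E n := by
  refine List.ext_getElem (by simp) fun i h5 h6 => ?_
  rw [getElem_pre]
  have h7 := length_sq A E (i + 1)
  have h8 : (sq A E (i + 1)).getD i false = (sq A E n).getD i false := by
    rcases le_total (i + 1) n with h | h
    · exact (getD_of_prefix (sq_prefix A E h) (by omega)).symm
    · exact getD_of_prefix (sq_prefix A E h) h6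
  rw [Gn, h8]
  simp [h6]

theorem pre_Gn' (A E : ℕ → Bool) {σ : List Bool} {n : ℕ} (h : σ <+: sq A E n) :
    pre (Gn A E) σ.length = σ := by
  have h1 := pre_Gn A E n
  have h2 : σ <+: pre (Gn A E) (sq A E n).length := by rw [h1]; exact h
  exact (pre_eq_of_prefix h2).symm

theorem tLe_left (A G : ℕ → Bool) : TLe A (join A G) := by
  refine tLe_of_computable (f := fun n => 2 * n) ?_ fun n => ?_
  · exact (Primrec.nat_mul.comp (Primrec.const 2) Primrec.id).to_comp
  · simp [join]

theorem tLe_right (A G : ℕ → Bool) : TLe G (join A G) := by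
  refine tLe_of_computable (f := fun n => 2 * n + 1) ?_ fun n => ?_
  · exact (Primrec.succ.comp (Primrec.nat_mul.comp (Primrec.const 2) Primrec.id)).to_comp
  · simp only [join]
    rw [if_neg (by omega)]
    congr 1
    omega

theorem jump_iff (A E : ℕ → Bool) (e : ℕ) :
    jump (join A (Gn A E)) e = true ↔ ∃ m, C' A (sq A E e) e m := by
  rw [jump_join]
  constructor
  · rintro ⟨s, hs⟩
    have h1 := C_mono (le_max_left s (sq A E e).length) hs
    refine ⟨_, pre (Gn A E) (max s (sq A E e).length), rfl, ?_, h1⟩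
    rw [take_pre _ _ _ (le_max_right _ _), pre_Gn]
  · intro h
    obtain ⟨h1, h2⟩ := T_spec1 h
    refine ⟨(T A (sq A E e) e).length, ?_⟩
    rw [pre_Gn' A E (n := e + 1)]
    · exact h2
    · rw [sq_succ, stp]
      exact List.prefix_append _ _

theorem jump_le {A E : ℕ → Bool} (h : TLe (jump A) E) : TLe (jump (join A (Gn A E))) E := by
  rw [tLe_iff_SI]
  have h2 : SI A fun x : List Bool × ℕ => ∃ m, C' A x.1 x.2 m :=
    SI.ex (p := fun (x : List Bool × ℕ) (m : ℕ) => C' A x.1 x.2 m) (si_C' A)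
  have h1 : SI E fun x : ℕ × Bool => ∃ σ : List Bool, sq A E x.1 = σ ∧
      (((∃ m, C' A σ x.1 m) ∧ x.2 = true) ∨ ((¬ ∃ m, C' A σ x.1 m) ∧ x.2 = false)) := by
    refine SI.ex (p := fun (x : ℕ × Bool) (σ : List Bool) => sq A E x.1 = σ ∧
      (((∃ m, C' A σ x.1 m) ∧ x.2 = true) ∨ ((¬ ∃ m, C' A σ x.1 m) ∧ x.2 = false)))
      (SI.and ?_ (SI.or (SI.and ?_ (SI.of_prim ?_)) (SI.and ?_ (SI.of_prim ?_))))
    · exact (si_sq h).comp (f := fun z : (ℕ × Bool) × List Bool => (z.1.1, z.2))
        ((Primrec.fst.comp Primrec.fst).pair Primrec.snd)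
    · exact (h2.decide_jump.1.trans h).comp (f := fun z : (ℕ × Bool) × List Bool => (z.2, z.1.1))
        (Primrec.snd.pair (Primrec.fst.comp Primrec.fst))
    · exact Primrec.eq.comp (Primrec.snd.comp Primrec.fst) (Primrec.const true)
    · exact (h2.decide_jump.2.trans h).comp (f := fun z : (ℕ × Bool) × List Bool => (z.2, z.1.1))
        (Primrec.snd.pair (Primrec.fst.comp Primrec.fst))
    · exact Primrec.eq.comp (Primrec.snd.comp Primrec.fst) (Primrec.const false)
  refine h1.of_eq fun x => ?_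
  obtain ⟨e, b⟩ := x
  simp only [exists_eq_left']
  rw [← jump_iff]
  cases b <;> simp

theorem le_jump {A E : ℕ → Bool} : TLe E (jump (join A (Gn A E))) := by
  rw [tLe_iff_SI]
  have hG : TLe (Gn A E) (jump (join A (Gn A E))) := (tLe_right _ _).trans (tLe_jump _)
  have hA : TLe (jump A) (jump (join A (Gn A E))) := (tLe_left _ _).jump
  -- the lengths of the strings
  have h1 : SI (jump (join A (Gn A E))) fun x : (ℕ × ℕ) × ℕ =>
      (T A (pre (Gn A E) x.1.2) x.1.1).length + 2 = x.2 := by
    have h2 : SI (jump (join A (Gn A E))) fun x : (ℕ × ℕ) × ℕ => ∃ σ : List Bool,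
        pre (Gn A E) x.1.2 = σ ∧ ∃ τ : List Bool, T A σ x.1.1 = τ ∧ τ.length + 2 = x.2 := by
      refine SI.ex (p := fun (x : (ℕ × ℕ) × ℕ) (σ : List Bool) => 
        pre (Gn A E) x.1.2 = σ ∧ ∃ τ : List Bool, T A σ x.1.1 = τ ∧ τ.length + 2 = x.2)
        (SI.and ?_ (SI.ex (p := fun (x : ((ℕ × ℕ) × ℕ) × List Bool) (τ : List Bool) =>
          T A x.2 x.1.1.1 = τ ∧ τ.length + 2 = x.1.2) (SI.and ?_ (SI.of_prim ?_))))
      · exact (si_pre.trans hG).comp (f := fun z : ((ℕ × ℕ) × ℕ) × List Bool => (z.1.1.2, z.2))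
          ((Primrec.snd.comp (Primrec.fst.comp Primrec.fst)).pair Primrec.snd)
      · exact ((si_T A).trans hA).comp
          (f := fun z : (((ℕ × ℕ) × ℕ) × List Bool) × List Bool => ((z.1.2, z.1.1.1.1), z.2))
          (((Primrec.snd.comp Primrec.fst).pair (Primrec.fst.comp (Primrec.fst.comp
            (Primrec.fst.comp Primrec.fst)))).pair Primrec.snd)
      · exact Primrec.eq.comp (Primrec.nat_add.comp (Primrec.list_length.comp Primrec.snd)
          (Primrec.const 2)) (Primrec.snd.comp (Primrec.fst.comp Primrec.fst))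
    refine h2.of_eq fun x => by simp
  have h3 := si_iter (f := fun e l => (T A (pre (Gn A E) l) e).length + 2) (b0 := 0) h1
  have hl : ∀ n, (Nat.rec (motive := fun _ => ℕ) 0
      (fun e l => (T A (pre (Gn A E) l) e).length + 2) n : ℕ) = (sq A E n).length := by
    intro n
    induction n with
    | zero => rfl
    | succ n ih =>
      simp only
      rw [ih, pre_Gn, sq_succ, stp]
      simp
  have h4 : SI (jump (join A (Gn A E))) fun x : ℕ × Bool => ∃ l : ℕ,
      (Nat.rec (motive := fun _ => ℕ) 0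
      (fun e l => (T A (pre (Gn A E) l) e).length + 2) x.1 : ℕ) = l ∧ ∃ σ : List Bool,
        pre (Gn A E) l = σ ∧ ∃ τ : List Bool, T A σ x.1 = τ ∧ Gn A E τ.length = x.2 := by
    refine SI.ex (p := fun (x : ℕ × Bool) (l : ℕ) => (Nat.rec (motive := fun _ => ℕ) 0
      (fun e l => (T A (pre (Gn A E) l) e).length + 2) x.1 : ℕ) = l ∧ ∃ σ : List Bool,
        pre (Gn A E) l = σ ∧ ∃ τ : List Bool, T A σ x.1 = τ ∧ Gn A E τ.length = x.2)
      (SI.and ?_ (SI.ex (p := fun (x : (ℕ × Bool) × ℕ) (σ : List Bool) => pre (Gn A E) x.2 = σ ∧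
        ∃ τ : List Bool, T A σ x.1.1 = τ ∧ Gn A E τ.length = x.1.2) (SI.and ?_ (SI.ex
        (p := fun (x : ((ℕ × Bool) × ℕ) × List Bool) (τ : List Bool) => T A x.2 x.1.1.1 = τ ∧
          Gn A E τ.length = x.1.1.2) (SI.and ?_ ?_)))))
    · exact h3.comp (f := fun z : (ℕ × Bool) × ℕ => (z.1.1, z.2))
        ((Primrec.fst.comp Primrec.fst).pair Primrec.snd)
    · exact (si_pre.trans hG).comp (f := fun z : ((ℕ × Bool) × ℕ) × List Bool => (z.1.2, z.2))
          ((Primrec.snd.comp Primrec.fst).pair Primrec.snd)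
    · exact ((si_T A).trans hA).comp
          (f := fun z : (((ℕ × Bool) × ℕ) × List Bool) × List Bool => ((z.1.2, z.1.1.1.1), z.2))
          (((Primrec.snd.comp Primrec.fst).pair (Primrec.fst.comp (Primrec.fst.comp
            (Primrec.fst.comp Primrec.fst)))).pair Primrec.snd)
    · exact (SI.query.trans hG).comp
          (f := fun z : (((ℕ × Bool) × ℕ) × List Bool) × List Bool => (z.2.length, z.1.1.1.2))
          ((Primrec.list_length.comp Primrec.snd).pair (Primrec.snd.comp (Primrec.fst.comp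
            (Primrec.fst.comp Primrec.fst))))
  refine h4.of_eq fun x => ?_
  obtain ⟨e, b⟩ := x
  simp only [exists_eq_left']
  rw [hl, pre_Gn]
  have h5 : T A (sq A E e) e <+: sq A E (e + 1) := by
    rw [sq_succ, stp]
    exact List.prefix_append _ _
  have h6 : Gn A E (T A (sq A E e) e).length = E e := by
    have h7 : (T A (sq A E e) e).length < (sq A E (e + 1)).length := by
      rw [sq_succ, stp]; simp
    have h8 := pre_Gn A E (e + 1)
    have h9 := pre_getD (Gn A E) (sq A E (e + 1)).length (T A (sq A E e) e).length false h7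
    rw [h8] at h9
    rw [← h9, sq_succ, stp, List.getD_append_right _ _ _ _ le_rfl]
    simp
  rw [h6]

theorem not_le (A E : ℕ → Bool) : ¬ TLe (join A (Gn A E)) A := by
  intro h
  have hG : TLe (Gn A E) A := (tLe_right _ _).trans h
  have h1 : CEIn A {m : ℕ | Gn A E (Nat.unpair m).1 = decide ((Nat.unpair m).2 = 1)} := by
    rw [SI.iff_ceIn]
    refine (tLe_iff_SI.1 hG).comp (f := fun m : ℕ =>
      ((Nat.unpair m).1, decide ((Nat.unpair m).2 = 1))) ?_
    exact (Primrec.fst.comp Primrec.unpair).pair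
      (Primrec.eq.comp (Primrec.snd.comp Primrec.unpair) (Primrec.const 1)).decide
  obtain ⟨e, he⟩ := ceIn_iff_exists_WE.1 h1
  have h2 : Gn A E ((T A (sq A E e) e).length + 1) = dg A (T A (sq A E e) e) e := by
    have h7 : (T A (sq A E e) e).length + 1 < (sq A E (e + 1)).length := by
      rw [sq_succ, stp]; simp
    have h8 := pre_Gn A E (e + 1)
    have h9 := pre_getD (Gn A E) (sq A E (e + 1)).length ((T A (sq A E e) e).length + 1) false h7
    rw [h8] at h9
    rw [← h9, sq_succ, stp, List.getD_append_right _ _ _ _ (by omega)]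
    simp
  have h3 : Nat.pair ((T A (sq A E e) e).length + 1) 1 ∈ WE A e ↔
      Gn A E ((T A (sq A E e) e).length + 1) = true := by
    rw [← he]
    simp
  rw [h2, dg] at h3
  by_cases h4 : Nat.pair ((T A (sq A E e) e).length + 1) 1 ∈ WE A e
  · simp [h4] at h3
  · simp [h4] at h3

/-- Relativized Friedberg jump inversion, with a proper extension. -/
theorem friedberg {A E : ℕ → Bool} (h : TLe (jump A) E) :
    ∃ B : ℕ → Bool, TLe A B ∧ TLe (jump B) E ∧ TLe E (jump B) ∧ ¬ TLe B A :=
  ⟨join A (Gn A E), tLe_left _ _, jump_le h, le_jump, not_le _ _⟩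

/-- There is an oracle which is low for four jumps, but not for three jumps. -/
theorem exists_low4 (O : ℕ → Bool) : ∃ D : ℕ → Bool,
    TLe (jump (jump (jump (jump D)))) (jump (jump (jump (jump O)))) ∧
    TLe (jump (jump (jump (jump O)))) (jump (jump (jump (jump D)))) ∧
    ¬ TLe (jump (jump (jump D))) (jump (jump (jump O))) := by
  obtain ⟨E3, a3, b3, c3, d3⟩ := friedberg (TLe.refl (jump (jump (jump (jump O)))))
  obtain ⟨E2, a2, b2, c2, -⟩ := friedberg a3
  obtain ⟨E1, a1, b1, c1, -⟩ := friedberg a2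
  obtain ⟨D, -, b0, c0, -⟩ := friedberg a1
  have h3 : TLe (jump (jump (jump D))) E3 := (b0.jump.jump.trans b1.jump).trans b2
  have h3' : TLe E3 (jump (jump (jump D))) := c2.trans (c1.jump.trans c0.jump.jump)
  exact ⟨D, h3.jump.trans b3, c3.trans h3'.jump, fun h => d3 (h3'.trans h)⟩

end Pool.Agent.H54PS
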