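import Pool.Agent.H54PS.Cplx

set_option autoImplicit false

namespace Pool.Agent.H54PS

open Set Filter Topology Metric Encodable
open Pool.Agent.Helper227

section
variable {M : ℕ → ℕ} {W : ℕ → ℕ → ℕ → Prop} {Y : Type} [MetricSpace Y] {y : ℕ → Y}

theorem arms_of_star (hy : DenseRange y) (φ : Y ≃ₜ Hog M W) {F : List ℕ} {k N p : ℕ}
    (hs : Hog.star M W p ⊆ φ '' Uc y F k) (hN : N ≤ M p + 1) : Arms y F k N := by
  have hU : φ ⁻¹' Hog.star M W p ⊆ Uc y F k := by
    intro x hx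
    obtain ⟨u, hu, he⟩ := hs hx
    rwa [← φ.injective he]
  refine arms_of_config hy (Z := φ ⁻¹' Hog.Oz M W p)
    (O := fun i => φ ⁻¹' Hog.outer M W p i (1 / 2)) (Dc := fun i => φ ⁻¹' Hog.Dc M W p i)
    ((Hog.isOpen_Oz p).preimage φ.continuous) ((Hog.Oz_nonempty p).preimage φ.surjective)
    (fun i _ => (Hog.isOpen_outer p i (by norm_num)).preimage φ.continuous)
    (fun i hi => (Hog.outer_nonempty (by omega)).preimage φ.surjective)
    (fun i _ => φ.isPreconnected_preimage.2 (Hog.isPreconnected_Dc p i))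
    (fun i _ => (preimage_mono (Hog.Dc_subset p i)).trans hU)
    (fun i _ => preimage_mono (Hog.Oz_subset_Dc p i))
    (fun i hi => preimage_mono (Hog.outer_subset_Dc (by omega)))
    (fun i _ j _ hij => (Hog.outer_disjoint_Dc hij).preimage φ)

theorem star_of_arms [CompleteSpace Y] (φ : Y ≃ₜ Hog M W) {F : List ℕ} {k N : ℕ}
    (hU : IsCompact (Uc y F k)) (hN : 3 ≤ N) (h : Arms y F k N) :
    ∃ p, N ≤ M p + 1 ∧ Hog.ctr M W p ∈ φ '' Uc y F k := by
  obtain ⟨z, w, C, c1, c2, c3, c4, c5⟩ := config_of_arms hU h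
  obtain ⟨h1, i, h2⟩ := Hog.config hN (z := φ z) (w := fun i => φ (w i)) (C := fun i => φ '' C i)
    (fun i => (c1 i).image _ φ.continuous.continuousOn) (fun i => mem_image_of_mem _ (c3 i))
    (fun i => mem_image_of_mem _ (c4 i)) (by
      rintro i j hij ⟨u, hu, he⟩
      rw [φ.injective he] at hu
      exact c5 i j hij hu)
  exact ⟨(φ z).p, h1, image_mono (c2 i) h2⟩

theorem phi_iff [CompleteSpace Y] (hy : DenseRange y) (φ : Y ≃ₜ Hog M W)
    (hM : ∀ p, M p = (Nat.unpair p).1 + 2)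
    (hmono : ∀ p a a' i, a ≤ a' → W p a i → W p a' i) (n : ℕ) :
    Phi y n ↔ ∃ m, ∀ a, {i | W (Nat.pair n m) a i}.Finite := by
  constructor
  · rintro ⟨F, k, ⟨⟨hG, hC⟩, hA⟩, hnA⟩
    have hU := isCompact_Uc hy hG hC
    obtain ⟨p, hp, hc⟩ := star_of_arms φ hU (by omega) hA
    have hV : IsCompact (φ '' Uc y F k) := hU.image φ.continuous
    have hVo : IsOpen (φ '' Uc y F k) := φ.isOpenMap _ (isOpen_Uc F k)
    have hs : Hog.star M W p ⊆ φ '' Uc y F k :=
      (Hog.isPreconnected_star p).subset_isClopen ⟨hV.isClosed, hVo⟩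
        ⟨Hog.ctr M W p, ⟨rfl, Nat.zero_le _⟩, hc⟩
    have hp2 : M p + 1 < n + 4 := by
      by_contra hcon
      exact hnA (arms_of_star hy φ hs (not_lt.1 hcon))
    have hp3 : (Nat.unpair p).1 = n := by
      have := hM p
      omega
    refine ⟨(Nat.unpair p).2, fun a => ?_⟩
    rw [← hp3, Nat.pair_unpair]
    exact Hog.finite_of_compact hV hVo hc (hmono p) a
  · rintro ⟨m, hm⟩
    have hMp : M (Nat.pair n m) = n + 2 := by rw [hM, Nat.unpair_pair]
    have hV : IsCompact (Hog.piece M W (Nat.pair n m)) := Hog.isCompact_piece hm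
    have hU : IsCompact (φ ⁻¹' Hog.piece M W (Nat.pair n m)) := φ.isCompact_preimage.2 hV
    have hUo : IsOpen (φ ⁻¹' Hog.piece M W (Nat.pair n m)) :=
      (Hog.isClopen_piece _).isOpen.preimage φ.continuous
    obtain ⟨F, k, hG, hC, hUc⟩ := exists_code hy hU hUo
    have him : φ '' Uc y F k = Hog.piece M W (Nat.pair n m) := by
      rw [hUc]
      exact image_preimage_eq _ φ.surjective
    refine ⟨F, k, ⟨⟨hG, hC⟩, arms_of_star hy φ (p := Nat.pair n m) ?_ (by omega)⟩, ?_⟩
    · rw [him]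
      exact fun x hx => hx.1
    · intro hA
      obtain ⟨p, hp, hc⟩ := star_of_arms φ (by rw [hUc]; exact hU) (by omega) hA
      rw [him] at hc
      have h1 : p = Nat.pair n m := hc
      rw [h1] at hp
      omega

end

/-- `D` has low₄ degree: the fourth Turing jump of `D` is Turing equivalent to the fourth Turing
jump of the empty set. -/
def Low4 (D : ℕ → Bool) : Prop :=
  TLe (jump (jump (jump (jump D)))) (jump (jump (jump (jump fun _ => false)))) ∧
  TLe (jump (jump (jump (jump fun _ => false)))) (jump (jump (jump (jump D))))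

theorem main : ∃ D : ℕ → Bool, Low4 D ∧
    ∃ (X : Type) (_ : TopologicalSpace X), Presented D X ∧ CovDimLE X 1 ∧
      ∀ (Y : Type) [TopologicalSpace Y], Presented (fun _ => false) Y → IsEmpty (X ≃ₜ Y) := by
  obtain ⟨D, h1, h2, h3⟩ := exists_low4 (fun _ => false)
  refine ⟨D, ⟨h1, h2⟩, ?_⟩
  obtain ⟨W0, hW, hmono, hS⟩ := exists_W (si_Sof (jump (jump (jump D))))
  set M : ℕ → ℕ := fun p => (Nat.unpair p).1 + 2 with hM
  set W : ℕ → ℕ → ℕ → Prop := fun p a i => W0 ((Nat.unpair p, a), i) with hWdef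
  refine ⟨Hog M W, inferInstance, Hog.presented ?_ ?_, Hog.covDimLE_one, ?_⟩
  · exact Primrec.nat_add.comp (Primrec.fst.comp Primrec.unpair) (Primrec.const 2)
  · exact hW.comp (f := fun x : (ℕ × ℕ) × ℕ => ((Nat.unpair x.1.1, x.1.2), x.2))
      (((Primrec.unpair.comp (Primrec.fst.comp Primrec.fst)).pair
        (Primrec.snd.comp Primrec.fst)).pair Primrec.snd)
  · rintro Y t ⟨d, rfl, hc, y, hy, hdc⟩
    refine ⟨fun e => h3 (tLe_of_Sof ?_)⟩
    refine (si_Phi hdc).of_eq fun n => ?_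
    rw [phi_iff hy e.symm (fun p => rfl) (fun p a a' i haa h => ?_) n, hS]
    · simp only [hWdef, Nat.unpair_pair]
    · exact hmono _ _ a a' i haa h

end Pool.Agent.H54PS
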