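import Mathlib

set_option autoImplicit false

namespace Pool.Agent.H54PS

open Set Filter Topology Metric

section
variable {Y : Type} [MetricSpace Y] (y : ℕ → Y)

/-- The open set coded by a finite list of indices and a radius exponent. -/
def Uc (F : List ℕ) (k : ℕ) : Set Y := {x | ∃ i ∈ F, dist (y i) x < (1 / 2) ^ k}

/-- The gap condition. -/
def Gap (F : List ℕ) (k : ℕ) : Prop :=
  ∀ j, (∃ i ∈ F, ¬ (1 / 2 : ℝ) ^ (k + 1) < dist (y i) (y j)) ∨
    ∀ i ∈ F, ¬ dist (y i) (y j) < (1 / 2) ^ k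

/-- The total boundedness condition. -/
def Cpt (F : List ℕ) (k : ℕ) : Prop :=
  ∀ l : ℕ, ∃ F' : List ℕ, ∀ j, (∀ i ∈ F, ¬ dist (y i) (y j) < (1 / 2) ^ k) ∨
    ∃ i ∈ F', ¬ (1 / 2 : ℝ) ^ l < dist (y i) (y j)

/-- Points of the coded set which are far from the points with indices in `w` except `i`. -/
def Far (F : List ℕ) (k : ℕ) (w : List ℕ) (h i : ℕ) (a : ℕ) : Prop :=
  (∃ i ∈ F, dist (y i) (y a) < (1 / 2) ^ k) ∧
    ∀ j < w.length, j = i ∨ (1 / 2 : ℝ) ^ h < dist (y a) (y (w.getD j 0))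

/-- The arm counting formula. -/
def Arms (F : List ℕ) (k N : ℕ) : Prop :=
  ∃ z : ℕ, ∃ w : List ℕ, ∃ h : ℕ, w.length = N ∧ ∀ i < w.length, ∀ l : ℕ, Far y F k w h i z ∧
    Relation.ReflTransGen (fun a b => (Far y F k w h i a ∧ Far y F k w h i b) ∧
      dist (y a) (y b) < (1 / 2) ^ l) z (w.getD i 0)

variable {y}

theorem isOpen_Uc (F : List ℕ) (k : ℕ) : IsOpen (Uc y F k) := by
  have : Uc y F k = ⋃ i ∈ {i | i ∈ F}, ball (y i) ((1 / 2) ^ k) := by
    ext x
    simp only [Uc, Set.mem_ofPred_eq, mem_iUnion, mem_ball, exists_prop, dist_comm]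
  rw [this]
  exact isOpen_biUnion fun i _ => isOpen_ball

theorem Uc_eq_of_gap (hy : DenseRange y) {F : List ℕ} {k : ℕ} (hG : Gap y F k) :
    Uc y F k = ⋃ i ∈ {i | i ∈ F}, closedBall (y i) ((1 / 2) ^ (k + 1)) := by
  apply Subset.antisymm
  · have hcl : IsClosed (⋃ i ∈ {i | i ∈ F}, closedBall (y i) ((1 / 2) ^ (k + 1))) :=
      (List.finite_toSet F).isClosed_biUnion fun i _ => isClosed_closedBall
    refine (hy.open_subset_closure_inter (isOpen_Uc F k)).trans ?_
    rw [hcl.closure_subset_iff]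
    rintro _ ⟨hx, j, rfl⟩
    rcases hG j with ⟨i, hi, h⟩ | h
    · simp only [mem_iUnion]
      exact ⟨i, hi, by rw [mem_closedBall, dist_comm]; exact not_lt.1 h⟩
    · obtain ⟨i, hi, h2⟩ := hx
      exact absurd h2 (h i hi)
  · intro x hx
    simp only [mem_iUnion] at hx
    obtain ⟨i, hi, hx⟩ := hx
    refine ⟨i, hi, ?_⟩
    rw [mem_closedBall, dist_comm] at hx
    refine lt_of_le_of_lt hx ?_
    exact pow_lt_pow_right_of_lt_one₀ (by norm_num) (by norm_num) (Nat.lt_succ_self k)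

theorem isClopen_Uc (hy : DenseRange y) {F : List ℕ} {k : ℕ} (hG : Gap y F k) :
    IsClopen (Uc y F k) := by
  refine ⟨?_, isOpen_Uc F k⟩
  rw [Uc_eq_of_gap hy hG]
  exact (List.finite_toSet F).isClosed_biUnion fun i _ => isClosed_closedBall

theorem isCompact_Uc [CompleteSpace Y] (hy : DenseRange y) {F : List ℕ} {k : ℕ} (hG : Gap y F k)
    (hC : Cpt y F k) : IsCompact (Uc y F k) := by
  refine TotallyBounded.isCompact_of_isClosed ?_ (isClopen_Uc hy hG).1
  rw [Metric.totallyBounded_iff]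
  intro ε hε
  obtain ⟨l, hl⟩ := exists_pow_lt_of_lt_one hε (show (1 / 2 : ℝ) < 1 by norm_num)
  obtain ⟨F', hF'⟩ := hC l
  refine ⟨y '' {i | i ∈ F'}, (List.finite_toSet F').image y, ?_⟩
  have hcl : IsClosed (⋃ i ∈ {i | i ∈ F'}, closedBall (y i) ((1 / 2) ^ l)) :=
      (List.finite_toSet F').isClosed_biUnion fun i _ => isClosed_closedBall
  have h1 : Uc y F k ⊆ ⋃ i ∈ {i | i ∈ F'}, closedBall (y i) ((1 / 2) ^ l) := by
    refine (hy.open_subset_closure_inter (isOpen_Uc F k)).trans ?_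
    rw [hcl.closure_subset_iff]
    rintro _ ⟨hx, j, rfl⟩
    rcases hF' j with h | ⟨i, hi, h⟩
    · obtain ⟨i, hi, h2⟩ := hx
      exact absurd h2 (h i hi)
    · simp only [mem_iUnion]
      exact ⟨i, hi, by rw [mem_closedBall, dist_comm]; exact not_lt.1 h⟩
  refine h1.trans ?_
  intro x hx
  simp only [mem_iUnion] at hx ⊢
  obtain ⟨i, hi, hx⟩ := hx
  exact ⟨y i, mem_image_of_mem y hi, lt_of_le_of_lt hx hl⟩

/-- Every compact open set is coded. -/
theorem exists_code (hy : DenseRange y) {U : Set Y} (hU : IsCompact U) (hO : IsOpen U) :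
    ∃ (F : List ℕ) (k : ℕ), Gap y F k ∧ Cpt y F k ∧ Uc y F k = U := by
  classical
  obtain ⟨δ, hδ, hth⟩ := hU.exists_thickening_subset_open hO Subset.rfl
  obtain ⟨k, hk⟩ := exists_pow_lt_of_lt_one hδ (show (1 / 2 : ℝ) < 1 by norm_num)
  have hk1 : (0 : ℝ) < (1 / 2) ^ (k + 1) := by positivity
  obtain ⟨t, ht⟩ := hU.elim_finite_subcover (fun i : {i // y i ∈ U} => ball (y i.1)
    ((1 / 2) ^ (k + 1))) (fun i => isOpen_ball) (by
      intro x hx
      obtain ⟨i, hi⟩ := hy.exists_mem_open (hO.inter isOpen_ball)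
        ⟨x, hx, mem_ball_self hk1⟩
      exact mem_iUnion.2 ⟨⟨i, hi.1⟩, by rw [mem_ball, dist_comm]; exact hi.2⟩)
  set F : List ℕ := (t.image Subtype.val).toList with hF
  have hFm : ∀ i, i ∈ F ↔ ∃ h : y i ∈ U, (⟨i, h⟩ : {i // y i ∈ U}) ∈ t := by
    intro i
    rw [hF, Finset.mem_toList, Finset.mem_image]
    constructor
    · rintro ⟨⟨j, hj⟩, h1, rfl⟩
      exact ⟨hj, h1⟩
    · rintro ⟨h, h1⟩
      exact ⟨_, h1, rfl⟩
  have hcov : ∀ x ∈ U, ∃ i ∈ F, dist (y i) x < (1 / 2) ^ (k + 1) := by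
    intro x hx
    have h1 := ht hx
    simp only [mem_iUnion] at h1
    obtain ⟨⟨i, hi⟩, h2, h3⟩ := h1
    refine ⟨i, (hFm i).2 ⟨hi, h2⟩, ?_⟩
    rw [mem_ball, dist_comm] at h3
    exact h3
  have hUc : Uc y F k = U := by
    apply Subset.antisymm
    · rintro x ⟨i, hi, hx⟩
      obtain ⟨h1, -⟩ := (hFm i).1 hi
      refine hth ?_
      rw [mem_thickening_iff]
      exact ⟨y i, h1, by rw [dist_comm]; exact hx.trans hk⟩
    · intro x hx
      obtain ⟨i, hi, h1⟩ := hcov x hx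
      refine ⟨i, hi, h1.trans ?_⟩
      exact pow_lt_pow_right_of_lt_one₀ (by norm_num) (by norm_num) (Nat.lt_succ_self k)
  refine ⟨F, k, ?_, ?_, hUc⟩
  · intro j
    by_cases hj : y j ∈ U
    · left
      obtain ⟨i, hi, h1⟩ := hcov _ hj
      exact ⟨i, hi, not_lt.2 h1.le⟩
    · right
      intro i hi h1
      exact hj (hUc ▸ (⟨i, hi, h1⟩ : y j ∈ Uc y F k))
  · intro l
    have hl : (0 : ℝ) < (1 / 2) ^ l := by positivity
    obtain ⟨t', ht'⟩ := hU.elim_finite_subcover (fun i : ℕ => ball (y i)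
      ((1 / 2) ^ l)) (fun i => isOpen_ball) (by
      intro x hx
      obtain ⟨i, hi⟩ := hy.exists_mem_open isOpen_ball ⟨x, mem_ball_self hl⟩
      exact mem_iUnion.2 ⟨i, by rw [mem_ball, dist_comm]; exact hi⟩)
    refine ⟨t'.toList, fun j => ?_⟩
    by_cases hj : y j ∈ U
    · right
      have h1 := ht' hj
      simp only [mem_iUnion] at h1
      obtain ⟨i, h2, h3⟩ := h1
      rw [mem_ball, dist_comm] at h3
      exact ⟨i, Finset.mem_toList.2 h2, not_lt.2 h3.le⟩
    · left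
      intro i hi h1
      exact hj (hUc ▸ (⟨i, hi, h1⟩ : y j ∈ Uc y F k))

/-- Chains in a compact set stay in a connected component. -/
theorem chain_component {K : Set Y} (hK : IsCompact K) {a b : Y} (ha : a ∈ K)
    (h : ∀ l : ℕ, Relation.ReflTransGen (fun u v => (u ∈ K ∧ v ∈ K) ∧ dist u v < (1 / 2) ^ l)
      a b) : ∃ C : Set Y, IsPreconnected C ∧ C ⊆ K ∧ a ∈ C ∧ b ∈ C := by
  have hb : b ∈ K := by
    rcases Relation.ReflTransGen.cases_tail (h 0) with h1 | ⟨c, -, h1⟩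
    · rw [h1]; exact ha
    · exact h1.1.2
  have : CompactSpace K := isCompact_iff_compactSpace.1 hK
  refine ⟨Subtype.val '' connectedComponent (⟨a, ha⟩ : K),
    isPreconnected_connectedComponent.image _ continuous_subtype_val.continuousOn, ?_,
    ⟨_, mem_connectedComponent, rfl⟩, ⟨⟨b, hb⟩, ?_, rfl⟩⟩
  · rintro _ ⟨x, -, rfl⟩
    exact x.2
  · rw [connectedComponent_eq_iInter_isClopen, mem_iInter]
    rintro ⟨V, hV, haV⟩
    simp only
    obtain ⟨δ, hδ, hth⟩ := hV.1.isCompact.exists_thickening_subset_open hV.2 Subset.rfl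
    obtain ⟨l, hl⟩ := exists_pow_lt_of_lt_one hδ (show (1 / 2 : ℝ) < 1 by norm_num)
    have key : ∀ c, Relation.ReflTransGen (fun u v => (u ∈ K ∧ v ∈ K) ∧
        dist u v < (1 / 2) ^ l) a c → ∃ hc : c ∈ K, (⟨c, hc⟩ : K) ∈ V := by
      intro c hc
      induction hc with
      | refl => exact ⟨ha, haV⟩
      | tail _ h2 ih =>
        obtain ⟨h3, h4⟩ := ih
        refine ⟨h2.1.2, hth ?_⟩
        rw [mem_thickening_iff]
        refine ⟨_, h4, ?_⟩
        rw [dist_comm]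
        exact h2.2.trans hl
    exact (key b (h l)).2

/-- Preconnected sets are chainable through the dense sequence. -/
theorem chain_dense (hy : DenseRange y) {C O : Set Y} (hC : IsPreconnected C) (hO : IsOpen O)
    (hCO : C ⊆ O) {z w : ℕ} (hz : y z ∈ C) (hw : y w ∈ C) {ε : ℝ} (hε : 0 < ε) :
    Relation.ReflTransGen (fun a b => (y a ∈ O ∧ y b ∈ O) ∧ dist (y a) (y b) < ε) z w := by
  set G : Set Y := {x | ∃ j, y j ∈ O ∧ dist (y j) x < ε / 2 ∧
    Relation.ReflTransGen (fun a b => (y a ∈ O ∧ y b ∈ O) ∧ dist (y a) (y b) < ε) z j} with hG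
  have h1 : ∀ x ∈ C, ∀ x' ∈ C, dist x x' < ε / 4 → x ∈ G → x' ∈ G := by
    rintro x hx x' hx' hd ⟨j, hj, h2, h3⟩
    obtain ⟨j', hj'⟩ := hy.exists_mem_open (hO.inter isOpen_ball)
      ⟨x', hCO hx', mem_ball_self (show 0 < ε / 4 by linarith)⟩
    have h4 := hj'.2
    rw [mem_ball] at h4
    refine ⟨j', hj'.1, by linarith, h3.tail ⟨⟨hj, hj'.1⟩, ?_⟩⟩
    have h5 := dist_triangle (y j) x (y j')
    have h6 := dist_triangle x x' (y j')
    rw [dist_comm x' (y j')] at h6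
    linarith
  -- the two open sets
  set A : Set Y := ⋃ x ∈ G ∩ C, ball x (ε / 8) with hA
  set B : Set Y := ⋃ x ∈ C \ G, ball x (ε / 8) with hB
  have hAo : IsOpen A := isOpen_biUnion fun _ _ => isOpen_ball
  have hBo : IsOpen B := isOpen_biUnion fun _ _ => isOpen_ball
  have hdis : Disjoint A B := by
    rw [Set.disjoint_left]
    intro x hxA hxB
    simp only [hA, hB, mem_iUnion, exists_prop] at hxA hxB
    obtain ⟨u, ⟨hu1, hu2⟩, hu3⟩ := hxA
    obtain ⟨v, ⟨hv1, hv2⟩, hv3⟩ := hxB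
    rw [mem_ball] at hu3 hv3
    refine hv2 (h1 u hu2 v hv1 ?_ hu1)
    have h5 := dist_triangle u x v
    rw [dist_comm u x] at h5
    linarith
  have hcov : C ⊆ A ∪ B := by
    intro x hx
    by_cases hxG : x ∈ G
    · left
      simp only [hA, mem_iUnion, exists_prop]
      exact ⟨x, ⟨hxG, hx⟩, mem_ball_self (by linarith)⟩
    · right
      simp only [hB, mem_iUnion, exists_prop]
      exact ⟨x, ⟨hx, hxG⟩, mem_ball_self (by linarith)⟩
  have hzG : y z ∈ G := ⟨z, hCO hz, by rw [dist_self]; linarith, Relation.ReflTransGen.refl⟩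
  have hzA : y z ∈ A := by
    simp only [hA, mem_iUnion, exists_prop]
    exact ⟨y z, ⟨hzG, hz⟩, mem_ball_self (by linarith)⟩
  have hCA : C ⊆ A := by
    rcases hC.subset_or_subset hAo hBo hdis hcov with h | h
    · exact h
    · exact absurd hzA fun h' => Set.disjoint_left.1 hdis h' (h hz)
  have hwG : y w ∈ G := by
    by_contra hc
    have : y w ∈ B := by
      simp only [hB, mem_iUnion, exists_prop]
      exact ⟨y w, ⟨hw, hc⟩, mem_ball_self (by linarith)⟩
    exact Set.disjoint_left.1 hdis (hCA hw) this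
  obtain ⟨j, hj, h2, h3⟩ := hwG
  exact h3.tail ⟨⟨hj, hCO hw⟩, by linarith⟩

/-- The arm counting formula gives configurations. -/
theorem config_of_arms {F : List ℕ} {k N : ℕ} (hU : IsCompact (Uc y F k))
    (h : Arms y F k N) : ∃ (z : Y) (w : Fin N → Y) (C : Fin N → Set Y),
      (∀ i, IsPreconnected (C i)) ∧ (∀ i, C i ⊆ Uc y F k) ∧ (∀ i, z ∈ C i) ∧ (∀ i, w i ∈ C i) ∧
      ∀ i j, j ≠ i → w j ∉ C i := by
  obtain ⟨z, w, h, hN, hw⟩ := h
  subst hN
  have key : ∀ i : Fin w.length, ∃ C : Set Y, IsPreconnected C ∧ C ⊆ Uc y F k ∧ y z ∈ C ∧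
      y (w.getD i 0) ∈ C ∧ ∀ j : Fin w.length, j ≠ i → y (w.getD j 0) ∉ C := by
    intro i
    set K : Set Y := Uc y F k ∩ {x | ∀ j : Fin w.length, j ≠ i →
      (1 / 2) ^ h ≤ dist x (y (w.getD j 0))} with hK
    have hKc : IsCompact K := by
      refine hU.inter_right ?_
      have : {x | ∀ j : Fin w.length, j ≠ i → (1 / 2) ^ h ≤ dist x (y (w.getD j 0))} =
          ⋂ j : {j : Fin w.length // j ≠ i}, {x | (1 / 2) ^ h ≤ dist x (y (w.getD j.1 0))} := by
        ext x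
        simp only [Set.mem_ofPred_eq, mem_iInter, Subtype.forall]
      rw [this]
      exact isClosed_iInter fun j => isClosed_le continuous_const
        (continuous_id.dist continuous_const)
    have hFar : ∀ a, Far y F k w h i a → y a ∈ K := by
      rintro a ⟨h1, h2⟩
      refine ⟨h1, fun j hj => ?_⟩
      rcases h2 j j.2 with h3 | h3
      · exact absurd (Fin.ext h3) hj
      · exact h3.le
    obtain ⟨C, c1, c2, c3, c4⟩ := chain_component (a := y z) (b := y (w.getD i 0)) hKc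
      (hFar z (hw i i.2 0).1) (by
        intro l
        have h1 := (hw i i.2 l).2
        refine Relation.ReflTransGen.lift y ?_ _ _ h1
        rintro a b ⟨⟨h2, h3⟩, h4⟩
        exact ⟨⟨hFar a h2, hFar b h3⟩, h4⟩)
    refine ⟨C, c1, fun x hx => (c2 hx).1, c3, c4, fun j hj hc => ?_⟩
    have h5 := (c2 hc).2 j hj
    rw [dist_self] at h5
    have : (0 : ℝ) < (1 / 2) ^ h := by positivity
    linarith
  choose C c1 c2 c3 c4 c5 using key
  exact ⟨y z, fun i => y (w.getD i 0), C, c1, c2, c3, c4, c5⟩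

/-- Configurations with open sets give the arm counting formula. -/
theorem arms_of_config (hy : DenseRange y) {F : List ℕ} {k N : ℕ} {Z : Set Y}
    {O Dc : ℕ → Set Y} (hZ : IsOpen Z) (hZn : Z.Nonempty) (hO : ∀ i < N, IsOpen (O i))
    (hOn : ∀ i < N, (O i).Nonempty) (hD : ∀ i < N, IsPreconnected (Dc i))
    (hDU : ∀ i < N, Dc i ⊆ Uc y F k) (hZD : ∀ i < N, Z ⊆ Dc i) (hOD : ∀ i < N, O i ⊆ Dc i)
    (hdis : ∀ i < N, ∀ j < N, j ≠ i → Disjoint (O j) (Dc i)) : Arms y F k N := by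
  obtain ⟨z, hz⟩ := hy.exists_mem_open hZ hZn
  have h1 : ∀ i, ∃ w : ℕ, i < N → y w ∈ O i := by
    intro i
    by_cases hi : i < N
    · obtain ⟨w, hw⟩ := hy.exists_mem_open (hO i hi) (hOn i hi)
      exact ⟨w, fun _ => hw⟩
    · exact ⟨0, fun h => absurd h hi⟩
  choose w hw using h1
  have h2 : ∀ i, ∃ h : ℕ, i < N → closedBall (y (w i)) ((1 / 2) ^ h) ⊆ O i := by
    intro i
    by_cases hi : i < N
    · obtain ⟨r, hr, hb⟩ := Metric.isOpen_iff.1 (hO i hi) _ (hw i hi)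
      obtain ⟨l, hl⟩ := exists_pow_lt_of_lt_one hr (show (1 / 2 : ℝ) < 1 by norm_num)
      exact ⟨l, fun _ => (closedBall_subset_ball hl).trans hb⟩
    · exact ⟨0, fun h => absurd h hi⟩
  choose h0 hh0 using h2
  set h : ℕ := (Finset.range N).sup h0 with hh
  have h3 : ∀ i < N, closedBall (y (w i)) ((1 / 2) ^ h) ⊆ O i := by
    intro i hi
    refine (closedBall_subset_closedBall ?_).trans (hh0 i hi)
    exact pow_le_pow_of_le_one (by norm_num) (by norm_num)
      (Finset.le_sup (f := h0) (Finset.mem_range.2 hi))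
  set wl : List ℕ := (List.range N).map w with hwl
  have hlen : wl.length = N := by simp [hwl]
  have hget : ∀ i < N, wl.getD i 0 = w i := by
    intro i hi
    rw [hwl, List.getD_eq_getElem?_getD, List.getElem?_map, List.getElem?_range hi]
    rfl
  have hFar : ∀ i < N, ∀ a, (y a ∈ Uc y F k ∩ {x | ∀ j : Fin N, j.1 = i ∨
      (1 / 2 : ℝ) ^ h < dist x (y (w j))}) ↔ Far y F k wl h i a := by
    intro i hi a
    constructor
    · rintro ⟨h4, h5⟩
      refine ⟨h4, fun j hj => ?_⟩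
      rw [hlen] at hj
      rw [hget j hj]
      exact h5 ⟨j, hj⟩
    · rintro ⟨h4, h5⟩
      refine ⟨h4, fun j => ?_⟩
      have h6 := h5 j (by rw [hlen]; exact j.2)
      rwa [hget j j.2] at h6
  have hDF : ∀ i < N, Dc i ⊆ Uc y F k ∩ {x | ∀ j : Fin N, j.1 = i ∨
      (1 / 2 : ℝ) ^ h < dist x (y (w j))} := by
    intro i hi x hx
    refine ⟨hDU i hi hx, fun j => ?_⟩
    by_cases hj : j.1 = i
    · exact Or.inl hj
    · right
      by_contra hc
      exact Set.disjoint_left.1 (hdis i hi j j.2 hj) (h3 j j.2 (mem_closedBall.2 (not_lt.1 hc))) hx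
  refine ⟨z, wl, h, hlen, fun i hi l => ?_⟩
  rw [hlen] at hi
  have hopen : IsOpen (Uc y F k ∩ {x | ∀ j : Fin N, j.1 = i ∨
      (1 / 2 : ℝ) ^ h < dist x (y (w j))}) := by
    refine (isOpen_Uc F k).inter ?_
    have : {x | ∀ j : Fin N, j.1 = i ∨ (1 / 2 : ℝ) ^ h < dist x (y (w j))} =
          ⋂ j : {j : Fin N // j.1 ≠ i}, {x | (1 / 2 : ℝ) ^ h < dist x (y (w j.1))} := by
        ext x
        simp only [Set.mem_ofPred_eq, mem_iInter, Subtype.forall, ne_eq]
        exact ⟨fun h1 j hj => (h1 j).resolve_left hj, fun h1 j => by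
          by_cases hj : j.1 = i
          · exact Or.inl hj
          · exact Or.inr (h1 j hj)⟩
    rw [this]
    exact isOpen_iInter_of_finite fun j => isOpen_lt continuous_const
        (continuous_id.dist continuous_const)
  have hzD : y z ∈ Dc i := hZD i hi hz
  have hwD : y (wl.getD i 0) ∈ Dc i := by
    rw [hget i hi]
    exact hOD i hi (hw i hi)
  refine ⟨(hFar i hi z).1 (hDF i hi hzD), ?_⟩
  have h7 := chain_dense hy (hD i hi) hopen (hDF i hi) hzD hwD
    (show (0 : ℝ) < (1 / 2) ^ l by positivity)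
  refine Relation.ReflTransGen.mono ?_ _ _ h7
  rintro a b ⟨⟨h8, h9⟩, h10⟩
  exact ⟨⟨(hFar i hi a).1 h8, (hFar i hi b).1 h9⟩, h10⟩

end

end Pool.Agent.H54PS
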