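import Mathlib

set_option autoImplicit false

namespace Pool.Agent.H54PS

open Set Filter Topology Metric

/-- The space: disjoint union over `p` of pieces.  The piece number `p` is a subset of a hedgehog:
its points have an arm number `al` and a radius `t`; it consists of the full arms `al ≤ M p`
(glued together at radius `0`, the point of radius `0` has the label `al = 0`) and of isolated
points, one at radius `2 ^ (-a)` on the arm number `M p + 1 + ⟨a, i⟩` if `W p a i` holds. -/
@[ext] structure Hog (M : ℕ → ℕ) (W : ℕ → ℕ → ℕ → Prop) where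
  p : ℕ
  al : ℕ
  t : ℝ
  ok : (al ≤ M p ∧ 0 ≤ t ∧ t ≤ 1 ∧ (t = 0 → al = 0)) ∨
    ∃ a i, al = M p + 1 + Nat.pair a i ∧ W p a i ∧ t = (1 / 2) ^ a

variable {M : ℕ → ℕ} {W : ℕ → ℕ → ℕ → Prop}

namespace Hog

theorem nonneg (x : Hog M W) : 0 ≤ x.t := by
  rcases x.ok with h | ⟨a, i, h1, h2, h3⟩
  · exact h.2.1
  · rw [h3]; positivity

theorem le_one (x : Hog M W) : x.t ≤ 1 := by
  rcases x.ok with h | ⟨a, i, h1, h2, h3⟩
  · exact h.2.2.1
  · rw [h3]; exact pow_le_one₀ (by norm_num) (by norm_num)

theorem al_zero (x : Hog M W) (h0 : x.t = 0) : x.al = 0 := by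
  rcases x.ok with h | ⟨a, i, h1, h2, h3⟩
  · exact h.2.2.2 h0
  · exfalso
    have : (0 : ℝ) < (1 / 2) ^ a := by positivity
    rw [← h3, h0] at this
    exact lt_irrefl _ this

/-- The distance: two points of the same piece have the distance in the hedgehog, two points of
different pieces have distance `2`. -/
noncomputable def hd (x y : Hog M W) : ℝ :=
  if x.p = y.p then (if x.al = y.al then |x.t - y.t| else x.t + y.t) else 2

theorem hd_self (x : Hog M W) : hd x x = 0 := by simp [hd]

theorem hd_comm (x y : Hog M W) : hd x y = hd y x := by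
  unfold hd
  simp only [eq_comm (a := x.p), eq_comm (a := x.al), abs_sub_comm x.t, add_comm x.t]

theorem hd_le_two (x y : Hog M W) : hd x y ≤ 2 := by
  have h1 := x.nonneg; have h2 := x.le_one; have h3 := y.nonneg; have h4 := y.le_one
  unfold hd
  split_ifs
  · rw [abs_le]; constructor <;> linarith
  · linarith
  · exact le_rfl

theorem hd_nonneg (x y : Hog M W) : 0 ≤ hd x y := by
  have h1 := x.nonneg; have h3 := y.nonneg
  unfold hd
  split_ifs
  · exact abs_nonneg _
  · linarith
  · norm_num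

theorem hd_triangle (x y z : Hog M W) : hd x z ≤ hd x y + hd y z := by
  have h1 := x.nonneg; have h2 := y.nonneg; have h3 := z.nonneg
  by_cases hxy : x.p = y.p
  · by_cases hyz : y.p = z.p
    · have hxz : x.p = z.p := hxy.trans hyz
      unfold hd
      rw [if_pos hxy, if_pos hyz, if_pos hxz]
      by_cases a1 : x.al = y.al
      · by_cases a2 : y.al = z.al
        · rw [if_pos a1, if_pos a2, if_pos (a1.trans a2)]
          exact abs_sub_le _ _ _
        · rw [if_pos a1, if_neg a2, if_neg (a1.trans_ne a2)]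
          have := le_abs_self (x.t - y.t)
          linarith
      · by_cases a2 : y.al = z.al
        · rw [if_neg a1, if_pos a2, if_neg (fun h => a1 (h.trans a2.symm))]
          have := neg_abs_le (y.t - z.t)
          linarith
        · rw [if_neg a1, if_neg a2]
          split_ifs
          · rw [abs_le]; constructor <;> linarith
          · linarith
    · have e1 : hd y z = 2 := by unfold hd; rw [if_neg hyz]
      have e2 := hd_nonneg x y
      have e3 := hd_le_two x z
      linarith
  · have e1 : hd x y = 2 := by unfold hd; rw [if_neg hxy]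
    have e2 := hd_nonneg y z
    have e3 := hd_le_two x z
    linarith

theorem eq_of_hd {x y : Hog M W} (h : hd x y = 0) : x = y := by
  have h1 := x.nonneg; have h2 := y.nonneg
  unfold hd at h
  split_ifs at h with h3 h4
  · exact Hog.ext h3 h4 (by rw [abs_eq_zero] at h; linarith)
  · have h5 : x.t = 0 := by linarith
    have h6 : y.t = 0 := by linarith
    exact absurd ((x.al_zero h5).trans (y.al_zero h6).symm) h4
  · norm_num at h

noncomputable instance : MetricSpace (Hog M W) where
  dist x y := hd x y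
  dist_self x := hd_self _
  dist_comm x y := hd_comm _ _
  dist_triangle x y z := hd_triangle x y z
  eq_of_dist_eq_zero {x y} h := eq_of_hd h

theorem dist_def (x y : Hog M W) : dist x y =
    if x.p = y.p then (if x.al = y.al then |x.t - y.t| else x.t + y.t) else 2 :=
  rfl

theorem same_piece {x y : Hog M W} (h : dist x y < 2) : x.p = y.p := by
  rw [dist_def] at h
  by_contra hc
  rw [if_neg hc] at h
  exact lt_irrefl _ h

theorem radius_lip (x y : Hog M W) : |x.t - y.t| ≤ dist x y := by
  have h1 := x.nonneg; have h2 := y.nonneg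
  have h3 := x.le_one; have h4 := y.le_one
  rw [dist_def]
  split_ifs
  · exact le_rfl
  · rw [abs_le]; constructor <;> linarith
  · rw [abs_le]; constructor <;> linarith

theorem same_arm {x y : Hog M W} (h : dist x y < x.t) : x.p = y.p ∧ x.al = y.al := by
  have h1 := x.le_one
  have h2 : x.p = y.p := same_piece (by linarith)
  refine ⟨h2, ?_⟩
  rw [dist_def, if_pos h2] at h
  by_contra hc
  rw [if_neg hc] at h
  have := y.nonneg
  linarith

theorem continuous_radius : Continuous fun x : Hog M W => x.t := by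
  refine (LipschitzWith.of_dist_le_mul (K := 1) fun x y => ?_).continuous
  rw [Real.dist_eq, NNReal.coe_one, one_mul]
  exact radius_lip x y

/-- On the extra arms the radius is determined by the arm. -/
theorem extra {x y : Hog M W} (h : x.p = y.p) (h2 : x.al = y.al)
    (h3 : M x.p < x.al) : x = y := by
  refine Hog.ext h h2 ?_
  have h4 : M x.p = M y.p := by rw [h]
  rcases x.ok with hx | ⟨a, i, e1, e2, e3⟩
  · omega
  · rcases y.ok with hy | ⟨a', i', f1, f2, f3⟩
    · omega
    · have : Nat.pair a i = Nat.pair a' i' := by omega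
      rw [Nat.pair_eq_pair] at this
      rw [e3, f3, this.1]

/-- The centre of a piece. -/
def ctr (M : ℕ → ℕ) (W : ℕ → ℕ → ℕ → Prop) (p : ℕ) : Hog M W :=
  ⟨p, 0, 0, Or.inl ⟨Nat.zero_le _, le_rfl, zero_le_one, fun _ => rfl⟩⟩

@[simp] theorem ctr_p (p : ℕ) : (ctr M W p).p = p := rfl
@[simp] theorem ctr_al (p : ℕ) : (ctr M W p).al = 0 := rfl
@[simp] theorem ctr_t (p : ℕ) : (ctr M W p).t = 0 := rfl

theorem dist_ctr (x : Hog M W) : dist x (ctr M W x.p) = x.t := by
  have h2 := x.nonneg
  rw [dist_def]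
  simp [abs_of_nonneg h2]

theorem eq_ctr {x : Hog M W} (h : x.t = 0) : x = ctr M W x.p := by
  rw [← dist_eq_zero, dist_ctr, h]

instance : CompleteSpace (Hog M W) := by
  refine Metric.complete_of_cauchySeq_tendsto fun u hu => ?_
  -- the radii form a Cauchy sequence
  have hr : CauchySeq fun n => (u n).t := by
    rw [Metric.cauchySeq_iff'] at hu ⊢
    intro ε hε
    obtain ⟨N, hN⟩ := hu ε hε
    refine ⟨N, fun n hn => lt_of_le_of_lt ?_ (hN n hn)⟩
    rw [Real.dist_eq]
    exact radius_lip _ _
  obtain ⟨τ, hτ⟩ := cauchySeq_tendsto_of_complete hr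
  obtain ⟨N0, hN0⟩ := Metric.cauchySeq_iff.1 hu 2 (by norm_num)
  have hτ0 : 0 ≤ τ := ge_of_tendsto' hτ fun n => (u n).nonneg
  rcases hτ0.eq_or_lt with h0 | h0
  · subst h0
    refine ⟨ctr M W (u N0).p, ?_⟩
    rw [tendsto_iff_dist_tendsto_zero]
    refine hτ.congr' ?_
    filter_upwards [eventually_ge_atTop N0] with n hn
    have h1 : (u n).p = (u N0).p := same_piece (hN0 n hn N0 le_rfl)
    rw [← h1, dist_ctr]
  · obtain ⟨N1, hN1⟩ := Metric.cauchySeq_iff.1 hu (τ / 2) (by linarith)
    have h2 : ∀ᶠ n in atTop, τ / 2 < (u n).t := hτ.eventually (lt_mem_nhds (by linarith))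
    obtain ⟨N2, hN2⟩ := eventually_atTop.1 h2
    set N := max N1 N2 with hN
    have h3 : ∀ n ≥ N, (u N).p = (u n).p ∧ (u N).al = (u n).al := by
      intro n hn
      refine same_arm ?_
      have h4 := hN1 N (le_max_left _ _) n (le_trans (le_max_left _ _) hn)
      have h5 := hN2 N (le_max_right _ _)
      linarith
    by_cases h4 : (u N).al ≤ M (u N).p
    · have hτ1 : τ ≤ 1 := le_of_tendsto' hτ fun n => (u n).le_one
      refine ⟨⟨(u N).p, (u N).al, τ, Or.inl ⟨h4, h0.le, hτ1, fun h => absurd h h0.ne'⟩⟩, ?_⟩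
      rw [tendsto_iff_dist_tendsto_zero]
      have h5 : Tendsto (fun n => |(u n).t - τ|) atTop (𝓝 0) := by
        have := tendsto_iff_dist_tendsto_zero.1 hτ
        simpa [Real.dist_eq] using this
      refine h5.congr' ?_
      filter_upwards [eventually_ge_atTop N] with n hn
      rw [dist_def]
      obtain ⟨h6, h7⟩ := h3 n hn
      simp only [h6, h7, if_true]
    · refine ⟨u N, ?_⟩
      refine tendsto_const_nhds.congr' ?_
      filter_upwards [eventually_ge_atTop N] with n hn
      obtain ⟨h6, h7⟩ := h3 n hn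
      exact extra h6 h7 (not_le.1 h4)

/-- The piece number `p`. -/
def piece (M : ℕ → ℕ) (W : ℕ → ℕ → ℕ → Prop) (p : ℕ) : Set (Hog M W) := {x | x.p = p}

theorem isClopen_piece (p : ℕ) : IsClopen (piece M W p) := by
  constructor
  · rw [← isOpen_compl_iff, Metric.isOpen_iff]
    intro x hx
    refine ⟨2, by norm_num, fun y hy h => hx ?_⟩
    have h1 := same_piece (mem_ball.1 hy)
    exact h1.symm.trans h
  · rw [Metric.isOpen_iff]
    intro x hx
    refine ⟨2, by norm_num, fun y hy => ?_⟩
    have h1 := same_piece (mem_ball.1 hy)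
    exact h1.trans hx

/-- The part of arm `α` of the piece `p` at radius greater than `s`. -/
def outer (M : ℕ → ℕ) (W : ℕ → ℕ → ℕ → Prop) (p α : ℕ) (s : ℝ) : Set (Hog M W) :=
  {x | x.p = p ∧ x.al = α ∧ s < x.t}

theorem isOpen_outer (p α : ℕ) {s : ℝ} (hs : 0 ≤ s) : IsOpen (outer M W p α s) := by
  rw [Metric.isOpen_iff]
  rintro x ⟨h1, h2, h3⟩
  refine ⟨x.t - s, by linarith, fun y hy => ?_⟩
  rw [mem_ball, dist_comm] at hy
  obtain ⟨h4, h5⟩ := same_arm (x := x) (y := y) (by linarith)
  refine ⟨h4.symm.trans h1, h5.symm.trans h2, ?_⟩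
  have := radius_lip x y
  have := le_abs_self (x.t - y.t)
  linarith

theorem isOpen_inner (p α : ℕ) {s : ℝ} (hs : 0 < s) :
    IsOpen {x : Hog M W | ¬ (x.p = p ∧ x.al = α ∧ s ≤ x.t)} := by
  rw [Metric.isOpen_iff]
  intro x hx
  by_cases h1 : x.p = p
  · by_cases h2 : x.al = α
    · have h3 : x.t < s := by
        by_contra hc
        exact hx ⟨h1, h2, not_lt.1 hc⟩
      refine ⟨s - x.t, by linarith, fun y hy hc => ?_⟩
      rw [mem_ball] at hy
      have h4 := radius_lip y x
      have h5 := le_abs_self (y.t - x.t)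
      have h6 := hc.2.2
      linarith
    · refine ⟨s, hs, fun y hy hc => ?_⟩
      obtain ⟨h3, h4, h5⟩ := hc
      rw [mem_ball] at hy
      obtain ⟨h6, h7⟩ := same_arm (x := y) (y := x) (by linarith)
      exact h2 (h7.symm.trans h4)
  · refine ⟨2, by norm_num, fun y hy hc => ?_⟩
    have h2 := same_piece (mem_ball.1 hy)
    exact h1 (h2.symm.trans hc.1)

theorem isOpen_singleton {x : Hog M W} (h : M x.p < x.al) : IsOpen ({x} : Set (Hog M W)) := by
  rw [Metric.isOpen_iff]
  rintro y rfl
  have h0 : 0 < y.t := by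
    rcases y.nonneg.eq_or_lt with h0 | h0
    · have := y.al_zero h0.symm
      omega
    · exact h0
  refine ⟨y.t, h0, fun z hz => ?_⟩
  rw [mem_ball, dist_comm] at hz
  obtain ⟨h6, h7⟩ := same_arm hz
  exact (extra h6 h7 h).symm

/-- A preconnected set stays within a piece. -/
theorem subset_piece {C : Set (Hog M W)} (hC : IsPreconnected C) {z : Hog M W} (hz : z ∈ C) :
    C ⊆ piece M W z.p := by
  exact hC.subset_isClopen (isClopen_piece z.p) ⟨z, hz, rfl⟩

/-- A preconnected set avoiding a point `w` is on one side of it. -/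
theorem side {C : Set (Hog M W)} (hC : IsPreconnected C) {w : Hog M W} (hw : w ∉ C)
    (h0 : 0 < w.t) : C ⊆ outer M W w.p w.al w.t ∨
      C ⊆ {x : Hog M W | ¬ (x.p = w.p ∧ x.al = w.al ∧ w.t ≤ x.t)} := by
  refine hC.subset_or_subset (isOpen_outer _ _ h0.le) (isOpen_inner _ _ h0) ?_ ?_
  · rw [Set.disjoint_left]
    rintro x ⟨h1, h2, h3⟩ h4
    exact h4 ⟨h1, h2, h3.le⟩
  · intro x hx
    by_cases h : x.p = w.p ∧ x.al = w.al ∧ w.t ≤ x.t
    · left
      refine ⟨h.1, h.2.1, lt_of_le_of_ne h.2.2 fun h5 => hw ?_⟩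
      have : x = w := Hog.ext h.1 h.2.1 h5.symm
      rw [← this]; exact hx
    · right; exact h

/-- A preconnected set avoiding the centre is in one arm. -/
theorem side_ctr {C : Set (Hog M W)} (hC : IsPreconnected C) {z : Hog M W} (hz : z ∈ C)
    (hw : ctr M W z.p ∉ C) : C ⊆ outer M W z.p z.al 0 := by
  have h1 := subset_piece hC hz
  have h2 : IsOpen {x : Hog M W | (x.al ≠ z.al ∧ 0 < x.t) ∨ x.p ≠ z.p} := by
    have : {x : Hog M W | (x.al ≠ z.al ∧ 0 < x.t) ∨ x.p ≠ z.p} =
        (⋃ q : {q : ℕ × ℕ // q.2 ≠ z.al}, outer M W q.1.1 q.1.2 0) ∪ (piece M W z.p)ᶜ := by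
      ext x
      simp only [mem_union, mem_iUnion, Set.mem_ofPred_eq, outer, mem_compl_iff, piece]
      constructor
      · rintro (⟨h3, h4⟩ | h3)
        · exact Or.inl ⟨⟨(x.p, x.al), h3⟩, rfl, rfl, h4⟩
        · exact Or.inr h3
      · rintro (⟨⟨q, hq⟩, h3, h4, h5⟩ | h3)
        · left; exact ⟨by rw [h4]; exact hq, h5⟩
        · right; exact h3
    rw [this]
    exact (isOpen_iUnion fun q => isOpen_outer _ _ le_rfl).union
      (isClopen_piece _).compl.isOpen
  have h3 := hC.subset_or_subset (isOpen_outer (M := M) (W := W) z.p z.al le_rfl) h2 ?_ ?_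
  · rcases h3 with h3 | h3
    · exact h3
    · exfalso
      rcases h3 hz with h4 | h4
      · exact h4.1 rfl
      · exact h4 rfl
  · rw [Set.disjoint_left]
    rintro x ⟨h3, h4, h5⟩ (h6 | h6)
    · exact h6.1 h4
    · exact h6 h3
  · intro x hx
    have hp : x.p = z.p := h1 hx
    have h0 : 0 < x.t := by
      rcases x.nonneg.eq_or_lt with h0 | h0
      · exfalso
        have := eq_ctr h0.symm
        rw [hp] at this
        rw [this] at hx
        exact hw hx
      · exact h0
    by_cases h4 : x.al = z.al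
    · left; exact ⟨hp, h4, h0⟩
    · right; left; exact ⟨h4, h0⟩

/-- The main topological lemma about configurations in stars. -/
theorem config {N : ℕ} (hN : 3 ≤ N) {z : Hog M W} {w : Fin N → Hog M W}
    {C : Fin N → Set (Hog M W)} (hC : ∀ i, IsPreconnected (C i)) (hz : ∀ i, z ∈ C i)
    (hw : ∀ i, w i ∈ C i) (hd : ∀ i j, j ≠ i → w j ∉ C i) :
    N ≤ M z.p + 1 ∧ ∃ i, ctr M W z.p ∈ C i := by
  have hp : ∀ i, (w i).p = z.p := fun i => subset_piece (hC i) (hz i) (hw i)
  -- two further indices
  have hothers : ∀ i : Fin N, ∃ j k : Fin N, j ≠ i ∧ k ≠ i ∧ j ≠ k := by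
    intro i
    have h3 : 2 < Fintype.card (Fin N) := by rw [Fintype.card_fin]; omega
    obtain ⟨a, b, c, hab, hac, hbc⟩ := Fintype.two_lt_card_iff.1 h3
    by_cases h1 : a = i
    · exact ⟨b, c, fun h => hab (h1.trans h.symm), fun h => hac (h1.trans h.symm), hbc⟩
    · by_cases h2 : b = i
      · exact ⟨a, c, h1, fun h => hbc (h2.trans h.symm), hac⟩
      · exact ⟨a, b, h1, h2, hab⟩
  have hne : ∀ i j, i ≠ j → w i ≠ w j := by
    intro i j hij h
    exact hd j i hij (h ▸ hw j)
  -- no `z` strictly beyond a `w i` of positive radius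
  have key1 : ∀ i, 0 < (w i).t → z ∉ outer M W (w i).p (w i).al (w i).t := by
    intro i hi hzi
    have h1 : ∀ j, j ≠ i → w j ∈ outer M W (w i).p (w i).al (w i).t := by
      intro j hj
      rcases side (hC j) (hd j i (Ne.symm hj)) hi with h | h
      · exact h (hw j)
      · exfalso
        exact h (hz j) ⟨hzi.1, hzi.2.1, hzi.2.2.le⟩
    obtain ⟨j, k, hj, hk, hjk⟩ := hothers i
    -- symmetric argument
    have h2 : ∀ j k, j ≠ i → k ≠ i → j ≠ k → (w j).t < (w k).t → False := by
      intro j k hj hk hjk hlt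
      obtain ⟨a1, a2, a3⟩ := h1 j hj
      obtain ⟨b1, b2, b3⟩ := h1 k hk
      have hj0 : 0 < (w j).t := lt_trans hi a3
      rcases side (hC k) (hd k j hjk) hj0 with h | h
      · have h3 := h (hz k)
        rcases side (hC i) (hd i j hj) hj0 with h' | h'
        · have h4 := h' (hw i)
          have h5 := h4.2.2
          linarith
        · exact h' (hz i) ⟨h3.1, h3.2.1, h3.2.2.le⟩
      · exact h (hw k) ⟨b1.trans a1.symm, b2.trans a2.symm, hlt.le⟩
    rcases lt_trichotomy (w j).t (w k).t with h | h | h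
    · exact h2 j k hj hk hjk h
    · obtain ⟨a1, a2, a3⟩ := h1 j hj
      obtain ⟨b1, b2, b3⟩ := h1 k hk
      exact hne j k hjk (Hog.ext (a1.trans b1.symm) (a2.trans b2.symm) h)
    · exact h2 k j hk hj hjk.symm h
  -- hence no `w j` beyond a `w i`
  have key2 : ∀ i j, j ≠ i → 0 < (w i).t → w j ∉ outer M W (w i).p (w i).al (w i).t := by
    intro i j hj hi hji
    rcases side (hC j) (hd j i (Ne.symm hj)) hi with h | h
    · exact key1 i hi (h (hz j))
    · exact h (hw j) ⟨hji.1, hji.2.1, hji.2.2.le⟩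
  -- distinct arms
  have key3 : ∀ i j, i ≠ j → 0 < (w i).t → 0 < (w j).t → (w i).al ≠ (w j).al := by
    intro i j hij hi hj hal
    rcases lt_trichotomy (w i).t (w j).t with h | h | h
    · exact key2 i j hij.symm hi ⟨(hp j).trans (hp i).symm, hal.symm, h⟩
    · exact hne i j hij (Hog.ext ((hp i).trans (hp j).symm) hal h)
    · exact key2 j i hij hj ⟨(hp i).trans (hp j).symm, hal, h⟩
  -- the centre is not among the `w i`
  have key4 : ∀ i, 0 < (w i).t := by
    intro i
    rcases (w i).nonneg.eq_or_lt with h0 | h0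
    · exfalso
      have h1 := eq_ctr h0.symm
      rw [hp] at h1
      obtain ⟨j, k, hj, hk, hjk⟩ := hothers i
      have h2 : ∀ j, j ≠ i → w j ∈ outer M W z.p z.al 0 := by
        intro j hj
        refine side_ctr (hC j) (hz j) ?_ (hw j)
        rw [← h1]
        exact hd j i (Ne.symm hj)
      obtain ⟨a1, a2, a3⟩ := h2 j hj
      obtain ⟨b1, b2, b3⟩ := h2 k hk
      exact key3 j k hjk a3 b3 (a2.trans b2.symm)
    · exact h0
  -- the centre is in some `C i`
  have key5 : ∃ i, ctr M W z.p ∈ C i := by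
    by_contra hc
    simp only [not_exists] at hc
    have h2 : ∀ j, w j ∈ outer M W z.p z.al 0 := fun j => side_ctr (hC j) (hz j) (hc j) (hw j)
    obtain ⟨j, k, hj, hk, hjk⟩ := hothers ⟨0, by omega⟩
    exact key3 j k hjk (key4 _) (key4 _) ((h2 j).2.1.trans (h2 k).2.1.symm)
  -- the arms are full arms
  have key6 : ∀ i, (w i).al < M z.p + 1 := by
    intro i
    by_contra hc
    have h1 : M (w i).p < (w i).al := by rw [hp]; omega
    have h2 := (hC i).subset_isClopen ⟨isClosed_singleton, isOpen_singleton h1⟩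
      ⟨w i, hw i, rfl⟩ (hz i)
    obtain ⟨j, k, hj, hk, hjk⟩ := hothers i
    rw [Set.mem_singleton_iff] at h2
    exact hd j i (Ne.symm hj) (h2 ▸ hz j)
  refine ⟨?_, key5⟩
  have := Fintype.card_le_of_injective (fun i : Fin N => (⟨(w i).al, key6 i⟩ : Fin (M z.p + 1)))
    (fun i j h => by
      by_contra hij
      exact key3 i j hij (key4 i) (key4 j) (Fin.mk.inj_iff.1 h))
  simpa using this

end Hog

end Pool.Agent.H54PS
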