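import Pool.Agent.H54PS.Space

set_option autoImplicit false

namespace Pool.Agent.H54PS

open Set Filter Topology Metric

variable {M : ℕ → ℕ} {W : ℕ → ℕ → ℕ → Prop}

namespace Hog

/-- The arm number `α` as a path. -/
noncomputable def arm (W : ℕ → ℕ → ℕ → Prop) {p α : ℕ} (hα : α ≤ M p) (s : ℝ) : Hog M W :=
  if h : 0 < s then ⟨p, α, min s 1, Or.inl ⟨hα, (lt_min h one_pos).le, min_le_right _ _,
    fun h' => absurd h' (lt_min h one_pos).ne'⟩⟩ else ctr M W p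

theorem arm_lip {p α : ℕ} (hα : α ≤ M p) (s t : ℝ) : dist (arm W hα s) (arm W hα t) ≤ |s - t| := by
  have h1 : ∀ s : ℝ, 0 < s → 0 < min s 1 := fun s hs => lt_min hs one_pos
  unfold arm
  by_cases hs : 0 < s <;> by_cases ht : 0 < t
  · rw [dif_pos hs, dif_pos ht, dist_def]
    simp only [if_true]
    have := abs_min_sub_min_le_max s 1 t 1
    simpa using this
  · rw [dif_pos hs, dif_neg ht, dist_def]
    have h2 := h1 s hs
    have h3 := min_le_left s 1
    have h4 := le_abs_self (s - t)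
    simp only [ctr_p, ctr_al, ctr_t, if_true, sub_zero, add_zero, abs_of_pos h2, ite_self]
    linarith
  · rw [dif_neg hs, dif_pos ht, dist_def]
    have h2 := h1 t ht
    have h3 := min_le_left t 1
    have h4 := neg_abs_le (s - t)
    simp only [ctr_p, ctr_al, ctr_t, if_true, zero_sub, zero_add, abs_neg, abs_of_pos h2, ite_self]
    linarith
  · rw [dif_neg hs, dif_neg ht, dist_self]
    exact abs_nonneg _

theorem continuous_arm {p α : ℕ} (hα : α ≤ M p) : Continuous (arm W hα) := by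
  refine (LipschitzWith.of_dist_le_mul (K := 1) fun x y => ?_).continuous
  rw [NNReal.coe_one, one_mul, Real.dist_eq]
  exact arm_lip hα x y

theorem arm_zero {p α : ℕ} (hα : α ≤ M p) : arm W hα 0 = ctr M W p := by
  unfold arm
  rw [dif_neg (lt_irrefl _)]

theorem arm_self (y : Hog M W) (hα : y.al ≤ M y.p) : arm W hα y.t = y := by
  unfold arm
  by_cases h : 0 < y.t
  · rw [dif_pos h]
    exact Hog.ext rfl rfl (min_eq_left y.le_one)
  · rw [dif_neg h]
    have h2 : y.t = 0 := le_antisymm (not_lt.1 h) y.nonneg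
    exact (eq_ctr h2).symm

theorem isPreconnected_radial {S : Set (Hog M W)} (p : ℕ) (hc : ctr M W p ∈ S)
    (h : ∀ y ∈ S, y.p = p ∧ y.al ≤ M p)
    (hr : ∀ y ∈ S, ∀ x : Hog M W, x.p = p → x.al = y.al → x.t ≤ y.t → x ∈ S) :
    IsPreconnected S := by
  refine isPreconnected_of_forall (ctr M W p) fun y hy => ?_
  obtain ⟨h1, h2⟩ := h y hy
  subst h1
  refine ⟨arm W h2 '' Icc 0 y.t, ?_, ⟨0, ⟨le_rfl, y.nonneg⟩, arm_zero h2⟩,
    ⟨y.t, ⟨y.nonneg, le_rfl⟩, arm_self y h2⟩,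
    isPreconnected_Icc.image _ (continuous_arm h2).continuousOn⟩
  rintro _ ⟨s, ⟨hs0, hs1⟩, rfl⟩
  unfold arm
  by_cases h3 : 0 < s
  · rw [dif_pos h3]
    exact hr y hy _ rfl rfl ((min_le_left _ _).trans hs1)
  · rw [dif_neg h3]
    exact hc

/-- The star of the piece `p`. -/
def star (M : ℕ → ℕ) (W : ℕ → ℕ → ℕ → Prop) (p : ℕ) : Set (Hog M W) :=
  {x | x.p = p ∧ x.al ≤ M p}

theorem isPreconnected_star (p : ℕ) : IsPreconnected (star M W p) := by
  refine isPreconnected_radial p ⟨rfl, Nat.zero_le _⟩ (fun y hy => hy) ?_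
  rintro y ⟨h1, h2⟩ x h3 h4 h5
  exact ⟨h3, h4 ▸ h2⟩

/-- The star without the outer parts of all arms but the arm `i`. -/
def Dc (M : ℕ → ℕ) (W : ℕ → ℕ → ℕ → Prop) (p i : ℕ) : Set (Hog M W) :=
  {x | (x.p = p ∧ x.al ≤ M p) ∧ (x.al = i ∨ x.t ≤ 1 / 2)}

theorem isPreconnected_Dc (p i : ℕ) : IsPreconnected (Dc M W p i) := by
  refine isPreconnected_radial p ⟨⟨rfl, Nat.zero_le _⟩, Or.inr (by simp)⟩ (fun y hy => hy.1) ?_
  rintro y ⟨⟨h1, h2⟩, h3⟩ x h4 h5 h6
  refine ⟨⟨h4, h5 ▸ h2⟩, ?_⟩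
  rcases h3 with h3 | h3
  · exact Or.inl (h5.trans h3)
  · exact Or.inr (h6.trans h3)

theorem Dc_subset (p i : ℕ) : Dc M W p i ⊆ star M W p := fun _ hx => hx.1

theorem outer_subset_Dc {p i : ℕ} (hi : i ≤ M p) : outer M W p i (1 / 2) ⊆ Dc M W p i :=
  fun _ hx => ⟨⟨hx.1, by rw [hx.2.1]; exact hi⟩, Or.inl hx.2.1⟩

theorem outer_disjoint_Dc {p i j : ℕ} (hij : j ≠ i) :
    Disjoint (outer M W p j (1 / 2)) (Dc M W p i) := by
  rw [Set.disjoint_left]
  rintro x ⟨h1, h2, h3⟩ ⟨-, h4 | h4⟩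
  · exact hij (h2.symm.trans h4)
  · linarith

theorem outer_nonempty {p i : ℕ} (hi : i ≤ M p) : (outer M W p i (1 / 2)).Nonempty :=
  ⟨⟨p, i, 1, Or.inl ⟨hi, zero_le_one, le_rfl, fun h => absurd h one_ne_zero⟩⟩, rfl, rfl,
    by norm_num⟩

/-- A small piece of arm zero. -/
def Oz (M : ℕ → ℕ) (W : ℕ → ℕ → ℕ → Prop) (p : ℕ) : Set (Hog M W) :=
  outer M W p 0 0 ∩ {x | x.t < 1 / 2}

theorem isOpen_Oz (p : ℕ) : IsOpen (Oz M W p) :=
  (isOpen_outer _ _ le_rfl).inter (isOpen_lt continuous_radius continuous_const)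

theorem Oz_nonempty (p : ℕ) : (Oz M W p).Nonempty :=
  ⟨⟨p, 0, 1 / 4, Or.inl ⟨Nat.zero_le _, by norm_num, by norm_num, fun _ => rfl⟩⟩,
    ⟨rfl, rfl, by norm_num⟩, by simp only [Set.mem_ofPred_eq]; norm_num⟩

theorem Oz_subset_Dc (p i : ℕ) : Oz M W p ⊆ Dc M W p i := by
  rintro x ⟨⟨h1, h2, h3⟩, h4⟩
  exact ⟨⟨h1, by rw [h2]; exact Nat.zero_le _⟩, Or.inr (le_of_lt h4)⟩

/-- A compact open set containing a centre sees only finitely many isolated points at every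
radius. -/
theorem finite_of_compact {U : Set (Hog M W)} (hU : IsCompact U) (hO : IsOpen U) {p : ℕ}
    (hc : ctr M W p ∈ U) (hmono : ∀ a a' i, a ≤ a' → W p a i → W p a' i) (a : ℕ) :
    {i | W p a i}.Finite := by
  classical
  obtain ⟨r, hr, hb⟩ := Metric.isOpen_iff.1 hO _ hc
  obtain ⟨a0, ha0⟩ := exists_pow_lt_of_lt_one hr (show (1 / 2 : ℝ) < 1 by norm_num)
  suffices h : {i | W p (max a a0) i}.Finite from
    h.subset fun i hi => hmono _ _ i (le_max_left _ _) hi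
  set b := max a a0 with hb0
  have hbr : (1 / 2 : ℝ) ^ b < r :=
    lt_of_le_of_lt (pow_le_pow_of_le_one (by norm_num) (by norm_num) (le_max_right _ _)) ha0
  by_contra hinf
  have hinf : {i | W p b i}.Infinite := hinf
  let f : ℕ → Hog M W := fun i => if h : W p b i then
    ⟨p, M p + 1 + Nat.pair b i, (1 / 2) ^ b, Or.inr ⟨b, i, rfl, h, rfl⟩⟩ else ctr M W p
  have hf : ∀ i, W p b i → (f i).p = p ∧ (f i).al = M p + 1 + Nat.pair b i ∧
      (f i).t = (1 / 2) ^ b := by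
    intro i hi
    simp only [f, dif_pos hi, and_self]
  have hinj : Set.InjOn f {i | W p b i} := by
    intro i hi j hj hij
    have h1 := (hf i hi).2.1
    have h2 := (hf j hj).2.1
    rw [hij, h2] at h1
    have h3 : Nat.pair b i = Nat.pair b j := by omega
    exact (Nat.pair_eq_pair.1 h3).2
  have h1 := hinf.image hinj
  have h2 : f '' {i | W p b i} ⊆ U := by
    rintro _ ⟨i, hi, rfl⟩
    refine hb ?_
    obtain ⟨h3, h4, h5⟩ := hf i hi
    rw [mem_ball]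
    have h6 := dist_ctr (f i)
    rw [h3] at h6
    rw [h6, h5]
    exact hbr
  obtain ⟨x, -, hx⟩ := h1.exists_accPt_of_subset_isCompact hU h2
  rw [accPt_iff_nhds] at hx
  obtain ⟨y, ⟨hy1, i, hi, hy2⟩, hyx⟩ := hx (ball x ((1 / 2) ^ b)) (ball_mem_nhds _ (by positivity))
  obtain ⟨h3, h4, h5⟩ := hf i hi
  rw [hy2] at h3 h4 h5
  rw [mem_ball, ← h5] at hy1
  obtain ⟨h6, h7⟩ := same_arm hy1
  refine hyx (extra h6 h7 ?_)
  rw [h3, h4]
  omega

theorem isCompact_star (p : ℕ) : IsCompact (star M W p) := by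
  have h : star M W p = ⋃ α : {α : ℕ // α ∈ Set.Iic (M p)}, arm W α.2 '' Icc 0 1 := by
    ext x
    simp only [mem_iUnion]
    constructor
    · rintro ⟨h1, h2⟩
      subst h1
      exact ⟨⟨x.al, h2⟩, x.t, ⟨x.nonneg, x.le_one⟩, arm_self x h2⟩
    · rintro ⟨⟨α, hα⟩, s, hs, rfl⟩
      unfold arm
      by_cases h3 : 0 < s
      · rw [dif_pos h3]
        exact ⟨rfl, hα⟩
      · rw [dif_neg h3]
        exact ⟨rfl, Nat.zero_le _⟩
  rw [h]
  have : Finite {α : ℕ // α ∈ Set.Iic (M p)} := (Set.finite_Iic (M p)).to_subtype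
  exact isCompact_iUnion fun α => isCompact_Icc.image (continuous_arm α.2)

theorem isCompact_piece {p : ℕ} (hfin : ∀ a, {i | W p a i}.Finite) :
    IsCompact (piece M W p) := by
  refine TotallyBounded.isCompact_of_isClosed ?_ (isClopen_piece p).1
  rw [Metric.totallyBounded_iff]
  intro ε hε
  obtain ⟨t1, ht1, hs1⟩ := Metric.totallyBounded_iff.1 (isCompact_star (M := M) (W := W)
    p).totallyBounded ε hε
  obtain ⟨a0, ha0⟩ := exists_pow_lt_of_lt_one hε (show (1 / 2 : ℝ) < 1 by norm_num)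
  set t2 : Set (Hog M W) := {x | x.p = p ∧ ∃ a < a0, ∃ i, W p a i ∧
    x.al = M p + 1 + Nat.pair a i} with ht2
  have hf2 : t2.Finite := by
    have h1 : (⋃ a ∈ Finset.range a0, (fun i => M p + 1 + Nat.pair a i) '' {i | W p a i}).Finite :=
      Set.Finite.biUnion (Finset.finite_toSet _) fun a _ => (hfin a).image _
    refine Set.Finite.of_injOn (f := fun x : Hog M W => x.al) ?_ ?_ h1
    · rintro x ⟨h2, a, ha, i, hi, h3⟩
      simp only [mem_iUnion, Finset.mem_range]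
      exact ⟨a, ha, i, hi, h3.symm⟩
    · rintro x ⟨h2, a, ha, i, hi, h3⟩ y ⟨h4, _⟩ hxy
      exact extra (h2.trans h4.symm) hxy (by rw [h2, h3]; omega)
  refine ⟨t1 ∪ t2 ∪ {ctr M W p}, (ht1.union hf2).union (finite_singleton _), ?_⟩
  intro x hx
  have hx : x.p = p := hx
  subst hx
  simp only [mem_iUnion]
  rcases x.ok with h | ⟨a, i, h1, h2, h3⟩
  · have h4 : x ∈ star M W x.p := ⟨rfl, h.1⟩
    have h5 := hs1 h4
    simp only [mem_iUnion] at h5
    obtain ⟨y, hy, hxy⟩ := h5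
    exact ⟨y, Or.inl (Or.inl hy), hxy⟩
  · by_cases ha : a < a0
    · exact ⟨x, Or.inl (Or.inr ⟨rfl, a, ha, i, h2, h1⟩), mem_ball_self hε⟩
    · refine ⟨ctr M W x.p, Or.inr rfl, ?_⟩
      rw [mem_ball, dist_ctr, h3]
      exact lt_of_le_of_lt (pow_le_pow_of_le_one (by norm_num) (by norm_num) (not_lt.1 ha)) ha0

end Hog

end Pool.Agent.H54PS
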