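import Pool.Agent.Helper227.RD.Jump

set_option autoImplicit false

namespace Pool.Agent.H54PS

open Encodable
open Pool.Agent.Helper227

section
variable {α β γ : Type*} [Primcodable α] [Primcodable β] [Primcodable γ] {A B : ℕ → Bool}

theorem si_iter {f : ℕ → β → β} {b0 : β}
    (h : SI B fun x : (ℕ × β) × β => f x.1.1 x.1.2 = x.2) :
    SI B fun x : ℕ × β => (Nat.rec (motive := fun _ => β) b0 (fun n b => f n b) x.1 : β) = x.2 := by
  have h1 : SI B fun x : ℕ × β => ∃ L : List β, (L.getD 0 b0 = b0 ∧ L.getD x.1 b0 = x.2) ∧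
      ∀ i < x.1, f i (L.getD i b0) = L.getD (i + 1) b0 := by
    refine SI.ex (p := fun (x : ℕ × β) (L : List β) => (L.getD 0 b0 = b0 ∧ L.getD x.1 b0 = x.2) ∧
      ∀ i < x.1, f i (L.getD i b0) = L.getD (i + 1) b0) (SI.and (SI.of_prim
        (PrimrecPred.and ?_ ?_)) ?_)
    · exact Primrec.eq.comp ((Primrec.list_getD b0).comp Primrec.snd (Primrec.const 0))
        (Primrec.const b0)
    · exact Primrec.eq.comp ((Primrec.list_getD b0).comp Primrec.snd
        (Primrec.fst.comp Primrec.fst)) (Primrec.snd.comp Primrec.fst)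
    · refine SI.all_lt (α := (ℕ × β) × List β)
        (p := fun x i => f i (x.2.getD i b0) = x.2.getD (i + 1) b0) (f := fun x => x.1.1) ?_
        (Primrec.fst.comp Primrec.fst)
      refine h.comp (f := fun z : ((ℕ × β) × List β) × ℕ =>
        ((z.2, z.1.2.getD z.2 b0), z.1.2.getD (z.2 + 1) b0)) ?_
      exact (Primrec.snd.pair ((Primrec.list_getD b0).comp (Primrec.snd.comp Primrec.fst)
        Primrec.snd)).pair ((Primrec.list_getD b0).comp (Primrec.snd.comp Primrec.fst)
        (Primrec.succ.comp Primrec.snd))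
  refine h1.of_eq fun x => ?_
  obtain ⟨n, b⟩ := x
  simp only
  constructor
  · rintro ⟨L, ⟨h0, h1⟩, h2⟩
    rw [← h1]
    have : ∀ k ≤ n, (Nat.rec (motive := fun _ => β) b0 (fun n b => f n b) k : β) = L.getD k b0 := by
      intro k
      induction k with
      | zero => intro _; exact h0.symm
      | succ k ih =>
        intro hk
        simp only
        rw [ih (by omega), h2 k (by omega)]
    exact this n le_rfl
  · rintro rfl
    have key : ∀ i ≤ n, ((List.range (n + 1)).map fun k =>
        (Nat.rec (motive := fun _ => β) b0 (fun n b => f n b) k : β)).getD i b0 =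
        (Nat.rec (motive := fun _ => β) b0 (fun n b => f n b) i : β) := by
      intro i hi
      rw [List.getD_eq_getElem?_getD]
      rw [List.getElem?_map, List.getElem?_range (by omega)]
      rfl
    refine ⟨(List.range (n + 1)).map fun k =>
      (Nat.rec (motive := fun _ => β) b0 (fun n b => f n b) k : β), ⟨?_, ?_⟩, ?_⟩
    · exact key 0 (by omega)
    · rw [key n le_rfl]
    · intro i hi
      rw [key i (by omega), key (i + 1) (by omega)]

/-- The universal quantifier over a jump-decidable predicate. -/
theorem si_not_jump {p : α → Prop} (h : SI A p) : SI (jump A) fun a => ¬ p a := h.decide_jump.2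

/-- Every relatively Sigma-one predicate has a monotone decidable stage approximation. -/
theorem si_stage {p : α → Prop} (hp : SI A p) :
    ∃ q : List Bool × α → ℕ → Prop, PrimrecRel q ∧
      (∀ a, p a ↔ ∃ s, q (pre A s, a) s) := by
  obtain ⟨E, ⟨q, hq, hm, he⟩, mE, eE⟩ := hp
  refine ⟨fun x s => ∃ k < s + 1, q (x.1.take k, x.2) s, ?_, fun a => ?_⟩
  · refine PP.ex_lt (α := (List Bool × α) × ℕ) (p := fun x k => q (x.1.1.take k, x.1.2) x.2)
      (f := fun x => x.2 + 1) ?_ (Primrec.succ.comp Primrec.snd)
    exact hq.comp ((Primrec.list_take.comp Primrec.snd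
      (Primrec.fst.comp (Primrec.fst.comp Primrec.fst))).pair
      (Primrec.snd.comp (Primrec.fst.comp Primrec.fst))) (Primrec.snd.comp Primrec.fst)
  · rw [eE]
    constructor
    · rintro ⟨s, hs⟩
      obtain ⟨n, hn⟩ := (he _).1 hs
      refine ⟨max s n, s, by omega, ?_⟩
      simp only
      rw [take_pre _ _ _ (le_max_left _ _)]
      exact hm _ _ _ (le_max_right _ _) hn
    · rintro ⟨s, k, hk, hq⟩
      simp only at hq
      rw [take_pre _ _ _ (by omega)] at hq
      exact ⟨k, (he _).2 ⟨_, hq⟩⟩

/-- Membership in the graph of `n ↦ pre A n`. -/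
theorem si_pre : SI A fun x : ℕ × List Bool => pre A x.1 = x.2 := by
  have h : SI A fun x : ℕ × List Bool => x.1 = x.2.length ∧
      ∀ i < x.2.length, A i = x.2.getD i false := by
    refine SI.and (SI.of_prim (Primrec.eq.comp Primrec.fst
      (Primrec.list_length.comp Primrec.snd))) ?_
    refine SI.all_lt (α := ℕ × List Bool) (p := fun x i => A i = x.2.getD i false)
        (f := fun x => x.2.length) ?_ (Primrec.list_length.comp Primrec.snd)
    exact SI.query.comp (f := fun z : (ℕ × List Bool) × ℕ => (z.2, z.1.2.getD z.2 false))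
        (Primrec.snd.pair ((Primrec.list_getD false).comp (Primrec.snd.comp Primrec.fst) Primrec.snd))
  refine h.of_eq fun x => ?_
  obtain ⟨n, σ⟩ := x
  simp only
  constructor
  · rintro ⟨rfl, h⟩
    refine List.ext_getElem (by simp) fun i h5 h6 => ?_
    rw [getElem_pre, h i h6]
    simp [h6]
  · rintro rfl
    refine ⟨by simp, fun i hi => ?_⟩
    rw [pre_getD A _ _ _ (by simpa using hi)]

/-- A Boolean-valued primitive recursive function of an initial segment of the oracle. -/
theorem si_dec {q : α × List Bool → Bool} (hq : Primrec q) {f : α → ℕ} (hf : Primrec f) :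
    SI A fun x : α × Bool => q (x.1, pre A (f x.1)) = x.2 := by
  have h : SI A fun x : α × Bool => ∃ σ : List Bool, pre A (f x.1) = σ ∧ q (x.1, σ) = x.2 := by
    refine SI.ex (p := fun (x : α × Bool) (σ : List Bool) => pre A (f x.1) = σ ∧
      q (x.1, σ) = x.2) (SI.and ?_ (SI.of_prim ?_))
    · exact si_pre.comp (f := fun z : (α × Bool) × List Bool => (f z.1.1, z.2))
        ((hf.comp (Primrec.fst.comp Primrec.fst)).pair Primrec.snd)
    · exact Primrec.eq.comp (hq.comp ((Primrec.fst.comp Primrec.fst).pair Primrec.snd))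
        (Primrec.snd.comp Primrec.fst)
  exact h.of_eq fun x => by simp

end

end Pool.Agent.H54PS
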